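import Pool.Agent.H97.Bun.Loc

/-!
# Classes and harmonic functions: definitions

Part of `MP_644d19_co` (road colouring inside cycles). Typed automata `(s, t, σ, a)` as in
`H75/Bunchy/Aut.lean`; `L` is a set of letters, `M` a length, `T` a set of types, and
`c : V → Option ι` gives the class of a recurrent state (`none` for the other ones).
-/

set_option autoImplicit false

namespace Pool.Agent.H97.Cyc

open Pool.Agent.H75.Bunchy Pool.Agent.H26.Bunchy Pool.Agent.H97.Bun
open scoped Classical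

/-- `w` is a valid word from the type `κ`, of length `M`, with letters in `L` -/
def LW {K E : Type*} (s t : E → K) (L : Set E) (M : ℕ) (κ : K) (w : List E) : Prop :=
  Valid s t κ w ∧ w.length = M ∧ ∀ e ∈ w, e ∈ L

/-- the classes of the recurrent states for the words of length `M` with letters in `L` -/
structure Cls {V K E ι : Type*} (s t : E → K) (σ : V → K) (a : V → E → V) (L : Set E) (M : ℕ)
    (T : Set K) (c : V → Option ι) : Prop where
  /-- the types of `T` have a letter in `L` -/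
  start : ∀ κ ∈ T, ∃ e ∈ L, s e = κ
  /-- words with letters in `L` can be continued -/
  cont : ∀ e ∈ L, ∃ f ∈ L, s f = t e
  /-- the words lead from `T` to `T` -/
  step : ∀ κ ∈ T, ∀ w, LW s t L M κ w → fin t κ w ∈ T
  /-- classes are closed -/
  closed : ∀ p i, σ p ∈ T → c p = some i → ∀ w, LW s t L M (σ p) w → c (run a p w) = some i
  /-- within a class every state is reached from every state -/
  trans : ∀ p q i, σ p ∈ T → σ q ∈ T → c p = some i → c q = some i →
    ∃ w, LW s t L M (σ p) w ∧ run a p w = q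
  /-- from every state some class is reached -/
  absorb : ∀ p, σ p ∈ T → ∃ w, LW s t L M (σ p) w ∧ c (run a p w) ≠ none
  /-- every class meets every type of `T` -/
  meet : ∀ κ ∈ T, ∀ i, ∃ p, σ p = κ ∧ c p = some i

/-- a map `U` given by words, which preserves the classes and maps each class in `ι₀` to one
state -/
structure Syn {V K E ι : Type*} (s t : E → K) (σ : V → K) (a : V → E → V) (T : Set K)
    (c : V → Option ι) (ι₀ : Set ι) (U : V → V) : Prop where
  word : ∀ κ ∈ T, ∃ u, Valid s t κ u ∧ ∀ p, σ p = κ → run a p u = U p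
  keep : ∀ p i, σ p ∈ T → c p = some i → c (U p) = some i
  merge : ∀ p q i, σ p ∈ T → σ q ∈ T → c p = some i → c q = some i → i ∈ ι₀ → U p = U q

section
variable {V K E ι : Type*} [Fintype V] [Fintype E]

/-- one step of the walk that uses the letters of `L` with equal probability -/
noncomputable def op (s : E → K) (σ : V → K) (a : V → E → V) (L : Set E) :
    Module.End ℝ (V → ℝ) where
  toFun φ p := (∑ e, if e ∈ L ∧ s e = σ p then φ (a p e) else 0) /
    ((Finset.univ.filter fun e => e ∈ L ∧ s e = σ p).card : ℝ)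
  map_add' φ ψ := by
    funext p
    simp only [Pi.add_apply]
    rw [← add_div, ← Finset.sum_add_distrib]
    congr 1
    refine Finset.sum_congr rfl fun e _ => ?_
    split_ifs <;> simp
  map_smul' r φ := by
    funext p
    simp only [Pi.smul_apply, smul_eq_mul, RingHom.id_apply]
    rw [← mul_div_assoc, Finset.mul_sum]
    congr 1
    refine Finset.sum_congr rfl fun e _ => ?_
    split_ifs <;> simp

lemma op_apply (s : E → K) (σ : V → K) (a : V → E → V) (L : Set E) (φ : V → ℝ) (p : V) :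
    op s σ a L φ p = (∑ e, if e ∈ L ∧ s e = σ p then φ (a p e) else 0) /
      ((Finset.univ.filter fun e => e ∈ L ∧ s e = σ p).card : ℝ) := rfl

/-- `P` is harmonic for the words of length `M` and balanced with the mean `m` at all types
of `T` -/
def HB (s t : E → K) (σ : V → K) (a : V → E → V) (μ : V → ℝ) (e1 e2 : E) (L : Set E) (M : ℕ)
    (T : Set K) (P : V → ℝ) (m : ℝ) : Prop :=
  (∀ p, σ p ∈ T → (op s σ a L ^ M) P p = P p) ∧ ∀ κ ∈ T, Bal s t σ a μ e1 e2 κ [] P m

lemma bal_smul {s t : E → K} {σ : V → K} {a : V → E → V} {μ : V → ℝ} {e1 e2 : E} {k : K}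
    {u : List E} {f : V → ℝ} {c : ℝ} (r : ℝ) (h : Bal s t σ a μ e1 e2 k u f c) :
    Bal s t σ a μ e1 e2 k u (r • f) (r * c) := by
  intro j v u' hj hv hf hu
  rw [← h j v u' hj hv hf hu, ← mean_smul]
  rfl

lemma bal_add {s t : E → K} {σ : V → K} {a : V → E → V} {μ : V → ℝ} {e1 e2 : E} {k : K}
    {u : List E} {f g : V → ℝ} {c d : ℝ} (h : Bal s t σ a μ e1 e2 k u f c)
    (h' : Bal s t σ a μ e1 e2 k u g d) : Bal s t σ a μ e1 e2 k u (f + g) (c + d) := by
  intro j v u' hj hv hf hu
  rw [← h j v u' hj hv hf hu, ← h' j v u' hj hv hf hu, ← mean_add]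
  rfl

/-- the values on the classes of the harmonic balanced functions -/
noncomputable def Asp (s t : E → K) (σ : V → K) (a : V → E → V) (μ : V → ℝ) (e1 e2 : E)
    (L : Set E) (M : ℕ) (T : Set K) (c : V → Option ι) : Submodule ℝ (ι → ℝ) where
  carrier := {α | ∃ P m, HB s t σ a μ e1 e2 L M T P m ∧
    ∀ p i, σ p ∈ T → c p = some i → P p = α i}
  zero_mem' := by
    refine ⟨0, 0, ⟨fun p _ => by simp, fun κ _ => ?_⟩, fun _ _ _ _ => rfl⟩
    intro j v u' _ _ _ _
    have := mean_smul σ μ j 0 (fun _ => (0 : ℝ))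
    simpa using this
  add_mem' := by
    rintro α β ⟨P, m, ⟨h1, h2⟩, h3⟩ ⟨Q, m', ⟨h1', h2'⟩, h3'⟩
    refine ⟨P + Q, m + m', ⟨fun p hp => ?_, fun κ hκ => bal_add (h2 κ hκ) (h2' κ hκ)⟩,
      fun p i hp hi => ?_⟩
    · rw [map_add, Pi.add_apply, h1 p hp, h1' p hp, Pi.add_apply]
    · rw [Pi.add_apply, Pi.add_apply, h3 p i hp hi, h3' p i hp hi]
  smul_mem' := by
    rintro r α ⟨P, m, ⟨h1, h2⟩, h3⟩
    refine ⟨r • P, r * m, ⟨fun p hp => ?_, fun κ hκ => bal_smul r (h2 κ hκ)⟩, fun p i hp hi => ?_⟩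
    · rw [map_smul, Pi.smul_apply, h1 p hp, Pi.smul_apply]
    · rw [Pi.smul_apply, Pi.smul_apply, h3 p i hp hi]

/-- the part with mean zero -/
noncomputable def Asp0 (s t : E → K) (σ : V → K) (a : V → E → V) (μ : V → ℝ) (e1 e2 : E)
    (L : Set E) (M : ℕ) (T : Set K) (c : V → Option ι) : Submodule ℝ (ι → ℝ) where
  carrier := {α | ∃ P, HB s t σ a μ e1 e2 L M T P 0 ∧
    ∀ p i, σ p ∈ T → c p = some i → P p = α i}
  zero_mem' := by
    refine ⟨0, ⟨fun p _ => by simp, fun κ _ => ?_⟩, fun _ _ _ _ => rfl⟩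
    intro j v u' _ _ _ _
    have := mean_smul σ μ j 0 (fun _ => (0 : ℝ))
    simpa using this
  add_mem' := by
    rintro α β ⟨P, ⟨h1, h2⟩, h3⟩ ⟨Q, ⟨h1', h2'⟩, h3'⟩
    refine ⟨P + Q, ⟨fun p hp => ?_, fun κ hκ => ?_⟩, fun p i hp hi => ?_⟩
    · rw [map_add, Pi.add_apply, h1 p hp, h1' p hp, Pi.add_apply]
    · have := bal_add (h2 κ hκ) (h2' κ hκ)
      rwa [add_zero] at this
    · rw [Pi.add_apply, Pi.add_apply, h3 p i hp hi, h3' p i hp hi]
  smul_mem' := by
    rintro r α ⟨P, ⟨h1, h2⟩, h3⟩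
    refine ⟨r • P, ⟨fun p hp => ?_, fun κ hκ => ?_⟩, fun p i hp hi => ?_⟩
    · rw [map_smul, Pi.smul_apply, h1 p hp, Pi.smul_apply]
    · have := bal_smul r (h2 κ hκ)
      rwa [mul_zero] at this
    · rw [Pi.smul_apply, Pi.smul_apply, h3 p i hp hi]

end

end Pool.Agent.H97.Cyc
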