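import Mathlib

/-!
# Powers of a serial relation on a finite type

Part of `MP_644d19_co` (road colouring inside cycles). `r` is a relation on a finite type `X`, `rn r n`
its `n`-fold composition.

`rn_add`: `rn r (m + n) p q ↔ ∃ z, rn r m p z ∧ rn r n z q`, by induction on `m`.
`exists_idem`: the relations `rn r n` take finitely many values, so `rn r i = rn r j` for some
`i < j`; by `rn_add` `rn r (m + d) = rn r m` for `m ≥ i`, `d = j - i`, so `rn r (m + k * d) = rn r m`.
Put `n = d * (i + 1) > 0`: `n ≥ i`, so `rn r (n + k * n) = rn r n` for all `k`.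

Below `E = rn r n₀` with `n₀ > 0` and `rn r (k * n₀) = E` for all `k ≥ 1`. So `E` is transitive.
`Rc p`: recurrent, `∀ q, E p q → E q p`.

`rc_self`: `E p p` for recurrent `p` (serial: some `E p q`, then `E q p`, transitivity).
`exists_rc`: for every `p` there is a recurrent `q₁` with `E p q₁`: among the `q` with `E p q` choose
one with `{z | E q z}` of minimal cardinality, and `q₁` with `E q q₁` (seriality).
`{w | E q₁ w} ⊆ {w | E q w}` and `E p q₁`, so they are equal by minimality, and `q₁` is in the second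
set, so `E q₁ q₁`. If `E q₁ z`, then `E p z` and `{w | E z w} ⊆ {w | E q₁ w}`, equal by minimality,
so `E z q₁`.
`rc_iff`: for recurrent `p` and `E p q`: `q` is recurrent and `E q z ↔ E p z` for all `z`
(transitivity, `E q p`).
`rc_rn`: for recurrent `p` and `rn r j p x` (any `j`): `x` is recurrent. Let `E x q`. Choose `m` with
`j + n₀ + m = (j + 1) * n₀` (`m = j * (n₀ - 1)`), and by seriality `q'` with `rn r m q q'`.
So `E p q'`, `E q' p`, and `q → (m) q' → (n₀) p → (j) x` has length `m + n₀ + j = k * n₀`: `E q x`.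
`rc_meet`: `p`, `p'` recurrent, `rn r n p z`, `rn r n p' z`. Continue by `n * (n₀ - 1) + n₀` steps
to `w` (total `(n + 1) * n₀`): `E p w`, `E p' w`, so `E w p'`, `E p p'`.
`rc_aper`: `p` recurrent, `rn r j p x`, `rn r m x x`, `rn r (m+1) x x`. Then `E p x`: the number
`j + b * (m + 1) + a * m` with `b = j * (n₀ - 1) + n₀`, `a = b * (n₀ - 1)` is a positive multiple of
`n₀`: `j + b ≡ 0`, `(a + b) * m = b * n₀ * m`.
`card_le`: if all `p` reach a point of `Z` in exactly `n` steps, then there are at most `Z.ncard`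
classes: the map from the sets `{q | E p q}`, `p` recurrent, to `Z` (choose `p`, then `z ∈ Z`
with `rn r n p z`) is injective by `rc_meet` and `rc_iff`.
-/

set_option autoImplicit false

namespace Pool.Agent.H97.Cyc

open scoped Classical

variable {X : Type*}

/-- `n`-fold composition -/
def rn (r : X → X → Prop) : ℕ → X → X → Prop
  | 0, p, q => p = q
  | n + 1, p, q => ∃ z, r p z ∧ rn r n z q

variable {r : X → X → Prop}

lemma rn_add (m n : ℕ) (p q : X) : rn r (m + n) p q ↔ ∃ z, rn r m p z ∧ rn r n z q := by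
  induction m generalizing p with
  | zero => simp [rn]
  | succ m ih =>
    rw [Nat.add_right_comm]
    simp only [rn]
    constructor
    · rintro ⟨z, hz, h⟩
      obtain ⟨w, hw, hw'⟩ := (ih z).1 h
      exact ⟨w, ⟨z, hz, hw⟩, hw'⟩
    · rintro ⟨w, ⟨z, hz, hw⟩, hw'⟩
      exact ⟨z, hz, (ih z).2 ⟨w, hw, hw'⟩⟩

lemma rn_serial (hs : ∀ p, ∃ q, r p q) (n : ℕ) (p : X) : ∃ q, rn r n p q := by
  induction n generalizing p with
  | zero => exact ⟨p, rfl⟩
  | succ n ih =>
    obtain ⟨z, hz⟩ := hs p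
    obtain ⟨q, hq⟩ := ih z
    exact ⟨q, z, hz, hq⟩

variable [Finite X]

theorem exists_idem (r : X → X → Prop) : ∃ n₀, 0 < n₀ ∧ ∀ k, 0 < k → rn r (k * n₀) = rn r n₀ := by
  have hf : Finite (X → X → Prop) := inferInstance
  obtain ⟨i, j, hij, he⟩ := Finite.exists_ne_map_eq_of_infinite (fun n : ℕ => rn r n)
  -- we may assume i < j
  have key : ∀ i j : ℕ, i < j → rn r i = rn r j →
      ∃ n₀, 0 < n₀ ∧ ∀ k, 0 < k → rn r (k * n₀) = rn r n₀ := by
    intro i j hij he
    obtain ⟨d, rfl⟩ : ∃ d, j = i + d := ⟨j - i, by omega⟩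
    have hd : 0 < d := by omega
    have h1 : ∀ m, i ≤ m → rn r (m + d) = rn r m := by
      intro m hm
      obtain ⟨t, rfl⟩ : ∃ t, m = i + t := ⟨m - i, by omega⟩
      funext p q
      apply propext
      rw [show i + t + d = (i + d) + t by ring, rn_add, rn_add, he]
    have h2 : ∀ k m, i ≤ m → rn r (m + k * d) = rn r m := by
      intro k
      induction k with
      | zero => intro m _; simp
      | succ k ih =>
        intro m hm
        rw [show m + (k + 1) * d = (m + k * d) + d by ring, h1 _ (by omega), ih m hm]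
    refine ⟨d * (i + 1), by positivity, ?_⟩
    intro k hk
    obtain ⟨l, rfl⟩ : ∃ l, k = l + 1 := ⟨k - 1, by omega⟩
    have h3 : i ≤ d * (i + 1) := by nlinarith
    rw [show (l + 1) * (d * (i + 1)) = d * (i + 1) + (l * (i + 1)) * d by ring, h2 _ _ h3]
  rcases lt_or_gt_of_ne hij with h | h
  · exact key i j h he
  · exact key j i h he.symm

/-- recurrent -/
def Rc (r : X → X → Prop) (n₀ : ℕ) (p : X) : Prop := ∀ q, rn r n₀ p q → rn r n₀ q p

variable {n₀ : ℕ}

omit [Finite X] in
lemma rn_trans (hi : ∀ k, 0 < k → rn r (k * n₀) = rn r n₀) {p q z : X} (h : rn r n₀ p q)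
    (h' : rn r n₀ q z) : rn r n₀ p z := by
  have h2 : rn r (2 * n₀) p z := by
    rw [two_mul, rn_add]
    exact ⟨q, h, h'⟩
  rwa [hi 2 (by norm_num)] at h2

omit [Finite X] in
lemma rc_self (hs : ∀ p, ∃ q, r p q) (hi : ∀ k, 0 < k → rn r (k * n₀) = rn r n₀) {p : X}
    (hp : Rc r n₀ p) : rn r n₀ p p := by
  obtain ⟨q, hq⟩ := rn_serial hs n₀ p
  exact rn_trans hi hq (hp q hq)

lemma exists_rc (hs : ∀ p, ∃ q, r p q) (hi : ∀ k, 0 < k → rn r (k * n₀) = rn r n₀) (p : X) :
    ∃ q, rn r n₀ p q ∧ Rc r n₀ q := by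
  have hne : {q | rn r n₀ p q}.Nonempty := rn_serial hs n₀ p
  obtain ⟨q, hq, hmin⟩ := Set.exists_min_image {q | rn r n₀ p q}
    (fun q => ({z | rn r n₀ q z} : Set X).ncard) (Set.toFinite _) hne
  obtain ⟨q₁, hq₁⟩ := rn_serial hs n₀ q
  have hq' : rn r n₀ p q := hq
  have hpq₁ : rn r n₀ p q₁ := rn_trans hi hq' hq₁
  have hle : ∀ w, rn r n₀ q w → {z | rn r n₀ w z} = {z | rn r n₀ q z} := by
    intro w hw
    apply Set.eq_of_subset_of_ncard_le
    · intro z hz
      exact rn_trans hi hw hz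
    · exact hmin w (rn_trans hi hq' hw)
    · exact Set.toFinite _
  refine ⟨q₁, hpq₁, ?_⟩
  intro z hz
  have h1 : {w | rn r n₀ z w} = {w | rn r n₀ q w} := hle z (rn_trans hi hq₁ hz)
  have h2 : q₁ ∈ {w | rn r n₀ z w} := by
    rw [h1]; exact hq₁
  exact h2

omit [Finite X] in
lemma rc_iff (hi : ∀ k, 0 < k → rn r (k * n₀) = rn r n₀) {p q : X} (hp : Rc r n₀ p)
    (h : rn r n₀ p q) : Rc r n₀ q ∧ ∀ z, rn r n₀ q z ↔ rn r n₀ p z := by
  have hb : rn r n₀ q p := hp q h
  refine ⟨?_, fun z => ⟨fun hz => rn_trans hi h hz, fun hz => rn_trans hi hb hz⟩⟩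
  intro z hz
  have h1 : rn r n₀ z p := hp z (rn_trans hi h hz)
  exact rn_trans hi h1 h

end Pool.Agent.H97.Cyc
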