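import Pool.Agent.H97.Cyc.Sub
import Pool.Agent.H97.Cyc.Rel
import Pool.Agent.H97.Cyc.Defs

/-!
# The classes over the base vertex of a cycle

Part of `MP_644d19_co` (road colouring inside cycles). `K ∈ D.Cv` with `D.nx^[ℓ] K = K`; `Xv v K` the
vertices over `K`, `rr` the relation of `ℓ` steps, `n₀` as in `exists_idem`. `cl` gives the class of a
recurrent vertex over `K` (the set of the vertices over `K` reached from it in `n₀ * ℓ` steps), and
`none` for all other vertices.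

`steps_iff_LW`: induction on the length (`mem_followersOver`: followers over `nx (v p)` are the
`Φ.act p e` with `H.src e = Φ.v p`, `H.tgt e = nx (Φ.v p)`, that is `e ∈ D.L`, `H.src e = Φ.v p`).
`rn_rr`: induction on `n`, `steps_add`; the intermediate vertices are over `K` (`steps_typ`,
`D.nx^[ℓ] K = K`).
`cl_some`, `cl_rel`: unfold; two recurrent vertices with the same set: `q ∈ {z | rn q z}` by `rc_self`.
`cl_of_rn`: `rc_iff`.
`cls_of`: `start`, `cont`: `D.out`; `step`: `fin_LW` and `D.nx^[n₀ * ℓ] K = K`; `closed`: `steps_iff_LW`,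
`rn_rr`, `cl_of_rn`; `trans`: `cl_rel`, `steps_iff_LW`; `absorb`: `exists_rc`; `meet`: every class has an
element. All for the vertex map `v` and any right resolver `Φ` with `Φ.v = v`.
`term_of_rc`: for recurrent `p` over `K` the set `{q | ∃ N, Steps v D N p q}` is a terminal component:
if `Steps N p q`, choose `N'` with `N + N' = (N + 1) * (n₀ * ℓ)` and `q'` with `Steps N' q q'`
(`steps_serial`), then `rn r n₀ p q'` (idempotence, `n₀ * ℓ > 0`), so `rn r n₀ q' p`: `q` reaches `p`.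
`exists_merge`: `exists_glue`, `term_of_rc`; for `cl p = cl q = some i` the number `N = n₀ * ℓ` satisfies
`Steps N p p`, `Steps N p q` (`cl_rel`).
-/

set_option autoImplicit false

namespace Pool.Agent.H97.Cyc

open Pool.Agent.H75.Bunchy Pool.Agent.H97.Bun
open scoped Classical

variable {G H : Graph} {v : G.V → H.V} {D : CycData H} {K : H.V} {ℓ n₀ : ℕ}

lemma steps_add (m n : ℕ) (p q : G.V) :
    Steps v D (m + n) p q ↔ ∃ z, Steps v D m p z ∧ Steps v D n z q := by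
  induction m generalizing p with
  | zero =>
    rw [Nat.zero_add]
    constructor
    · intro h; exact ⟨p, rfl, h⟩
    · rintro ⟨z, hz, h⟩
      have hz' : p = z := hz
      rw [hz']; exact h
  | succ m ih =>
    rw [show m + 1 + n = (m + n) + 1 by omega]
    constructor
    · rintro ⟨y, hy, h⟩
      obtain ⟨z, hz1, hz2⟩ := (ih y).1 h
      exact ⟨z, ⟨y, hy, hz1⟩, hz2⟩
    · rintro ⟨z, ⟨y, hy, hz1⟩, hz2⟩
      exact ⟨y, hy, (ih y).2 ⟨z, hz1, hz2⟩⟩

lemma steps_typ {n : ℕ} {p q : G.V} (hp : v p ∈ D.Cv) (h : Steps v D n p q) :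
    v q = D.nx^[n] (v p) ∧ v q ∈ D.Cv := by
  induction n generalizing p with
  | zero =>
    have h' : p = q := h
    subst h'
    exact ⟨rfl, hp⟩
  | succ n ih =>
    obtain ⟨z, ⟨_, hz2⟩, hz⟩ := h
    have h1 : v z = D.nx (v p) := hz2.2
    have h2 : v z ∈ D.Cv := by rw [h1]; exact D.maps _ hp
    obtain ⟨h3, h4⟩ := ih h2 hz
    refine ⟨?_, h4⟩
    rw [h3, h1, Function.iterate_succ_apply]

lemma steps_serial (Φ : RightResolver G H) (hv : Φ.v = v) (n : ℕ) {p : G.V} (hp : v p ∈ D.Cv) :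
    ∃ q, Steps v D n p q := by
  subst hv
  induction n generalizing p with
  | zero => exact ⟨p, rfl⟩
  | succ n ih =>
    obtain ⟨e, he1, he2⟩ := D.out _ hp
    have h1 : Φ.act p e ∈ FollowersOver Φ.v p (D.nx (Φ.v p)) :=
      (Φ.mem_followersOver p _ _).2 ⟨e, he1, he2, rfl⟩
    have h2 : Φ.v (Φ.act p e) ∈ D.Cv := by
      rw [h1.2]; exact D.maps _ hp
    obtain ⟨q, hq⟩ := ih h2
    exact ⟨q, _, ⟨hp, h1⟩, hq⟩

lemma fin_LW {n : ℕ} {κ : H.V} (hκ : κ ∈ D.Cv) {w : List H.E}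
    (hw : LW H.src H.tgt D.L n κ w) : fin H.tgt κ w = D.nx^[n] κ := by
  induction w generalizing n κ with
  | nil =>
    obtain ⟨_, h2, _⟩ := hw
    have h3 : n = 0 := by rw [← h2]; rfl
    subst h3
    rfl
  | cons e w ih =>
    obtain ⟨h1, h2, h3⟩ := hw
    obtain ⟨h4, h5⟩ := (valid_cons _ _ _).1 h1
    have he : e ∈ D.L := h3 e List.mem_cons_self
    have h6 : H.tgt e = D.nx κ := by rw [he.2, h4]
    have h7 : H.tgt e ∈ D.Cv := by rw [h6]; exact D.maps _ hκ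
    rw [fin_cons]
    cases n with
    | zero => simp at h2
    | succ n =>
      have h8 : w.length = n := by simpa using h2
      rw [ih (n := n) h7 ⟨h5, h8, fun x hx => h3 x (List.mem_cons_of_mem _ hx)⟩, h6,
        Function.iterate_succ_apply]

lemma steps_iff_LW (Φ : RightResolver G H) (hv : Φ.v = v) (n : ℕ) {p q : G.V}
    (hp : v p ∈ D.Cv) : Steps v D n p q ↔
      ∃ w, LW H.src H.tgt D.L n (v p) w ∧ run Φ.act p w = q := by
  subst hv
  induction n generalizing p with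
  | zero =>
    constructor
    · intro h
      exact ⟨[], ⟨trivial, rfl, by simp⟩, h⟩
    · rintro ⟨w, ⟨_, h2, _⟩, h⟩
      have h3 : w = [] := List.length_eq_zero_iff.1 h2
      rw [h3] at h
      exact h
  | succ n ih =>
    constructor
    · rintro ⟨z, ⟨_, hz1⟩, hz⟩
      have hz2 : Φ.v z ∈ D.Cv := by rw [hz1.2]; exact D.maps _ hp
      obtain ⟨e, he1, he2, he3⟩ := (Φ.mem_followersOver p _ _).1 hz1
      obtain ⟨w, ⟨hw1, hw2, hw3⟩, hw4⟩ := (ih hz2).1 hz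
      refine ⟨e :: w, ⟨⟨he1, ?_⟩, by simp [hw2], ?_⟩, ?_⟩
      · rw [he2, ← hz1.2]; exact hw1
      · intro x hx
        rcases List.mem_cons.1 hx with rfl | hx
        · exact ⟨by rw [he1]; exact hp, by rw [he1]; exact he2⟩
        · exact hw3 x hx
      · rw [run_cons, he3]; exact hw4
    · rintro ⟨w, ⟨hw1, hw2, hw3⟩, hw4⟩
      cases w with
      | nil => simp at hw2
      | cons e w =>
        obtain ⟨h4, h5⟩ := (valid_cons _ _ _).1 hw1
        have he : e ∈ D.L := hw3 e List.mem_cons_self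
        have h6 : H.tgt e = D.nx (Φ.v p) := by rw [he.2, h4]
        have h7 : Φ.act p e ∈ FollowersOver Φ.v p (D.nx (Φ.v p)) :=
          (Φ.mem_followersOver p _ _).2 ⟨e, h4, h6, rfl⟩
        have h8 : Φ.v (Φ.act p e) ∈ D.Cv := by rw [h7.2]; exact D.maps _ hp
        refine ⟨Φ.act p e, ⟨hp, h7⟩, (ih h8).2 ⟨w, ⟨?_, ?_, ?_⟩, ?_⟩⟩
        · rw [h7.2, ← h6]; exact h5
        · simpa using hw2
        · exact fun x hx => hw3 x (List.mem_cons_of_mem _ hx)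
        · exact hw4

/-- the vertices over `K` -/
abbrev Xv (v : G.V → H.V) (K : H.V) : Type := {p : G.V // v p = K}

/-- one round -/
def rr (v : G.V → H.V) (D : CycData H) (K : H.V) (ℓ : ℕ) (p q : Xv v K) : Prop :=
  Steps v D ℓ p.1 q.1

lemma rn_rr (hK : K ∈ D.Cv) (hℓ : D.nx^[ℓ] K = K) (n : ℕ) (p q : Xv v K) :
    rn (rr v D K ℓ) n p q ↔ Steps v D (n * ℓ) p.1 q.1 := by
  induction n generalizing p with
  | zero =>
    rw [Nat.zero_mul]
    constructor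
    · intro h
      have h' : p = q := h
      rw [h']; rfl
    · intro h
      exact Subtype.ext h
  | succ n ih =>
    rw [show (n + 1) * ℓ = ℓ + n * ℓ by ring, steps_add]
    constructor
    · rintro ⟨z, hz1, hz2⟩
      exact ⟨z.1, hz1, (ih z).1 hz2⟩
    · rintro ⟨z, hz1, hz2⟩
      have hpC : v p.1 ∈ D.Cv := by rw [p.2]; exact hK
      have h1 : v z = K := by
        rw [(steps_typ hpC hz1).1, p.2, hℓ]
      exact ⟨⟨z, h1⟩, hz1, (ih ⟨z, h1⟩).2 hz2⟩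

lemma rr_serial (Φ : RightResolver G H) (hv : Φ.v = v) (hK : K ∈ D.Cv) (hℓ : D.nx^[ℓ] K = K)
    (p : Xv v K) : ∃ q, rr v D K ℓ p q := by
  have hpC : v p.1 ∈ D.Cv := by rw [p.2]; exact hK
  obtain ⟨q, hq⟩ := steps_serial Φ hv ℓ hpC
  exact ⟨⟨q, by rw [(steps_typ hpC hq).1, p.2, hℓ]⟩, hq⟩

/-- the classes -/
abbrev Ci (v : G.V → H.V) (D : CycData H) (K : H.V) (ℓ n₀ : ℕ) : Type :=
  {S : Set (Xv v K) // ∃ p, Rc (rr v D K ℓ) n₀ p ∧ S = {q | rn (rr v D K ℓ) n₀ p q}}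

/-- the class of a recurrent vertex over `K` -/
noncomputable def cl (v : G.V → H.V) (D : CycData H) (K : H.V) (ℓ n₀ : ℕ) (p : G.V) :
    Option (Ci v D K ℓ n₀) :=
  if h : ∃ hp : v p = K, Rc (rr v D K ℓ) n₀ ⟨p, hp⟩ then
    some ⟨{q | rn (rr v D K ℓ) n₀ ⟨p, h.choose⟩ q}, ⟨_, h.choose_spec, rfl⟩⟩
  else none

lemma cl_some {p : G.V} {i : Ci v D K ℓ n₀} (h : cl v D K ℓ n₀ p = some i) :
    ∃ hp : v p = K, Rc (rr v D K ℓ) n₀ ⟨p, hp⟩ ∧ i.1 = {q | rn (rr v D K ℓ) n₀ ⟨p, hp⟩ q} := by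
  unfold cl at h
  split_ifs at h with h1
  refine ⟨h1.choose, h1.choose_spec, ?_⟩
  rw [← Option.some.inj h]

lemma cl_ne_none {p : G.V} (hp : v p = K) : cl v D K ℓ n₀ p ≠ none ↔
    Rc (rr v D K ℓ) n₀ ⟨p, hp⟩ := by
  unfold cl
  split_ifs with h1
  · exact ⟨fun _ => h1.choose_spec, fun _ => by simp⟩
  · exact ⟨fun h => absurd rfl h, fun h => absurd ⟨hp, h⟩ h1⟩

/-- `n₀` is as in `exists_idem` for `rr` -/
def Idem (v : G.V → H.V) (D : CycData H) (K : H.V) (ℓ n₀ : ℕ) : Prop :=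
  0 < n₀ ∧ ∀ k, 0 < k → rn (rr v D K ℓ) (k * n₀) = rn (rr v D K ℓ) n₀

lemma cl_rel (Φ : RightResolver G H) (hv : Φ.v = v) (hK : K ∈ D.Cv) (hℓ : D.nx^[ℓ] K = K)
    (hi : Idem v D K ℓ n₀) {p q : G.V} {i : Ci v D K ℓ n₀} (hp : cl v D K ℓ n₀ p = some i)
    (hq : cl v D K ℓ n₀ q = some i) : Steps v D (n₀ * ℓ) p q := by
  obtain ⟨hp1, hp2, hp3⟩ := cl_some hp
  obtain ⟨hq1, hq2, hq3⟩ := cl_some hq
  have h1 : rn (rr v D K ℓ) n₀ ⟨q, hq1⟩ ⟨q, hq1⟩ :=
    rc_self (rr_serial Φ hv hK hℓ) hi.2 hq2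
  have h2 : (⟨q, hq1⟩ : Xv v K) ∈ i.1 := by rw [hq3]; exact h1
  rw [hp3] at h2
  exact (rn_rr hK hℓ n₀ ⟨p, hp1⟩ ⟨q, hq1⟩).1 h2

lemma cl_of_rn (hi : Idem v D K ℓ n₀) {p q : Xv v K} {i : Ci v D K ℓ n₀}
    (hp : cl v D K ℓ n₀ p.1 = some i) (h : rn (rr v D K ℓ) n₀ p q) :
    cl v D K ℓ n₀ q.1 = some i := by
  obtain ⟨hp1, hp2, hp3⟩ := cl_some hp
  obtain ⟨h1, h2⟩ := rc_iff hi.2 hp2 (q := q) h
  have h3 : cl v D K ℓ n₀ q.1 ≠ none := (cl_ne_none q.2).2 h1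
  obtain ⟨j, hj⟩ := Option.ne_none_iff_exists'.1 h3
  obtain ⟨hq1, hq2, hq3⟩ := cl_some hj
  rw [hj]
  congr 1
  refine Subtype.ext ?_
  rw [hq3, hp3]
  ext z
  exact h2 z

end Pool.Agent.H97.Cyc
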