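import Pool.Agent.H97.Cyc.Glue
import Pool.Agent.H97.Cyc.Base

/-!
# The classes over the base vertex of a cycle

Part of `MP_644d19_co` (road colouring inside cycles). `K ∈ D.Cv` with `D.nx^[ℓ] K = K`; `Xv v K` the
vertices over `K`, `rr` the relation of `ℓ` steps, `n₀` as in `exists_idem`. `cl` gives the class of a
recurrent vertex over `K` (the set of the vertices over `K` reached from it in `n₀ * ℓ` steps), and
`none` for all other vertices.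

`steps_iff_LW`: induction on the length (`mem_followersOver`: followers over `nx (v p)` are the
`Φ.act p e` with `H.src e = Φ.v p`, `H.tgt e = nx (Φ.v p)`, that is `e ∈ D.L`, `H.src e = Φ.v p`).
`rn_rr`: induction on `n`, `steps_add`; the intermediate vertices are over `K` (`steps_typ`,
`D.nx^[ℓ] K = K`).
`cl_some`, `cl_rel`: unfold; two recurrent vertices with the same set: `q ∈ {z | rn q z}` by `rc_self`.
`cl_of_rn`: `rc_iff`.
`cls_of`: `start`, `cont`: `D.out`; `step`: `fin_LW` and `D.nx^[n₀ * ℓ] K = K`; `closed`: `steps_iff_LW`,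
`rn_rr`, `cl_of_rn`; `trans`: `cl_rel`, `steps_iff_LW`; `absorb`: `exists_rc`; `meet`: every class has an
element. All for the vertex map `v` and any right resolver `Φ` with `Φ.v = v`.
`term_of_rc`: for recurrent `p` over `K` the set `{q | ∃ N, Steps v D N p q}` is a terminal component:
if `Steps N p q`, choose `N'` with `N + N' = (N + 1) * (n₀ * ℓ)` and `q'` with `Steps N' q q'`
(`steps_serial`), then `rn r n₀ p q'` (idempotence, `n₀ * ℓ > 0`), so `rn r n₀ q' p`: `q` reaches `p`.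
`exists_merge`: `exists_glue`, `term_of_rc`; for `cl p = cl q = some i` the number `N = n₀ * ℓ` satisfies
`Steps N p p`, `Steps N p q` (`cl_rel`).
-/

set_option autoImplicit false

namespace Pool.Agent.H97.Cyc

open Pool.Agent.H75.Bunchy Pool.Agent.H97.Bun
open scoped Classical

variable {G H : Graph} {v : G.V → H.V} {D : CycData H} {K : H.V} {ℓ n₀ : ℕ}

private lemma iter_fix (hℓ : D.nx^[ℓ] K = K) (n : ℕ) : D.nx^[n * ℓ] K = K := by
  rw [Nat.mul_comm, Function.iterate_mul]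
  exact Function.iterate_fixed hℓ n

private lemma mem_L_of_out {κ : H.V} (hκ : κ ∈ D.Cv) : ∃ e ∈ D.L, H.src e = κ := by
  obtain ⟨e, he1, he2⟩ := D.out κ hκ
  exact ⟨e, ⟨by rw [he1]; exact hκ, by rw [he1]; exact he2⟩, he1⟩

theorem cls_of (Φ : RightResolver G H) (hv : Φ.v = v) (hK : K ∈ D.Cv) (hℓ : D.nx^[ℓ] K = K)
    (hi : Idem v D K ℓ n₀) :
    Cls H.src H.tgt v Φ.act D.L (n₀ * ℓ) {K} (cl v D K ℓ n₀) := by
  have hC : ∀ p : G.V, v p ∈ ({K} : Set H.V) → v p ∈ D.Cv := by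
    intro p hp
    rw [Set.mem_singleton_iff.1 hp]; exact hK
  refine ⟨?_, ?_, ?_, ?_, ?_, ?_, ?_⟩
  · rintro κ hκ
    rw [Set.mem_singleton_iff] at hκ
    subst hκ
    exact mem_L_of_out hK
  · rintro e he
    refine mem_L_of_out ?_
    rw [he.2]; exact D.maps _ he.1
  · rintro κ hκ w hw
    rw [Set.mem_singleton_iff] at hκ
    subst hκ
    rw [fin_LW hK hw, iter_fix hℓ]
    rfl
  · rintro p i hp hc w hw
    have hpK : v p = K := hp
    have h1 : Steps v D (n₀ * ℓ) p (run Φ.act p w) :=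
      (steps_iff_LW Φ hv (n₀ * ℓ) (hC p hp)).2 ⟨w, hw, rfl⟩
    have h2 : v (run Φ.act p w) = K := by
      rw [(steps_typ (hC p hp) h1).1, hpK, iter_fix hℓ]
    exact cl_of_rn hi (p := ⟨p, hpK⟩) (q := ⟨run Φ.act p w, h2⟩) hc
      ((rn_rr hK hℓ n₀ ⟨p, hpK⟩ ⟨run Φ.act p w, h2⟩).2 h1)
  · rintro p q i hp hq hcp hcq
    exact (steps_iff_LW Φ hv (n₀ * ℓ) (hC p hp)).1 (cl_rel Φ hv hK hℓ hi hcp hcq)
  · rintro p hp
    have hpK : v p = K := hp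
    obtain ⟨q, hq1, hq2⟩ := exists_rc (rr_serial Φ hv hK hℓ) hi.2 (⟨p, hpK⟩ : Xv v K)
    have h1 : Steps v D (n₀ * ℓ) p q.1 := (rn_rr hK hℓ n₀ ⟨p, hpK⟩ q).1 hq1
    obtain ⟨w, hw1, hw2⟩ := (steps_iff_LW Φ hv (n₀ * ℓ) (hC p hp)).1 h1
    refine ⟨w, hw1, ?_⟩
    rw [hw2]
    exact (cl_ne_none q.2).2 hq2
  · rintro κ hκ i
    rw [Set.mem_singleton_iff] at hκ
    subst hκ
    obtain ⟨p, hp1, hp2⟩ := i.2
    refine ⟨p.1, p.2, ?_⟩
    have h3 : cl v D κ ℓ n₀ p.1 ≠ none := (cl_ne_none p.2).2 hp1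
    obtain ⟨j, hj⟩ := Option.ne_none_iff_exists'.1 h3
    obtain ⟨_, _, hj3⟩ := cl_some hj
    rw [hj]
    congr 1
    refine Subtype.ext ?_
    rw [hj3, hp2]

private lemma steps_rtg {n : ℕ} {p q : G.V} (h : Steps v D n p q) :
    Relation.ReflTransGen (LStep v D) p q := by
  induction n generalizing p with
  | zero =>
    have h' : p = q := h
    rw [h']
  | succ n ih =>
    obtain ⟨z, hz1, hz2⟩ := h
    exact Relation.ReflTransGen.head hz1 (ih hz2)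

lemma term_of_rc (Φ : RightResolver G H) (hv : Φ.v = v) (hK : K ∈ D.Cv) (hℓ0 : 0 < ℓ)
    (hℓ : D.nx^[ℓ] K = K) (hi : Idem v D K ℓ n₀) (p : Xv v K) (hp : Rc (rr v D K ℓ) n₀ p) :
    Term v D {q | ∃ N, Steps v D N p.1 q} := by
  have hpC : v p.1 ∈ D.Cv := by rw [p.2]; exact hK
  refine ⟨⟨p.1, 0, rfl⟩, ?_, ?_, ?_⟩
  · rintro q ⟨N, hN⟩
    exact (steps_typ hpC hN).2
  · rintro q ⟨N, hN⟩ z hz
    exact ⟨N + 1, (steps_add N 1 p.1 z).2 ⟨q, hN, z, hz, rfl⟩⟩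
  · rintro q ⟨N, hN⟩ z ⟨N', hN'⟩
    have hqC : v q ∈ D.Cv := (steps_typ hpC hN).2
    have h0 : 0 < n₀ * ℓ := Nat.mul_pos hi.1 hℓ0
    have h1 : N ≤ (N + 1) * (n₀ * ℓ) :=
      le_trans (Nat.le_succ N) (Nat.le_mul_of_pos_right _ h0)
    obtain ⟨m, hm⟩ := Nat.exists_eq_add_of_le h1
    obtain ⟨y, hy⟩ := steps_serial Φ hv m hqC
    have h2 : Steps v D ((N + 1) * (n₀ * ℓ)) p.1 y := by
      rw [hm]; exact (steps_add N m p.1 y).2 ⟨q, hN, hy⟩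
    have h3 : v y = K := by
      rw [(steps_typ hpC h2).1, p.2, ← Nat.mul_assoc, iter_fix hℓ]
    have h4 : rn (rr v D K ℓ) ((N + 1) * n₀) p ⟨y, h3⟩ := by
      rw [rn_rr hK hℓ, Nat.mul_assoc]; exact h2
    rw [hi.2 (N + 1) (Nat.succ_pos N)] at h4
    have h5 : rn (rr v D K ℓ) n₀ ⟨y, h3⟩ p := hp _ h4
    have h6 : Steps v D (n₀ * ℓ) y p.1 := (rn_rr hK hℓ n₀ ⟨y, h3⟩ p).1 h5
    exact ((steps_rtg hy).trans (steps_rtg h6)).trans (steps_rtg hN')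

theorem exists_merge (Φ : RightResolver G H) (hK : K ∈ D.Cv) (hℓ0 : 0 < ℓ)
    (hℓ : D.nx^[ℓ] K = K) (hi : Idem Φ.v D K ℓ n₀) :
    ∃ Φ' : RightResolver G H, Φ'.v = Φ.v ∧ ∀ p, Φ.v p = K → ∀ i, cl Φ.v D K ℓ n₀ p = some i →
      ∃ w, Valid H.src H.tgt K w ∧ (∀ e ∈ w, e ∈ D.L) ∧
        ∀ q, Φ.v q = K → cl Φ.v D K ℓ n₀ q = some i → run Φ'.act q w = run Φ'.act p w := by
  obtain ⟨Φ', hv', hΦ'⟩ := exists_glue Φ D
  refine ⟨Φ', hv', ?_⟩
  intro p hp i hpi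
  obtain ⟨hp1, hp2, _⟩ := cl_some hpi
  have hT := term_of_rc Φ rfl hK hℓ0 hℓ hi ⟨p, hp1⟩ hp2
  obtain ⟨w, hw1, hw2, hw3⟩ := hΦ' _ hT p ⟨0, rfl⟩
  refine ⟨w, by rw [← hp]; exact hw1, hw2, ?_⟩
  intro q _ hqi
  have h1 : Steps Φ.v D (n₀ * ℓ) p q := cl_rel Φ rfl hK hℓ hi hpi hqi
  exact hw3 q ⟨_, h1⟩ (n₀ * ℓ) (cl_rel Φ rfl hK hℓ hi hpi hpi) h1

end Pool.Agent.H97.Cyc
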