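import Pool.Agent.H97.Cyc.Defs

/-!
# Two adjacent automata without stable pair, classes: the total case

Part of `MP_644d19_co` (road colouring inside cycles). `a' = flip e1 e2 {x} a`.

`Cls.flip'`: the data of the classes for `a` are also data for `a'`: `start`, `cont`, `step`, `meet` do
not involve the automaton. For `closed`, `absorb`, `trans`: for every word `w` in `LW` there is a
word `w'` in `LW` with `run a' p w = run a p w'` (`run_flip_hyb` in `Bun/COf.lean`; `Hyb.valid`; the
letters of a word `w'` with `Hyb w w'` are letters of `w` or exchanged ones, in `L` by `hL`, and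
`w'` has the same length), and conversely `run a p w = run a' p w'`
(`a = flip e1 e2 {x} a'`: `flip_flip`, `symmDiff_self`, `flip_empty`).

`cyc_total`: both automata are typed and strongly connected, `μ` is stationary for both
(`stat_flip`), both ranks are at least 2 (`two_le_rank`; for `a'` at `x`: `flip_left`,
`flip_right`). `op` is the same for both (`op_flip`). Let `A = Asp a`, `A' = Asp a'`.
`halfC` with `ι₀ = univ`: `card ι + 2 ≤ 2 finrank A`; as `finrank A ≤ card ι`, `card ι ≥ 2`. So
`ι₀'` (at most one class missing) is not empty, `card ι ≤ ι₀'.ncard + 1`, and `halfC` for `a'` gives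
`card ι + 1 ≤ 2 finrank A'`. `A ⊓ A' ≤ span {1}`: let `α` be in both, with `P`, `m` and `P'`, `m'`.
`P - P'` is harmonic (same `op`) and vanishes on the classes, so `P = P'` at the states with type in
`T` (`harm_zero`); so `P` is balanced for `a'` too at every `κ ∈ T` (`bal_congr`: the end states for
`u = []` are the states of type `κ`), and by `const_nil` (in `Bun/CNil.lean`) `P z = m` for all `z` of
type `κ`; so `α i = m` for all `i` (`meet`). So `finrank (A ⊓ A') ≤ 1`, and
`finrank A + finrank A' = finrank (A ⊔ A') + finrank (A ⊓ A') ≤ card ι + 1`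
(`Submodule.finrank_sup_add_finrank_inf_eq`), while twice the left side is at least
`2 card ι + 3`.
-/

set_option autoImplicit false

namespace Pool.Agent.H97.Cyc

open Pool.Agent.H75.Bunchy Pool.Agent.H26.Bunchy Pool.Agent.H97.Bun
open scoped Classical

variable {V K E ι : Type*} {s t : E → K} {σ : V → K} {a : V → E → V}
  {e1 e2 : E} {pr : E → ℝ} {μ : V → ℝ} {L : Set E} {M : ℕ} {T : Set K} {c : V → Option ι}

lemma LW_hyb (hs : s e1 = s e2) (ht : t e1 = t e2) (hL : e1 ∈ L ↔ e2 ∈ L) {κ : K}
    {w w' : List E} (hw : LW s t L M κ w) (h : Hyb e1 e2 w w') : LW s t L M κ w' := by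
  obtain ⟨h1, h2, h3⟩ := hw
  refine ⟨(h.valid hs ht).1.2 h1, ?_, ?_⟩
  · rw [← List.Forall₂.length_eq h, h2]
  · clear h1 h2
    induction w generalizing w' with
    | nil =>
      rw [h.nil_left]
      intro e he
      exact absurd he List.not_mem_nil
    | cons g w ih =>
      rw [hyb_cons] at h
      obtain ⟨f, v', hf, hv', rfl⟩ := h
      intro e he
      rcases List.mem_cons.1 he with rfl | he
      · have hg : g ∈ L := h3 g List.mem_cons_self
        rcases hf with rfl | rfl
        · exact hg
        · by_cases hg1 : g = e1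
          · rw [hg1, Equiv.swap_apply_left]
            rw [hg1] at hg
            exact hL.1 hg
          · by_cases hg2 : g = e2
            · rw [hg2, Equiv.swap_apply_right]
              rw [hg2] at hg
              exact hL.2 hg
            · rw [Equiv.swap_apply_of_ne_of_ne hg1 hg2]
              exact hg
      · exact ih hv' (fun e he => h3 e (List.mem_cons_of_mem _ he)) e he

lemma run_flip_LW (hs : s e1 = s e2) (ht : t e1 = t e2) (hL : e1 ∈ L ↔ e2 ∈ L) (δ : Set V)
    {κ : K} {w : List E} (hw : LW s t L M κ w) (p : V) :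
    (∃ w', LW s t L M κ w' ∧ run (flip e1 e2 δ a) p w = run a p w') ∧
      ∃ w', LW s t L M κ w' ∧ run a p w = run (flip e1 e2 δ a) p w' := by
  constructor
  · obtain ⟨w', hw', hr⟩ := run_flip_hyb (a := a) δ w w (hyb_refl w) p
    exact ⟨w', LW_hyb hs ht hL hw hw', hr⟩
  · obtain ⟨w', hw', hr⟩ := run_flip_hyb (a := flip e1 e2 δ a) δ w w (hyb_refl w) p
    have h1 : flip e1 e2 δ (flip e1 e2 δ a) = a := by
      rw [Pool.Agent.H75.Bunchy.flip_flip, symmDiff_self]
      exact flip_empty
    rw [h1] at hr
    exact ⟨w', LW_hyb hs ht hL hw hw', hr⟩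

theorem cls_flip (hs : s e1 = s e2) (ht : t e1 = t e2) (hL : e1 ∈ L ↔ e2 ∈ L) (δ : Set V)
    (hC : Cls s t σ a L M T c) : Cls s t σ (flip e1 e2 δ a) L M T c where
  start := hC.start
  cont := hC.cont
  step := hC.step
  closed p i hp hi w hw := by
    obtain ⟨w', hw', hr⟩ := (run_flip_LW (a := a) hs ht hL δ hw p).1
    rw [hr]
    exact hC.closed p i hp hi w' hw'
  trans p q i hp hq hpi hqi := by
    obtain ⟨w, hw, hr⟩ := hC.trans p q i hp hq hpi hqi
    obtain ⟨w', hw', hr'⟩ := (run_flip_LW (a := a) hs ht hL δ hw p).2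
    exact ⟨w', hw', by rw [← hr', hr]⟩
  absorb p hp := by
    obtain ⟨w, hw, hr⟩ := hC.absorb p hp
    obtain ⟨w', hw', hr'⟩ := (run_flip_LW (a := a) hs ht hL δ hw p).2
    exact ⟨w', hw', by rw [← hr']; exact hr⟩
  meet := hC.meet

end Pool.Agent.H97.Cyc
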