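import Pool.Agent.H97.Cyc.TotC

/-!
# Two adjacent automata without stable pair, classes: the general case

Part of `MP_644d19_co` (road colouring inside cycles). As in `Bun/Loc.lean` (see `flip_eight`
there): `y = a x e1`, `y' = a x e2`, new types `K' = Quotient (cset s σ a y y')`, new letters
`NewE s σ a y y'` (pairs `(κ, e)` with `s e = σ κ.out`), `s' (κ, e) = κ`, `t' (κ, e) = [a κ.out e]`,
`σ' p = [p]`, `b p (κ, e) = a p e`, `φ (κ, e) = e`. All facts about the new automaton proved inside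
`flip_eight` are needed again (typed, connected, no stable pair, total, stationary weights,
`b' = flip e1' e2' {x} b` acts by valid letters as `a' = flip e1 e2 {x} a`, so has no stable pair);
copy them from there. `σ' p = σ' q` implies `σ p = σ q = k` if one of them has type `k`.

Classes for the new automaton (`T = {k}` for the old one). Fix `i₀ : ι` and put
`T' = {κ | ∃ p, σ p = k ∧ c p = some i₀ ∧ [p] = κ}`, `L' = {f | φ f ∈ L}`,
`S = {i : ι | ∃ q, σ q = k ∧ c q = some i ∧ [q] ∈ T'}` (contains `i₀`), `ι' = ↥S`,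
`c' p = (c p).bind (fun i => if h : i ∈ S then some ⟨i, h⟩ else none)`. For `[p] ∈ T'` and
`c p = some i` we have `i ∈ S`, so `c' p = some ⟨i, _⟩`; so for `[p] ∈ T'`:
`c' p = some i' ↔ c p = some i'.1`, and `c' p = none ↔ c p = none`.
Words: a word `w'` in `LW s' t' L' M κ` gives `w'.map φ` in `LW s t L M k` at every `p` of class `κ`
(`run_map`), and words `w` in `LW s t L M k` lift at `p` (`lift_word`, same length; `w'.map φ = w`).
* `start`, `cont`: the letters of the new automaton at `κ = [p]` correspond to the letters `e` with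
  `s e = σ p` (for `cont`: `t' f = [a κ.out (φ f)]` has type `t (φ f)` by `ha`).
* `step`: `κ = [p]`, `c p = some i₀`, `w'`; `fin t' κ w' = [run b p w'] = [run a p w]` (typed),
  `c (run a p w) = some i₀` by `closed`, its type is `k` by `step`.
* `closed`: from `closed` and `step` (the new type is in `T'`).
* `trans`: `p`, `q` with `[p], [q] ∈ T'`, `c p = c q = some i`; a word `w` of the old automaton; lift it
  at `p`.
* `absorb`: the same.
* `meet`: `κ = [p] ∈ T'` with `c p = some i₀`, `i ∈ S` with `q`, `[q] = [p₁]`, `c p₁ = some i₀`. By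
  `trans` there is `w` with `run a p₁ w = p`. `run a q w` has class `i` (`closed`), and
  `[run a q w] = [run a p₁ w] = κ` (congruence: lift `w` at `q`, `run_map`, both have the new type
  `fin t' [q] w'`).
* `Syn` for `U` (and `U'`, `a'`): `word`: `κ = [p] ∈ T'`, `u` from the old `word` (type `k`); lift at
  `p`: for all `q` with `[q] = κ`: `run b q u' = run a q u = U q`. `keep`: `[p] ∈ T'`, `c' p = some i'`:
  `c (U p) = some i'.1`, so `c' (U p) = some i'` as `i'.1 ∈ S`. `merge`: clear. `ι₀' = {i' | i'.1 ∈ ι₀}`,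
  at most one class is missing.
`card ι' ≤ card ι ≤ 8`. Apply `cyc_total`.
-/

set_option autoImplicit false

namespace Pool.Agent.H97.Cyc

open Pool.Agent.H75.Bunchy Pool.Agent.H26.Bunchy Pool.Agent.H97.Bun
open scoped Classical


section Transfer

variable {V K E K' E' ι : Type*} {s t : E → K} {σ : V → K} {a : V → E → V} {s' t' : E' → K'}
  {σ' : V → K'} {b : V → E' → V} {φ : E' → E} {L : Set E} {M : ℕ} {k : K} {c : V → Option ι}

private lemma lw_lift (ha : Typed s t σ a) (hb : Typed s' t' σ' b)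
    (hact : ∀ p f, s' f = σ' p → s (φ f) = σ p ∧ b p f = a p (φ f))
    (hlift : ∀ p e, s e = σ p → ∃ f, s' f = σ' p ∧ φ f = e) {p : V} {w : List E}
    (hw : LW s t L M (σ p) w) :
    ∃ w', LW s' t' {f | φ f ∈ L} M (σ' p) w' ∧ w'.map φ = w := by
  obtain ⟨h1, h2, h3⟩ := hw
  obtain ⟨w', hw', hm⟩ := lift_word ha hb hact hlift w p h1
  refine ⟨w', ⟨hw', ?_, fun f hf => ?_⟩, hm⟩
  · rw [← h2, ← hm, List.length_map]
  · refine h3 (φ f) ?_
    rw [← hm]
    exact List.mem_map_of_mem hf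

private lemma lw_map (ha : Typed s t σ a) (hb : Typed s' t' σ' b)
    (hact : ∀ p f, s' f = σ' p → s (φ f) = σ p ∧ b p f = a p (φ f)) {p : V} {w' : List E'}
    (hw : LW s' t' {f | φ f ∈ L} M (σ' p) w') :
    LW s t L M (σ p) (w'.map φ) ∧ run b p w' = run a p (w'.map φ) ∧
      fin t' (σ' p) w' = σ' (run a p (w'.map φ)) := by
  obtain ⟨h1, h2, h3⟩ := hw
  obtain ⟨h4, h5⟩ := run_map ha hb hact w' p h1
  refine ⟨⟨h4, ?_, fun e he => ?_⟩, h5, ?_⟩
  · rw [List.length_map, h2]
  · obtain ⟨f, hf, rfl⟩ := List.mem_map.1 he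
    exact h3 f hf
  · rw [← h5]
    exact (hb.run p w' h1).symm

/-- the new types -/
private def TT (σ : V → K) (σ' : V → K') (k : K) (c : V → Option ι) (i₀ : ι) : Set K' :=
  {κ | ∃ p, σ p = k ∧ c p = some i₀ ∧ σ' p = κ}

/-- the classes that meet the new types -/
private def SS (σ : V → K) (σ' : V → K') (k : K) (c : V → Option ι) (i₀ : ι) : Set ι :=
  {i | ∃ q, σ q = k ∧ c q = some i ∧ σ' q ∈ TT σ σ' k c i₀}

/-- the new classes -/
private noncomputable def cc (c : V → Option ι) (S : Set ι) (p : V) : Option S :=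
  (c p).bind fun i => if h : i ∈ S then some ⟨i, h⟩ else none

private lemma cc_eq {c : V → Option ι} {S : Set ι} {p : V} {i : S} :
    cc c S p = some i ↔ c p = some i.1 := by
  unfold cc
  constructor
  · intro h
    cases hc : c p with
    | none => rw [hc] at h; simp at h
    | some j =>
      rw [hc] at h
      simp only [Option.bind_some] at h
      split_ifs at h with hj
      have := Option.some.inj h
      rw [← this]
  · intro h
    rw [h]
    simp only [Option.bind_some]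
    rw [dif_pos i.2]

private lemma tt_type {i₀ : ι} (hfine : ∀ p q, σ' p = σ' q → σ p = σ q) {p : V}
    (hp : σ' p ∈ TT σ σ' k c i₀) : σ p = k := by
  obtain ⟨q, hq, _, hqp⟩ := hp
  rw [← hq]
  exact hfine _ _ hqp.symm

private lemma cls_trans (ha : Typed s t σ a) (hb : Typed s' t' σ' b)
    (hact : ∀ p f, s' f = σ' p → s (φ f) = σ p ∧ b p f = a p (φ f))
    (hlift : ∀ p e, s e = σ p → ∃ f, s' f = σ' p ∧ φ f = e)
    (hfine : ∀ p q, σ' p = σ' q → σ p = σ q) (hsu : ∀ f, ∃ p, s' f = σ' p)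
    (hC : Cls s t σ a L M {k} c) (i₀ : ι) :
    Cls s' t' σ' b {f | φ f ∈ L} M (TT σ σ' k c i₀) (cc c (SS σ σ' k c i₀)) := by
  have hstep : ∀ κ ∈ TT σ σ' k c i₀, ∀ w, LW s' t' {f | φ f ∈ L} M κ w →
      fin t' κ w ∈ TT σ σ' k c i₀ := by
    rintro κ ⟨p, hp, hc, rfl⟩ w hw
    obtain ⟨h1, _, h3⟩ := lw_map ha hb hact hw
    rw [h3]
    refine ⟨_, ?_, hC.closed p i₀ (by rw [hp]; rfl) hc _ h1, rfl⟩
    rw [ha.run p _ h1.1]
    have h4 : fin t k (w.map φ) ∈ ({k} : Set K) := hC.step k rfl _ (by rw [← hp]; exact h1)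
    rw [hp]
    exact h4
  refine ⟨?_, ?_, hstep, ?_, ?_, ?_, ?_⟩
  · rintro κ ⟨p, hp, hc, rfl⟩
    obtain ⟨e, he, hse⟩ := hC.start k rfl
    obtain ⟨f, hf, hφ⟩ := hlift p e (by rw [hse, hp])
    exact ⟨f, by change φ f ∈ L; rw [hφ]; exact he, hf⟩
  · intro f hf
    obtain ⟨p, hp⟩ := hsu f
    obtain ⟨e, he, hse⟩ := hC.cont (φ f) hf
    obtain ⟨h1, h2⟩ := hact p f hp
    have h3 : σ (b p f) = t (φ f) := by rw [h2, ha p _ h1]
    obtain ⟨g, hg, hφ⟩ := hlift (b p f) e (by rw [hse, h3])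
    exact ⟨g, by change φ g ∈ L; rw [hφ]; exact he, by rw [hg, hb p f hp]⟩
  · intro p i hp hi w hw
    obtain ⟨h1, h2, _⟩ := lw_map ha hb hact hw
    rw [cc_eq] at hi ⊢
    rw [h2]
    exact hC.closed p i.1 (tt_type hfine hp) hi _ h1
  · intro p q i hp hq hpi hqi
    rw [cc_eq] at hpi hqi
    obtain ⟨w, hw, hr⟩ := hC.trans p q i.1 (tt_type hfine hp) (tt_type hfine hq) hpi hqi
    obtain ⟨w', hw', rfl⟩ := lw_lift ha hb hact hlift hw
    refine ⟨w', hw', ?_⟩
    rw [(lw_map ha hb hact hw').2.1, hr]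
  · intro p hp
    obtain ⟨w, hw, hne⟩ := hC.absorb p (tt_type hfine hp)
    obtain ⟨w', hw', rfl⟩ := lw_lift ha hb hact hlift hw
    obtain ⟨h1, h2, h3⟩ := lw_map ha hb hact hw'
    refine ⟨w', hw', ?_⟩
    obtain ⟨i, hi⟩ := Option.ne_none_iff_exists'.1 hne
    have h4 := hstep _ hp w' hw'
    rw [h3] at h4
    have hiS : i ∈ SS σ σ' k c i₀ := ⟨_, tt_type hfine h4, hi, h4⟩
    have h5 : cc c (SS σ σ' k c i₀) (run b p w') = some ⟨i, hiS⟩ := by
      rw [cc_eq, h2]
      exact hi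
    rw [h5]
    exact Option.some_ne_none _
  · rintro κ ⟨p, hp, hcp, rfl⟩ ⟨i, q, hq, hcq, p₁, hp₁, hcp₁, hpq⟩
    obtain ⟨w, hw, hr⟩ := hC.trans p₁ p i₀ (by rw [hp₁]; rfl) (by rw [hp]; rfl) hcp₁ hcp
    have hw2 : LW s t L M (σ q) w := by rw [hq, ← hp₁]; exact hw
    obtain ⟨w', hw', rfl⟩ := lw_lift ha hb hact hlift hw2
    obtain ⟨h1, h2, h3⟩ := lw_map ha hb hact hw'
    have hw'' := hw'
    rw [← hpq] at hw''
    obtain ⟨g1, g2, g3⟩ := lw_map ha hb hact hw''
    refine ⟨run a q (w'.map φ), ?_, ?_⟩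
    · rw [← h3, ← hpq, g3, hr]
    · rw [cc_eq]
      exact hC.closed q i (by rw [hq]; rfl) hcq _ h1

private lemma syn_trans (ha : Typed s t σ a) (hb : Typed s' t' σ' b)
    (hact : ∀ p f, s' f = σ' p → s (φ f) = σ p ∧ b p f = a p (φ f))
    (hlift : ∀ p e, s e = σ p → ∃ f, s' f = σ' p ∧ φ f = e)
    (hfine : ∀ p q, σ' p = σ' q → σ p = σ q) {ι₀ : Set ι} {U : V → V}
    (hU : Syn s t σ a {k} c ι₀ U) (i₀ : ι) :
    Syn s' t' σ' b (TT σ σ' k c i₀) (cc c (SS σ σ' k c i₀)) {i | i.1 ∈ ι₀} U := by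
  refine ⟨?_, ?_, ?_⟩
  · rintro κ ⟨p, hp, hc, rfl⟩
    obtain ⟨u, hu, hrun⟩ := hU.word k rfl
    obtain ⟨u', hu', rfl⟩ := lift_word ha hb hact hlift u p (by rw [hp]; exact hu)
    refine ⟨u', hu', fun q hq => ?_⟩
    rw [(run_map ha hb hact u' q (by rw [hq]; exact hu')).2]
    exact hrun q (by rw [hfine q p hq, hp])
  · intro p i hp hi
    rw [cc_eq] at hi ⊢
    exact hU.keep p i.1 (tt_type hfine hp) hi
  · intro p q i hp hq hpi hqi hi
    rw [cc_eq] at hpi hqi
    exact hU.merge p q i.1 (tt_type hfine hp) (tt_type hfine hq) hpi hqi hi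

end Transfer

variable {V K E ι : Type*} [Finite V] [Finite E] {s t : E → K} {σ : V → K} {a : V → E → V}
  {e1 e2 : E} {L : Set E} {M : ℕ} {c : V → Option ι}

/-- **Two adjacent colourings.** If there are at most eight classes, all merged by a word of `a`, and
all but one of them merged by a word of `a'`, then `a` and `a'` cannot both be without stable
pair. -/
theorem cyc_eight [Finite ι] [Nonempty ι] (hs : s e1 = s e2) (ht : t e1 = t e2)
    (ha : Typed s t σ a) (hcn : Conn s σ a) {x : V} (hx : s e1 = σ x) (hne : a x e1 ≠ a x e2)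
    (hL : e1 ∈ L ↔ e2 ∈ L) {k : K} (hC : Cls s t σ a L M {k} c) (h8 : Nat.card ι ≤ 8)
    {U U' : V → V} (hU : Syn s t σ a {k} c Set.univ U) {ι₀ : Set ι}
    (hU' : Syn s t σ (flip e1 e2 {x} a) {k} c ι₀ U') (hι₀ : ∀ i j, i ∉ ι₀ → j ∉ ι₀ → i = j)
    (hno : NoStable s t σ a) : ¬ NoStable s t σ (flip e1 e2 {x} a) := by
  have hV : Fintype V := Fintype.ofFinite V
  have hx2 : s e2 = σ x := by rw [← hs]; exact hx
  set y := a x e1 with hy
  set y' := a x e2 with hy'
  have hyy : σ y = σ y' := by rw [hy, hy', ha x e1 hx, ha x e2 hx2, ht]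
  -- new types and letters
  let S : Setoid V := cset s σ a y y'
  let σ' : V → Quotient S := fun p => Quotient.mk S p
  let s' : NewE s σ a y y' → Quotient S := fun f => f.1.1
  let t' : NewE s σ a y y' → Quotient S := fun f => Quotient.mk S (a (Quotient.out f.1.1) f.1.2)
  let φ : NewE s σ a y y' → E := fun f => f.1.2
  let b : V → NewE s σ a y y' → V := fun p f => a p f.1.2
  have hfin : Finite (NewE s σ a y y') := by
    unfold NewE
    infer_instance
  have hE : Fintype (NewE s σ a y y') := Fintype.ofFinite _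
  have hout : ∀ p, Cgr s σ a y y' (Quotient.out (σ' p)) p := fun p => Quotient.mk_out (s := S) p
  have hout' : ∀ p, Cgr s σ a y y' p (Quotient.out (σ' p)) := fun p =>
    (cgr_equiv s σ a y y').symm (hout p)
  have hfine : ∀ p q, σ' p = σ' q → σ p = σ q := fun p q h =>
    cgr_type ha hyy (Quotient.exact h : Cgr s σ a y y' p q)
  have hact : ∀ p f, s' f = σ' p → s (φ f) = σ p ∧ b p f = a p (φ f) := by
    intro p f hf
    refine ⟨?_, rfl⟩
    have h1 : s (φ f) = σ (Quotient.out (s' f)) := f.2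
    rw [h1, hf]
    exact cgr_type ha hyy (hout p)
  have hlift : ∀ p e, s e = σ p → ∃ f, s' f = σ' p ∧ φ f = e := by
    intro p e he
    refine ⟨⟨(σ' p, e), ?_⟩, rfl, rfl⟩
    rw [he]
    exact cgr_type ha hyy (hout' p)
  have hb : Typed s' t' σ' b := by
    intro p f hf
    have h1 : s (φ f) = σ p := (hact p f hf).1
    have h2 : Cgr s σ a y y' (a p (φ f)) (a (Quotient.out (s' f)) (φ f)) := by
      rw [hf]
      exact cgr_letter (hout' p) h1
    exact Quotient.sound (s := S) h2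
  have hxe1 : s e1 = σ (Quotient.out (σ' x)) := by
    rw [hx]; exact cgr_type ha hyy (hout' x)
  have hxe2 : s e2 = σ (Quotient.out (σ' x)) := by
    rw [hx2]; exact cgr_type ha hyy (hout' x)
  let e1' : NewE s σ a y y' := ⟨(σ' x, e1), hxe1⟩
  let e2' : NewE s σ a y y' := ⟨(σ' x, e2), hxe2⟩
  have hs' : s' e1' = s' e2' := rfl
  have ht' : t' e1' = t' e2' := by
    rw [← hb x e1' rfl, ← hb x e2' rfl]
    exact Quotient.sound (s := S) (cgr_mem : Cgr s σ a y y' y y')
  -- the exchanged letters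
  have hsw : ∀ f, s' f = σ' x → φ (Equiv.swap e1' e2' f) = Equiv.swap e1 e2 (φ f) := by
    intro f hf
    by_cases h1 : f = e1'
    · rw [h1, Equiv.swap_apply_left]
      change e2 = Equiv.swap e1 e2 e1
      rw [Equiv.swap_apply_left]
    · by_cases h2 : f = e2'
      · rw [h2, Equiv.swap_apply_right]
        change e1 = Equiv.swap e1 e2 e2
        rw [Equiv.swap_apply_right]
      · rw [Equiv.swap_apply_of_ne_of_ne h1 h2, Equiv.swap_apply_of_ne_of_ne]
        · intro h3
          exact h1 (Subtype.ext (Prod.ext hf h3))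
        · intro h3
          exact h2 (Subtype.ext (Prod.ext hf h3))
  have hsw' : ∀ f, φ (Equiv.swap e1' e2' f) = φ f ∨
      φ (Equiv.swap e1' e2' f) = Equiv.swap e1 e2 (φ f) := by
    intro f
    by_cases hf : s' f = σ' x
    · exact Or.inr (hsw f hf)
    · left
      rw [Equiv.swap_apply_of_ne_of_ne]
      · rintro rfl; exact hf rfl
      · rintro rfl; exact hf rfl
  have hact2 : ∀ p f, s' f = σ' p → s (φ f) = σ p ∧
      flip e1' e2' {x} b p f = flip e1 e2 {x} a p (φ f) := by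
    intro p f hf
    refine ⟨(hact p f hf).1, ?_⟩
    by_cases hp : p = x
    · subst hp
      rw [flip_of_mem (Set.mem_singleton p), flip_of_mem (Set.mem_singleton p)]
      change a p (φ (Equiv.swap e1' e2' f)) = _
      rw [hsw f hf]
    · have hp' : p ∉ ({x} : Set V) := by simpa using hp
      rw [flip_of_notMem hp', flip_of_notMem hp']
  have hcn' : Conn s' σ' b := conn_trans hact hlift hcn
  have hno' : NoStable s' t' σ' b := noStable_trans ha hb hact hlift hfine hno
  have hne' : b x e1' ≠ b x e2' := hne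
  have hT : Total s' σ' b (b x e1') (b x e2') := by
    intro R hR h1 h2 h3 p q hpq
    have hc : Cgr s σ a y y' p q := Quotient.exact hpq
    refine hc R hR (fun p q h => hfine p q (h1 p q h)) (fun p q e h he => ?_) h3
    obtain ⟨f, hf1, hf2⟩ := hlift p e he
    have h4 := h2 p q f h hf1
    rw [← hf2]
    exact h4
  -- stationary weights
  obtain ⟨pr, hpr0, hpr1, hpr2⟩ := exists_pr s'
  have hne0 : Nonempty V := ⟨x⟩
  obtain ⟨μ, hμ⟩ := exists_stat hb hcn' hpr0 (fun p => by
    refine hpr2 (σ' p) ?_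
    exact exists_letter hcn' hne' p)
  -- the classes
  obtain ⟨i₀⟩ := (inferInstance : Nonempty ι)
  have hft : Typed s t σ (flip e1 e2 {x} a) := Typed.flip hs ht ha {x}
  have hft' : Typed s' t' σ' (flip e1' e2' {x} b) := Typed.flip hs' ht' hb {x}
  have hsu : ∀ f : NewE s σ a y y', ∃ p, s' f = σ' p :=
    fun f => ⟨Quotient.out (s' f), (Quotient.out_eq (s' f)).symm⟩
  have hC' := cls_trans ha hb hact hlift hfine hsu hC i₀
  have hS1 := syn_trans ha hb hact hlift hfine hU i₀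
  have hS2 := syn_trans hft hft' hact2 hlift hfine hU' i₀
  have hS1' : Syn s' t' σ' b (TT σ σ' k c i₀) (cc c (SS σ σ' k c i₀)) Set.univ U := by
    refine ⟨hS1.word, hS1.keep, fun p q i hp hq hpi hqi _ => ?_⟩
    exact hS1.merge p q i hp hq hpi hqi (Set.mem_univ _)
  obtain ⟨p₀, hp₀, hcp₀⟩ := hC.meet k rfl i₀
  have hTne : (TT σ σ' k c i₀).Nonempty := ⟨σ' p₀, p₀, hp₀, hcp₀, rfl⟩
  have hi₀ : i₀ ∈ SS σ σ' k c i₀ := ⟨p₀, hp₀, hcp₀, p₀, hp₀, hcp₀, rfl⟩
  have hne1 : Nonempty (SS σ σ' k c i₀) := ⟨⟨i₀, hi₀⟩⟩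
  have hfin1 : Fintype (SS σ σ' k c i₀) := Fintype.ofFinite _
  have hcard : Fintype.card (SS σ σ' k c i₀) ≤ 8 := by
    rw [← Nat.card_eq_fintype_card]
    exact (Nat.card_le_card_of_injective _ Subtype.val_injective).trans h8
  have hL' : e1' ∈ {f : NewE s σ a y y' | φ f ∈ L} ↔ e2' ∈ {f : NewE s σ a y y' | φ f ∈ L} := hL
  intro h2
  exact cyc_total hs' ht' hb hcn' hμ (hpr1 _ _ hs') hsu rfl hne' hT hL' hC' hTne hcard hS1' hS2
    (fun i j hi hj => Subtype.ext (hι₀ i.1 j.1 hi hj)) hno'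
    (noStable_trans hft hft' hact2 hlift hfine h2)

end Pool.Agent.H97.Cyc
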