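import Pool.Agent.H97.Cyc.FinA
import Pool.Agent.H97.Cyc.LocC

/-!
# The step: a recolouring with a stable pair from a cycle with at most eight classes

Part of `MP_644d19_co` (road colouring inside cycles). `p₀` has two followers `Φ.act p₀ g`,
`Φ.act p₀ g'` (parallel letters `g`, `g'`). `K ∈ D.Cv`, `ℓ > 0` with `D.nx^[ℓ] K = K`; every vertex over
`K` reaches a vertex of `Z`, `Z.ncard ≤ 8`, by exactly `n * ℓ` steps.

`card_ci`: `card_le` for `rr` (with `Z' = {z : Xv v K | z.1 ∈ Z}`; the `z` reached by `n * ℓ` steps is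
over `K`): at most eight classes. `ci_nonempty`: `v` is surjective (`Φ.v_surj`), `exists_rc`.

`step_off` (`g ∉ D.L`, so no letter parallel to `g` is in `D.L`): `exists_idem` for `rr`;
`exists_merge` gives `Φ'`; `cls_of` for `Φ'`; `exists_absorb`, `exists_syn`, `card_ends`: the word
`u₀ ++ u` has at most `card Ci ≤ 8` end vertices from the vertices over `K`, and its letters are in
`D.L`; `step_of_ends` (in `Bun/Main8.lean`) with `hyb_avoid`.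

`run_avoid`: if no proper prefix of `u` leads from `p` to `x`, then `flip e1 e2 {x} a` and `a` agree
along `u` from `p` (induction on `u`).

`step_on` (`H.src g = K`, `g ∈ D.L` or not; `ℓ` is the least period: `hmin`): `Φ'`, `u` as before
(`exists_merge`, `exists_syn`), `e1`, `e2` from `exists_pair`. If `Φ'` has a stable pair: done. Otherwise
let `a = Φ'.act`, `a' = flip e1 e2 {p₀} a`; if `e1 ∉ D.L` use `step_off`. So `e1, e2 ∈ D.L`. By
`cyc_eight` it is enough to check `Syn` for `a` with `U p = run a p u` (`word`: `u`; `keep`: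
`closed_mul`; `merge`: `exists_syn`) and for `a'` with `U' p = run a' p u` and
`ι₀ = {i | cl p₀ ≠ some i}` (at most one class is missing): `word`, `keep` (`closed_mul` for `a'`,
`cls_flip`), `merge`: for `p` of class `i ∈ ι₀` we have `run a' p u = run a p u` by `run_avoid`: if
`run a p u₁ = p₀` for a prefix `u₁` of `u` (`LW` of length `u₁.length`), then
`D.nx^[u₁.length] K = K` (`fin_LW`, the type of `p₀` is `K`), so `u₁.length = j * ℓ` (`hmin`) and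
`rn rr j p p₀` (`steps_iff_LW`, `rn_rr`). `p` is recurrent, so `p₀` is (`rc_rn`). The hypothesis `hap`
applies: let `Steps (m * ℓ) p₀ t`; then `t` is over `K`, choose `t'` with `rn rr m' t t'`,
`m + m' = (m + 1) * n₀`; `rn rr n₀ p₀ t'`, so `rn rr n₀ t' p₀`; so `t` reaches `p₀` by
`(m' + n₀) * ℓ` steps. So `Steps (m * ℓ) p₀ p₀` and `Steps ((m + 1) * ℓ) p₀ p₀` for some `m`, and
`rc_aper` gives `rn rr n₀ p p₀`, so `cl p₀ = cl p = some i` (`cl_of_rn`), a contradiction.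
At the end: `¬ NoStable a'`, and `exists_flip` gives the recolouring (compare `step_of_ends`).
-/

set_option autoImplicit false

namespace Pool.Agent.H97.Cyc

open Pool.Agent.H75.Bunchy Pool.Agent.H26.Bunchy Pool.Agent.H97.Bun
open scoped Classical

variable {G H : Graph} {D : CycData H} {K : H.V} {ℓ n₀ : ℕ}

private lemma iter_mul' (hℓ : D.nx^[ℓ] K = K) (n : ℕ) : D.nx^[n * ℓ] K = K := by
  rw [Nat.mul_comm, Function.iterate_mul]
  exact Function.iterate_fixed hℓ n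

/-- a recurrent vertex over `K` from which `p₀` is reached lies in the class of `p₀` -/
private lemma cl_reach (Φ : RightResolver G H) {p₀ p : G.V} (hK : K ∈ D.Cv)
    (hℓ : D.nx^[ℓ] K = K) (hmin : ∀ N, D.nx^[N] K = K → ℓ ∣ N) (hi : Idem Φ.v D K ℓ n₀)
    (hp0 : Φ.v p₀ = K) (hp : Φ.v p = K)
    (hap : (∀ m t, Steps Φ.v D (m * ℓ) p₀ t → ∃ m', Steps Φ.v D (m' * ℓ) t p₀) →
      ∃ m, Steps Φ.v D (m * ℓ) p₀ p₀ ∧ Steps Φ.v D ((m + 1) * ℓ) p₀ p₀) {N : ℕ}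
    (hN : Steps Φ.v D N p p₀) {i : Ci Φ.v D K ℓ n₀} (hci : cl Φ.v D K ℓ n₀ p = some i) :
    cl Φ.v D K ℓ n₀ p₀ = some i := by
  have hser : ∀ x : Xv Φ.v K, ∃ y, rr Φ.v D K ℓ x y := rr_serial Φ rfl hK hℓ
  have hpC : Φ.v p ∈ D.Cv := by rw [hp]; exact hK
  have hp0C : Φ.v p₀ ∈ D.Cv := by rw [hp0]; exact hK
  obtain ⟨j, hj⟩ := hmin N (by
    have := (steps_typ hpC hN).1
    rw [hp0, hp] at this
    exact this.symm)
  have h1 : rn (rr Φ.v D K ℓ) j ⟨p, hp⟩ ⟨p₀, hp0⟩ := by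
    rw [rn_rr hK hℓ, Nat.mul_comm, ← hj]
    exact hN
  obtain ⟨_, hrc, _⟩ := cl_some hci
  have hrc0 : Rc (rr Φ.v D K ℓ) n₀ ⟨p₀, hp0⟩ := rc_rn hser hi.1 hi.2 hrc h1
  obtain ⟨m, hm1, hm2⟩ := hap (by
    intro m t hmt
    have ht : Φ.v t = K := by
      rw [(steps_typ hp0C hmt).1, hp0, iter_mul' hℓ]
    have h2 : rn (rr Φ.v D K ℓ) m ⟨p₀, hp0⟩ ⟨t, ht⟩ := (rn_rr hK hℓ _ _ _).2 hmt
    have h3 : m ≤ (m + 1) * n₀ :=
      le_trans (Nat.le_succ m) (Nat.le_mul_of_pos_right _ hi.1)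
    obtain ⟨m', hm'⟩ := Nat.exists_eq_add_of_le h3
    obtain ⟨t', ht'⟩ := rn_serial hser m' ⟨t, ht⟩
    have h4 : rn (rr Φ.v D K ℓ) ((m + 1) * n₀) ⟨p₀, hp0⟩ t' := by
      rw [hm', rn_add]
      exact ⟨_, h2, ht'⟩
    rw [hi.2 (m + 1) (Nat.succ_pos m)] at h4
    have h5 : rn (rr Φ.v D K ℓ) (m' + n₀) ⟨t, ht⟩ ⟨p₀, hp0⟩ := by
      rw [rn_add]
      exact ⟨t', ht', hrc0 _ h4⟩
    exact ⟨m' + n₀, (rn_rr hK hℓ _ _ _).1 h5⟩)
  have h6 : rn (rr Φ.v D K ℓ) n₀ ⟨p, hp⟩ ⟨p₀, hp0⟩ :=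
    rc_aper hi.1 hi.2 h1 ((rn_rr hK hℓ m ⟨p₀, hp0⟩ ⟨p₀, hp0⟩).2 hm1)
      ((rn_rr hK hℓ (m + 1) ⟨p₀, hp0⟩ ⟨p₀, hp0⟩).2 hm2)
  exact cl_of_rn hi (p := ⟨p, hp⟩) (q := ⟨p₀, hp0⟩) hci h6

theorem step_on (Φ : RightResolver G H) (hG : G.StronglyConnected) {p₀ : G.V} {g g' : H.E}
    (hsg : H.src g = Φ.v p₀) (hsg' : H.src g' = H.src g) (htg' : H.tgt g' = H.tgt g)
    (hne : Φ.act p₀ g ≠ Φ.act p₀ g') (hK : K ∈ D.Cv) (hℓ0 : 0 < ℓ) (hℓ : D.nx^[ℓ] K = K)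
    (hmin : ∀ N, D.nx^[N] K = K → ℓ ∣ N) {Z : Set G.V} (hZ : Z.ncard ≤ 8) {n : ℕ}
    (hr : ∀ q, Φ.v q = K → ∃ z ∈ Z, Steps Φ.v D (n * ℓ) q z) (hgK : H.src g = K)
    (hap : (∀ m t, Steps Φ.v D (m * ℓ) p₀ t → ∃ m', Steps Φ.v D (m' * ℓ) t p₀) →
      ∃ m, Steps Φ.v D (m * ℓ) p₀ p₀ ∧ Steps Φ.v D ((m + 1) * ℓ) p₀ p₀) :
    ∃ Φ' : RightResolver G H, Φ'.v = Φ.v ∧ ¬ NoStable H.src H.tgt Φ'.v Φ'.act := by
  by_cases hg : g ∈ D.L
  swap
  · exact step_off Φ hG hsg hsg' htg' hne hK hℓ0 hℓ hZ hr hg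
  have hp0 : Φ.v p₀ = K := by rw [← hsg, hgK]
  obtain ⟨n₀, h0, hi'⟩ := exists_idem (rr Φ.v D K ℓ)
  have hi : Idem Φ.v D K ℓ n₀ := ⟨h0, hi'⟩
  obtain ⟨Φ', hv, hm⟩ := exists_merge Φ hK hℓ0 hℓ hi
  have hC := cls_of Φ' hv hK hℓ hi
  have hcard : Nat.card (Ci Φ.v D K ℓ n₀) ≤ 8 := card_ci Φ hK hℓ hi hZ hr
  have hnon : Nonempty (Ci Φ.v D K ℓ n₀) := ci_nonempty Φ hK hℓ hi
  have hfin : Finite (Ci Φ.v D K ℓ n₀) := inferInstance
  have hty : Typed H.src H.tgt Φ.v Φ'.act := by rw [← hv]; exact Φ'.act_typed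
  have hcn : Conn H.src Φ.v Φ'.act := by rw [← hv]; exact Φ'.conn hG
  obtain ⟨u, n1, hu, hu'⟩ := exists_syn hty hC (Nat.mul_pos h0 hℓ0) hm
  obtain ⟨e1, e2, a1, b1, a2, b2, hne'⟩ := exists_pair Φ Φ' hv hsg hsg' htg' hne
  by_cases hno : NoStable H.src H.tgt Φ.v Φ'.act
  swap
  · exact ⟨Φ', hv, by rw [hv]; exact hno⟩
  have he1 : e1 ∈ D.L := ⟨by rw [a1]; exact hg.1, by rw [b1, a1]; exact hg.2⟩
  have he2 : e2 ∈ D.L := ⟨by rw [a2]; exact hg.1, by rw [b2, a2]; exact hg.2⟩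
  have hs : H.src e1 = H.src e2 := by rw [a1, a2]
  have ht : H.tgt e1 = H.tgt e2 := by rw [b1, b2]
  have hL : e1 ∈ D.L ↔ e2 ∈ D.L := ⟨fun _ => he2, fun _ => he1⟩
  have hty' : Typed H.src H.tgt Φ.v (flip e1 e2 {p₀} Φ'.act) := Typed.flip hs ht hty {p₀}
  have hC' := cls_flip hs ht hL {p₀} hC
  -- the word `u` does not pass through `p₀` from the other classes
  have hav : ∀ p i, Φ.v p = K → cl Φ.v D K ℓ n₀ p = some i → cl Φ.v D K ℓ n₀ p₀ ≠ some i →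
      run (flip e1 e2 {p₀} Φ'.act) p u = run Φ'.act p u := by
    intro p i hp hci hne0
    refine run_avoid u p fun u₁ u₂ hu12 _ hrun => hne0 ?_
    have hpC : Φ.v p ∈ D.Cv := by rw [hp]; exact hK
    have h1 : LW H.src H.tgt D.L u₁.length (Φ.v p) u₁ := by
      rw [hp]
      obtain ⟨h2, _, h3⟩ := hu
      rw [hu12, valid_append] at h2
      exact ⟨h2.1, rfl, fun e he => h3 e (by rw [hu12]; exact List.mem_append_left _ he)⟩
    have h2 : Steps Φ.v D u₁.length p p₀ := (steps_iff_LW Φ' hv _ hpC).2 ⟨u₁, h1, hrun⟩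
    exact cl_reach Φ hK hℓ hmin hi hp0 hp hap h2 hci
  have hU : Syn H.src H.tgt Φ.v Φ'.act {K} (cl Φ.v D K ℓ n₀) Set.univ
      (fun p => run Φ'.act p u) := by
    refine ⟨?_, ?_, ?_⟩
    · rintro κ hκ
      rw [Set.mem_singleton_iff] at hκ
      subst hκ
      exact ⟨u, hu.1, fun _ _ => rfl⟩
    · intro p i hp hci
      exact (closed_mul hty hC n1 hu hp).2 i hci
    · intro p q i hp hq hpi hqi _
      exact hu' p q i hp hq hpi hqi
  have hU' : Syn H.src H.tgt Φ.v (flip e1 e2 {p₀} Φ'.act) {K} (cl Φ.v D K ℓ n₀)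
      {i | cl Φ.v D K ℓ n₀ p₀ ≠ some i} (fun p => run (flip e1 e2 {p₀} Φ'.act) p u) := by
    refine ⟨?_, ?_, ?_⟩
    · rintro κ hκ
      rw [Set.mem_singleton_iff] at hκ
      subst hκ
      exact ⟨u, hu.1, fun _ _ => rfl⟩
    · intro p i hp hci
      exact (closed_mul hty' hC' n1 hu hp).2 i hci
    · intro p q i hp hq hpi hqi hi0
      rw [hav p i hp hpi hi0, hav q i hq hqi hi0]
      exact hu' p q i hp hq hpi hqi
  have h := cyc_eight hs ht hty hcn (x := p₀) (by rw [a1, hsg]) hne' hL hC hcard hU hU'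
    (fun i j hi0 hj0 => by
      have h1 : cl Φ.v D K ℓ n₀ p₀ = some i := by
        by_contra h2
        exact hi0 h2
      have h3 : cl Φ.v D K ℓ n₀ p₀ = some j := by
        by_contra h2
        exact hj0 h2
      rw [h1] at h3
      exact Option.some.inj h3) hno
  obtain ⟨Φ'', hv'', hact⟩ := Φ'.exists_flip (e1 := e1) (e2 := e2) hs ht {p₀}
  exact ⟨Φ'', by rw [hv'', hv], by rw [hv'', hact, hv]; exact h⟩

end Pool.Agent.H97.Cyc
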