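import Pool.Agent.H97.Cyc.Op

/-!
# One word that merges all classes

Part of `MP_644d19_co` (road colouring inside cycles). `Cls s t σ a L M {k} c`, `0 < M`.

`closed_mul`: a word of length `n * M` from `k` with letters in `L` leads from type `k` to type `k` and
preserves the classes: induction on `n`, split off the first `M` letters (`List.take`, `List.drop`,
`valid_append`, `run_append`).
`extend`: every valid word from `k` with letters in `L` can be extended to one whose length is
`n * M` (`exists_LW` from the type reached; if the word is empty take `n = 0`; otherwise its last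
letter is in `L` and `cont` gives a letter).
`exists_syn`: over finite sets of classes: for `insert j F` let `u` be the word for `F`,
`p'` the state `run a p_j u` for some `p_j` of class `j` (`meet`), of class `j` (`closed_mul`); the
hypothesis `hm` for `p'` gives `w`, extend it; `u ++ w` merges the classes in `F` and `j`. (There are
finitely many classes, as `meet` gives an injection from `ι` to `V`.)
`exists_absorb`: over finite sets of states: for `insert p F` let `u` be the word for `F`, `w` from
`absorb` for `run a p u`; the states of `F` stay in their classes.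
`card_ends`: with `u₀` of `exists_absorb` and `u` of `exists_syn`: the map
`i ↦ run a (state of class i) u` is onto `{run a p (u₀ ++ u) | σ p = k}`.
-/

set_option autoImplicit false

namespace Pool.Agent.H97.Cyc

open Pool.Agent.H75.Bunchy Pool.Agent.H26.Bunchy Pool.Agent.H97.Bun
open scoped Classical

variable {V K E ι : Type*} [Finite V] {s t : E → K} {σ : V → K} {a : V → E → V}
  {L : Set E} {M : ℕ} {k : K} {c : V → Option ι}

omit [Finite V] in
private lemma mg_fin (hC : Cls s t σ a L M {k} c) {w : List E} (hw : LW s t L M k w) :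
    fin t k w = k := hC.step k rfl w hw

omit [Finite V] in
private lemma mg_split {n : ℕ} {u : List E} (hu : LW s t L ((n + 1) * M) k u) :
    ∃ v w, u = v ++ w ∧ LW s t L M k v ∧ Valid s t (fin t k v) w ∧ w.length = n * M ∧
      ∀ e ∈ w, e ∈ L := by
  obtain ⟨h1, h2, h3⟩ := hu
  have h4 : M ≤ u.length := by
    rw [h2, Nat.succ_mul]
    exact Nat.le_add_left _ _
  have h5 : Valid s t k (u.take M ++ u.drop M) := by
    rw [List.take_append_drop]
    exact h1
  rw [valid_append] at h5
  refine ⟨u.take M, u.drop M, (List.take_append_drop M u).symm, ⟨h5.1, ?_, ?_⟩, h5.2, ?_, ?_⟩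
  · rw [List.length_take]
    exact Nat.min_eq_left h4
  · intro e he
    exact h3 e (List.mem_of_mem_take he)
  · rw [List.length_drop, h2, Nat.succ_mul, Nat.add_sub_cancel]
  · intro e he
    exact h3 e (List.mem_of_mem_drop he)

omit [Finite V] in
lemma closed_mul (ha : Typed s t σ a) (hC : Cls s t σ a L M {k} c) (n : ℕ) {u : List E}
    (hu : LW s t L (n * M) k u) {p : V} (hp : σ p = k) : σ (run a p u) = k ∧
      ∀ i, c p = some i → c (run a p u) = some i := by
  induction n generalizing u p with
  | zero =>
    have h1 : u = [] := by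
      have := hu.2.1
      rw [Nat.zero_mul] at this
      exact List.eq_nil_of_length_eq_zero this
    subst h1
    exact ⟨hp, fun i hi => hi⟩
  | succ n ih =>
    obtain ⟨v, w, rfl, hv, hw1, hw2, hw3⟩ := mg_split hu
    have h1 : fin t k v = k := mg_fin hC hv
    rw [h1] at hw1
    have h2 : σ (run a p v) = k := by
      rw [ha.run p v (by rw [hp]; exact hv.1), hp]
      exact h1
    obtain ⟨h3, h4⟩ := ih ⟨hw1, hw2, hw3⟩ h2
    rw [run_append]
    refine ⟨h3, fun i hi => h4 i ?_⟩
    exact hC.closed p i hp hi v (by rw [hp]; exact hv)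

omit [Finite V] in
private lemma mg_last (w : List E) (hw : w ≠ []) (κ : K) : ∃ e ∈ w, fin t κ w = t e := by
  induction w generalizing κ with
  | nil => exact absurd rfl hw
  | cons e w ih =>
    by_cases h : w = []
    · subst h
      exact ⟨e, List.mem_cons_self, rfl⟩
    · obtain ⟨f, hf, h1⟩ := ih h (t e)
      exact ⟨f, List.mem_cons_of_mem _ hf, h1⟩

omit [Finite V] in
lemma extend (hC : Cls s t σ a L M {k} c) (hM : 0 < M) {w : List E} (hw : Valid s t k w)
    (hL : ∀ e ∈ w, e ∈ L) : ∃ w' n, LW s t L (n * M) k (w ++ w') := by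
  by_cases h0 : w = []
  · subst h0
    refine ⟨[], 0, trivial, ?_, fun e he => absurd he List.not_mem_nil⟩
    simp
  · obtain ⟨e, he, h1⟩ := mg_last (t := t) w h0 k
    have h2 : ∃ f ∈ L, s f = fin t k w := by
      rw [h1]
      exact hC.cont e (hL e he)
    obtain ⟨w', h3, h4, h5⟩ := exists_LW hC.cont (w.length * M - w.length) (fin t k w) h2
    refine ⟨w', w.length, ?_, ?_, ?_⟩
    · rw [valid_append]
      exact ⟨hw, h3⟩
    · rw [List.length_append, h4]
      have : w.length ≤ w.length * M := Nat.le_mul_of_pos_right _ hM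
      omega
    · intro f hf
      rcases List.mem_append.1 hf with hf | hf
      · exact hL f hf
      · exact h5 f hf

omit [Finite V] in
private lemma mg_append {n n' : ℕ} {u v : List E} (hu : LW s t L (n * M) k u)
    (hk : fin t k u = k) (hv : LW s t L (n' * M) k v) : LW s t L ((n + n') * M) k (u ++ v) := by
  refine ⟨?_, ?_, ?_⟩
  · rw [valid_append, hk]
    exact ⟨hu.1, hv.1⟩
  · rw [List.length_append, hu.2.1, hv.2.1, Nat.add_mul]
  · intro f hf
    rcases List.mem_append.1 hf with hf | hf
    · exact hu.2.2 f hf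
    · exact hv.2.2 f hf

omit [Finite V] in
private lemma mg_finmul (ha : Typed s t σ a) (hC : Cls s t σ a L M {k} c) {n : ℕ} {u : List E}
    (hu : LW s t L (n * M) k u) {p : V} (hp : σ p = k) : fin t k u = k := by
  have h1 := (closed_mul ha hC n hu hp).1
  rw [ha.run p u (by rw [hp]; exact hu.1), hp] at h1
  exact h1

private lemma mg_finite (hC : Cls s t σ a L M {k} c) : Finite ι := by
  choose f hf using fun i => hC.meet k rfl i
  refine Finite.of_injective f fun i j hij => ?_
  have h1 := (hf i).2
  rw [hij, (hf j).2] at h1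
  exact (Option.some.inj h1).symm

theorem exists_syn (ha : Typed s t σ a) (hC : Cls s t σ a L M {k} c) (hM : 0 < M)
    (hm : ∀ p, σ p = k → ∀ i, c p = some i → ∃ w, Valid s t k w ∧ (∀ e ∈ w, e ∈ L) ∧
      ∀ q, σ q = k → c q = some i → run a q w = run a p w) :
    ∃ u n, LW s t L (n * M) k u ∧ ∀ p q i, σ p = k → σ q = k → c p = some i → c q = some i →
      run a p u = run a q u := by
  have hfin : Finite ι := mg_finite hC
  have key : ∀ F : Finset ι, ∃ u n, LW s t L (n * M) k u ∧ ∀ p q i, i ∈ F → σ p = k → σ q = k →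
      c p = some i → c q = some i → run a p u = run a q u := by
    intro F
    induction F using Finset.induction_on with
    | empty =>
      refine ⟨[], 0, ⟨trivial, by simp, fun e he => absurd he List.not_mem_nil⟩, ?_⟩
      intro p q i hi
      exact absurd hi (Finset.notMem_empty i)
    | insert j F _ ih =>
      obtain ⟨u, n, hu, h1⟩ := ih
      obtain ⟨p₀, hp₀, hc₀⟩ := hC.meet k rfl j
      obtain ⟨h2, h3⟩ := closed_mul ha hC n hu hp₀
      obtain ⟨w, hw1, hw2, hw3⟩ := hm (run a p₀ u) h2 j (h3 j hc₀)
      obtain ⟨w', n', hw'⟩ := extend hC hM hw1 hw2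
      refine ⟨u ++ (w ++ w'), n + n', mg_append hu (mg_finmul ha hC hu hp₀) hw', ?_⟩
      intro p q i hi hp hq hcp hcq
      rw [run_append, run_append]
      rcases Finset.mem_insert.1 hi with rfl | hi
      · obtain ⟨k1, k2⟩ := closed_mul ha hC n hu hp
        obtain ⟨l1, l2⟩ := closed_mul ha hC n hu hq
        rw [run_append, run_append, hw3 _ k1 (k2 _ hcp), hw3 _ l1 (l2 _ hcq)]
      · rw [run_append, run_append, h1 p q i hi hp hq hcp hcq]
  have := Fintype.ofFinite ι
  obtain ⟨u, n, h1, h2⟩ := key Finset.univ
  exact ⟨u, n, h1, fun p q i hp hq hcp hcq => h2 p q i (Finset.mem_univ i) hp hq hcp hcq⟩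

theorem exists_absorb (ha : Typed s t σ a) (hC : Cls s t σ a L M {k} c) :
    ∃ u n, LW s t L (n * M) k u ∧ ∀ p, σ p = k → c (run a p u) ≠ none := by
  have key : ∀ F : Finset V, ∃ u n, LW s t L (n * M) k u ∧ ∀ p ∈ F, σ p = k →
      c (run a p u) ≠ none := by
    intro F
    induction F using Finset.induction_on with
    | empty =>
      refine ⟨[], 0, ⟨trivial, by simp, fun e he => absurd he List.not_mem_nil⟩, ?_⟩
      intro p hp
      exact absurd hp (Finset.notMem_empty p)
    | insert p₀ F _ ih =>
      obtain ⟨u, n, hu, h1⟩ := ih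
      by_cases hp₀ : σ p₀ = k
      · have h2 := (closed_mul ha hC n hu hp₀).1
        obtain ⟨w, hw, hw'⟩ := hC.absorb (run a p₀ u) h2
        rw [h2] at hw
        have hw1 : LW s t L (1 * M) k w := by
          rw [Nat.one_mul]
          exact hw
        refine ⟨u ++ w, n + 1, mg_append hu (mg_finmul ha hC hu hp₀) hw1, ?_⟩
        intro p hp hk
        rw [run_append]
        rcases Finset.mem_insert.1 hp with rfl | hp
        · exact hw'
        · have h3 := (closed_mul ha hC n hu hk).1
          obtain ⟨i, hi⟩ := Option.ne_none_iff_exists'.1 (h1 p hp hk)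
          rw [hC.closed (run a p u) i h3 hi w (by rw [h3]; exact hw)]
          exact Option.some_ne_none i
      · refine ⟨u, n, hu, ?_⟩
        intro p hp hk
        rcases Finset.mem_insert.1 hp with rfl | hp
        · exact absurd hk hp₀
        · exact h1 p hp hk
  have := Fintype.ofFinite V
  obtain ⟨u, n, h1, h2⟩ := key Finset.univ
  exact ⟨u, n, h1, fun p hp => h2 p (Finset.mem_univ p) hp⟩

omit [Finite V] in
theorem card_ends [Finite ι] (ha : Typed s t σ a) (hC : Cls s t σ a L M {k} c) {u₀ u : List E}
    {n : ℕ} (hu₀ : LW s t L (n * M) k u₀) (h₀ : ∀ p, σ p = k → c (run a p u₀) ≠ none)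
    (hu : ∀ p q i, σ p = k → σ q = k → c p = some i → c q = some i → run a p u = run a q u) :
    {z | ∃ p, σ p = k ∧ run a p (u₀ ++ u) = z}.ncard ≤ Nat.card ι := by
  choose f hf using fun i => hC.meet k rfl i
  have h1 : {z | ∃ p, σ p = k ∧ run a p (u₀ ++ u) = z} ⊆ (fun i => run a (f i) u) '' Set.univ := by
    rintro z ⟨p, hp, rfl⟩
    have h2 := (closed_mul ha hC n hu₀ hp).1
    obtain ⟨i, hi⟩ := Option.ne_none_iff_exists'.1 (h₀ p hp)
    refine ⟨i, Set.mem_univ i, ?_⟩
    rw [run_append]
    exact hu (f i) (run a p u₀) i (hf i).1 h2 (hf i).2 hi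
  calc {z | ∃ p, σ p = k ∧ run a p (u₀ ++ u) = z}.ncard
      ≤ ((fun i => run a (f i) u) '' Set.univ).ncard :=
        Set.ncard_le_ncard h1 (Set.toFinite _)
    _ ≤ (Set.univ : Set ι).ncard := Set.ncard_image_le (Set.toFinite _)
    _ = Nat.card ι := Set.ncard_univ ι

end Pool.Agent.H97.Cyc
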