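import Pool.Agent.H97.Cyc.Rel

/-!
# Powers of a serial relation on a finite type

Part of `MP_644d19_co` (road colouring inside cycles). `r` is a relation on a finite type `X`, `rn r n`
its `n`-fold composition.

`rn_add`: `rn r (m + n) p q ↔ ∃ z, rn r m p z ∧ rn r n z q`, by induction on `m`.
`exists_idem`: the relations `rn r n` take finitely many values, so `rn r i = rn r j` for some
`i < j`; by `rn_add` `rn r (m + d) = rn r m` for `m ≥ i`, `d = j - i`, so `rn r (m + k * d) = rn r m`.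
Put `n = d * (i + 1) > 0`: `n ≥ i`, so `rn r (n + k * n) = rn r n` for all `k`.

Below `E = rn r n₀` with `n₀ > 0` and `rn r (k * n₀) = E` for all `k ≥ 1`. So `E` is transitive.
`Rc p`: recurrent, `∀ q, E p q → E q p`.

`rc_self`: `E p p` for recurrent `p` (serial: some `E p q`, then `E q p`, transitivity).
`exists_rc`: for every `p` there is a recurrent `q₁` with `E p q₁`: among the `q` with `E p q` choose
one with `{z | E q z}` of minimal cardinality, and `q₁` with `E q q₁` (seriality).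
`{w | E q₁ w} ⊆ {w | E q w}` and `E p q₁`, so they are equal by minimality, and `q₁` is in the second
set, so `E q₁ q₁`. If `E q₁ z`, then `E p z` and `{w | E z w} ⊆ {w | E q₁ w}`, equal by minimality,
so `E z q₁`.
`rc_iff`: for recurrent `p` and `E p q`: `q` is recurrent and `E q z ↔ E p z` for all `z`
(transitivity, `E q p`).
`rc_rn`: for recurrent `p` and `rn r j p x` (any `j`): `x` is recurrent. Let `E x q`. Choose `m` with
`j + n₀ + m = (j + 1) * n₀` (`m = j * (n₀ - 1)`), and by seriality `q'` with `rn r m q q'`.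
So `E p q'`, `E q' p`, and `q → (m) q' → (n₀) p → (j) x` has length `m + n₀ + j = k * n₀`: `E q x`.
`rc_meet`: `p`, `p'` recurrent, `rn r n p z`, `rn r n p' z`. Continue by `n * (n₀ - 1) + n₀` steps
to `w` (total `(n + 1) * n₀`): `E p w`, `E p' w`, so `E w p'`, `E p p'`.
`rc_aper`: `p` recurrent, `rn r j p x`, `rn r m x x`, `rn r (m+1) x x`. Then `E p x`: the number
`j + b * (m + 1) + a * m` with `b = j * (n₀ - 1) + n₀`, `a = b * (n₀ - 1)` is a positive multiple of
`n₀`: `j + b ≡ 0`, `(a + b) * m = b * n₀ * m`.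
`card_le`: if all `p` reach a point of `Z` in exactly `n` steps, then there are at most `Z.ncard`
classes: the map from the sets `{q | E p q}`, `p` recurrent, to `Z` (choose `p`, then `z ∈ Z`
with `rn r n p z`) is injective by `rc_meet` and `rc_iff`.
-/

set_option autoImplicit false

namespace Pool.Agent.H97.Cyc

open scoped Classical

variable {X : Type*}

variable {r : X → X → Prop} [Finite X] {n₀ : ℕ}

omit [Finite X] in
private lemma rn_comp {m n : ℕ} {p q z : X} (h : rn r m p z) (h' : rn r n z q) :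
    rn r (m + n) p q := (rn_add m n p q).2 ⟨z, h, h'⟩

omit [Finite X] in
private lemma rn_loop {m : ℕ} {x : X} (h : rn r m x x) (c : ℕ) : rn r (c * m) x x := by
  induction c with
  | zero => simp [rn]
  | succ c ih =>
    rw [Nat.succ_mul]
    exact rn_comp ih h

omit [Finite X] in
lemma rc_rn (hs : ∀ p, ∃ q, r p q) (h0 : 0 < n₀) (hi : ∀ k, 0 < k → rn r (k * n₀) = rn r n₀)
    {p x : X} (hp : Rc r n₀ p) {j : ℕ} (h : rn r j p x) : Rc r n₀ x := by
  obtain ⟨k, rfl⟩ : ∃ k, n₀ = k + 1 := ⟨n₀ - 1, by omega⟩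
  intro q hq
  obtain ⟨q', hq'⟩ := rn_serial hs (j * k) q
  have h1 : rn r (j + (k + 1) + j * k) p q' := rn_comp (rn_comp h hq) hq'
  rw [show j + (k + 1) + j * k = (j + 1) * (k + 1) by ring, hi _ (Nat.succ_pos j)] at h1
  have h2 : rn r (k + 1) q' p := hp q' h1
  have h3 : rn r (j * k + (k + 1) + j) q x := rn_comp (rn_comp hq' h2) h
  rwa [show j * k + (k + 1) + j = (j + 1) * (k + 1) by ring, hi _ (Nat.succ_pos j)] at h3

omit [Finite X] in
lemma rc_meet (hs : ∀ p, ∃ q, r p q) (h0 : 0 < n₀) (hi : ∀ k, 0 < k → rn r (k * n₀) = rn r n₀)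
    {p p' z : X} (hp : Rc r n₀ p) (hp' : Rc r n₀ p') {n : ℕ} (h : rn r n p z)
    (h' : rn r n p' z) : rn r n₀ p p' := by
  obtain ⟨k, rfl⟩ : ∃ k, n₀ = k + 1 := ⟨n₀ - 1, by omega⟩
  obtain ⟨w, hw⟩ := rn_serial hs (n * k + (k + 1)) z
  have h1 : rn r (n + (n * k + (k + 1))) p w := rn_comp h hw
  have h2 : rn r (n + (n * k + (k + 1))) p' w := rn_comp h' hw
  rw [show n + (n * k + (k + 1)) = (n + 1) * (k + 1) by ring, hi _ (Nat.succ_pos n)] at h1 h2
  exact rn_trans hi h1 (hp' w h2)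

omit [Finite X] in
lemma rc_aper (h0 : 0 < n₀) (hi : ∀ k, 0 < k → rn r (k * n₀) = rn r n₀) {p x : X} {j m : ℕ}
    (h : rn r j p x) (h1 : rn r m x x) (h2 : rn r (m + 1) x x) : rn r n₀ p x := by
  obtain ⟨k, rfl⟩ : ∃ k, n₀ = k + 1 := ⟨n₀ - 1, by omega⟩
  obtain ⟨b, hb⟩ : ∃ b, b = j * k + (k + 1) := ⟨_, rfl⟩
  have h3 : rn r (j + b * (m + 1) + (b * k) * m) p x :=
    rn_comp (rn_comp h (rn_loop h2 b)) (rn_loop h1 (b * k))
  have h4 : j + b * (m + 1) + (b * k) * m = (j + 1 + b * m) * (k + 1) := by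
    have h5 : j + b = (j + 1) * (k + 1) := by rw [hb]; ring
    calc j + b * (m + 1) + (b * k) * m = (j + b) + b * m * (k + 1) := by ring
      _ = (j + 1 + b * m) * (k + 1) := by rw [h5]; ring
  rwa [h4, hi _ (by omega)] at h3

lemma card_le (hs : ∀ p, ∃ q, r p q) (h0 : 0 < n₀) (hi : ∀ k, 0 < k → rn r (k * n₀) = rn r n₀)
    {Z : Set X} {n : ℕ} (hZ : ∀ p, ∃ z ∈ Z, rn r n p z) :
    {S : Set X | ∃ p, Rc r n₀ p ∧ S = {q | rn r n₀ p q}}.ncard ≤ Z.ncard := by
  have h : ∀ S ∈ {S : Set X | ∃ p, Rc r n₀ p ∧ S = {q | rn r n₀ p q}},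
      ∃ z, z ∈ Z ∧ ∃ p, Rc r n₀ p ∧ S = {q | rn r n₀ p q} ∧ rn r n p z := by
    rintro S ⟨p, hp, hS⟩
    obtain ⟨z, hz, hpz⟩ := hZ p
    exact ⟨z, hz, p, hp, hS, hpz⟩
  rcases isEmpty_or_nonempty X with hX | hX
  · have he : {S : Set X | ∃ p, Rc r n₀ p ∧ S = {q | rn r n₀ p q}} = ∅ :=
      Set.eq_empty_of_forall_notMem (fun S hS => by
        obtain ⟨p, _⟩ := hS
        exact hX.elim p)
    rw [he, Set.ncard_empty]
    exact Nat.zero_le _
  choose! f hf using h
  refine Set.ncard_le_ncard_of_injOn f (fun S hS => (hf S hS).1) ?_ (Set.toFinite Z)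
  intro S hS T hT hST
  obtain ⟨p, hp, hSp, hpz⟩ := (hf S hS).2
  obtain ⟨p', hp', hTp, hpz'⟩ := (hf T hT).2
  rw [← hST] at hpz'
  have hE : rn r n₀ p p' := rc_meet hs h0 hi hp hp' hpz hpz'
  rw [hSp, hTp]
  ext q
  exact ((rc_iff hi hp hE).2 q).symm

end Pool.Agent.H97.Cyc
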