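import Pool.Agent.H97.Cyc.BaseB
import Pool.Agent.H97.Cyc.RelB
import Pool.Agent.H97.Cyc.Merge

/-!
# The step: a recolouring with a stable pair from a cycle with at most eight classes

Part of `MP_644d19_co` (road colouring inside cycles). `p₀` has two followers `Φ.act p₀ g`,
`Φ.act p₀ g'` (parallel letters `g`, `g'`). `K ∈ D.Cv`, `ℓ > 0` with `D.nx^[ℓ] K = K`; every vertex over
`K` reaches a vertex of `Z`, `Z.ncard ≤ 8`, by exactly `n * ℓ` steps.

`card_ci`: `card_le` for `rr` (with `Z' = {z : Xv v K | z.1 ∈ Z}`; the `z` reached by `n * ℓ` steps is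
over `K`): at most eight classes. `ci_nonempty`: `v` is surjective (`Φ.v_surj`), `exists_rc`.

`step_off` (`g ∉ D.L`, so no letter parallel to `g` is in `D.L`): `exists_idem` for `rr`;
`exists_merge` gives `Φ'`; `cls_of` for `Φ'`; `exists_absorb`, `exists_syn`, `card_ends`: the word
`u₀ ++ u` has at most `card Ci ≤ 8` end vertices from the vertices over `K`, and its letters are in
`D.L`; `step_of_ends` (in `Bun/Main8.lean`) with `hyb_avoid`.

`run_avoid`: if no proper prefix of `u` leads from `p` to `x`, then `flip e1 e2 {x} a` and `a` agree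
along `u` from `p` (induction on `u`).

`step_on` (`H.src g = K`, `g ∈ D.L` or not; `ℓ` is the least period: `hmin`): `Φ'`, `u` as before
(`exists_merge`, `exists_syn`), `e1`, `e2` from `exists_pair`. If `Φ'` has a stable pair: done. Otherwise
let `a = Φ'.act`, `a' = flip e1 e2 {p₀} a`; if `e1 ∉ D.L` use `step_off`. So `e1, e2 ∈ D.L`. By
`cyc_eight` it is enough to check `Syn` for `a` with `U p = run a p u` (`word`: `u`; `keep`:
`closed_mul`; `merge`: `exists_syn`) and for `a'` with `U' p = run a' p u` and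
`ι₀ = {i | cl p₀ ≠ some i}` (at most one class is missing): `word`, `keep` (`closed_mul` for `a'`,
`cls_flip`), `merge`: for `p` of class `i ∈ ι₀` we have `run a' p u = run a p u` by `run_avoid`: if
`run a p u₁ = p₀` for a prefix `u₁` of `u` (`LW` of length `u₁.length`), then
`D.nx^[u₁.length] K = K` (`fin_LW`, the type of `p₀` is `K`), so `u₁.length = j * ℓ` (`hmin`) and
`rn rr j p p₀` (`steps_iff_LW`, `rn_rr`). `p` is recurrent, so `p₀` is (`rc_rn`). The hypothesis `hap`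
applies: let `Steps (m * ℓ) p₀ t`; then `t` is over `K`, choose `t'` with `rn rr m' t t'`,
`m + m' = (m + 1) * n₀`; `rn rr n₀ p₀ t'`, so `rn rr n₀ t' p₀`; so `t` reaches `p₀` by
`(m' + n₀) * ℓ` steps. So `Steps (m * ℓ) p₀ p₀` and `Steps ((m + 1) * ℓ) p₀ p₀` for some `m`, and
`rc_aper` gives `rn rr n₀ p p₀`, so `cl p₀ = cl p = some i` (`cl_of_rn`), a contradiction.
At the end: `¬ NoStable a'`, and `exists_flip` gives the recolouring (compare `step_of_ends`).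
-/

set_option autoImplicit false

namespace Pool.Agent.H97.Cyc

open Pool.Agent.H75.Bunchy Pool.Agent.H26.Bunchy Pool.Agent.H97.Bun
open scoped Classical

variable {G H : Graph} {D : CycData H} {K : H.V} {ℓ n₀ : ℕ}

private lemma iter_mul (hℓ : D.nx^[ℓ] K = K) (n : ℕ) : D.nx^[n * ℓ] K = K := by
  induction n with
  | zero => simp
  | succ n ih => rw [Nat.succ_mul, Function.iterate_add_apply, hℓ, ih]

lemma card_ci (Φ : RightResolver G H) (hK : K ∈ D.Cv) (hℓ : D.nx^[ℓ] K = K)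
    (hi : Idem Φ.v D K ℓ n₀) {Z : Set G.V} (hZ : Z.ncard ≤ 8) {n : ℕ}
    (hr : ∀ q, Φ.v q = K → ∃ z ∈ Z, Steps Φ.v D (n * ℓ) q z) :
    Nat.card (Ci Φ.v D K ℓ n₀) ≤ 8 := by
  have h1 := card_le (r := rr Φ.v D K ℓ) (rr_serial Φ rfl hK hℓ) hi.1 hi.2
    (Z := {z : Xv Φ.v K | z.1 ∈ Z}) (n := n) (fun p => by
      obtain ⟨z, hz, hs⟩ := hr p.1 p.2
      have hzK : Φ.v z = K := by
        rw [(steps_typ (by rw [p.2]; exact hK) hs).1, p.2, iter_mul hℓ]
      exact ⟨⟨z, hzK⟩, hz, (rn_rr hK hℓ n p ⟨z, hzK⟩).2 hs⟩)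
  have h2 : {z : Xv Φ.v K | z.1 ∈ Z}.ncard ≤ Z.ncard :=
    Set.ncard_le_ncard_of_injOn Subtype.val (fun z hz => hz)
      (fun a _ b _ hab => Subtype.ext hab) (Set.toFinite _)
  have h3 : Nat.card (Ci Φ.v D K ℓ n₀) = {S : Set (Xv Φ.v K) |
      ∃ p, Rc (rr Φ.v D K ℓ) n₀ p ∧ S = {q | rn (rr Φ.v D K ℓ) n₀ p q}}.ncard :=
    Nat.card_coe_set_eq _
  rw [h3]
  exact h1.trans (h2.trans hZ)

lemma ci_nonempty (Φ : RightResolver G H) (hK : K ∈ D.Cv) (hℓ : D.nx^[ℓ] K = K)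
    (hi : Idem Φ.v D K ℓ n₀) : Nonempty (Ci Φ.v D K ℓ n₀) := by
  obtain ⟨q, hq⟩ := Φ.v_surj K
  obtain ⟨z, _, hz⟩ := exists_rc (r := rr Φ.v D K ℓ) (rr_serial Φ rfl hK hℓ) hi.2 ⟨q, hq⟩
  exact ⟨⟨_, z, hz, rfl⟩⟩

theorem step_off (Φ : RightResolver G H) (hG : G.StronglyConnected) {p₀ : G.V} {g g' : H.E}
    (hsg : H.src g = Φ.v p₀) (hsg' : H.src g' = H.src g) (htg' : H.tgt g' = H.tgt g)
    (hne : Φ.act p₀ g ≠ Φ.act p₀ g') (hK : K ∈ D.Cv) (hℓ0 : 0 < ℓ) (hℓ : D.nx^[ℓ] K = K)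
    {Z : Set G.V} (hZ : Z.ncard ≤ 8) {n : ℕ}
    (hr : ∀ q, Φ.v q = K → ∃ z ∈ Z, Steps Φ.v D (n * ℓ) q z) (hg : g ∉ D.L) :
    ∃ Φ' : RightResolver G H, Φ'.v = Φ.v ∧ ¬ NoStable H.src H.tgt Φ'.v Φ'.act := by
  obtain ⟨n₀, h0, hi'⟩ := exists_idem (rr Φ.v D K ℓ)
  have hi : Idem Φ.v D K ℓ n₀ := ⟨h0, hi'⟩
  obtain ⟨Φ', hv, hm⟩ := exists_merge Φ hK hℓ0 hℓ hi
  have hC := cls_of Φ' hv hK hℓ hi
  rw [← hv] at hm hC
  have hM : 0 < n₀ * ℓ := Nat.mul_pos h0 hℓ0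
  have hM' : D.nx^[n₀ * ℓ] K = K := iter_mul hℓ n₀
  obtain ⟨u, n1, hu, hu'⟩ := exists_syn Φ'.act_typed hC hM hm
  obtain ⟨u₀, n2, hu₀, hu₀'⟩ := exists_absorb Φ'.act_typed hC
  have hce := card_ends Φ'.act_typed hC hu₀ hu₀' hu'
  have hcard : Nat.card (Ci Φ'.v D K ℓ n₀) ≤ 8 := by
    rw [hv]; exact card_ci Φ hK hℓ hi hZ hr
  have hval : Valid H.src H.tgt K (u₀ ++ u) := by
    rw [valid_append]
    refine ⟨hu₀.1, ?_⟩
    rw [fin_LW hK hu₀, iter_mul hM']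
    exact hu.1
  have hlet : ∀ e ∈ u₀ ++ u, e ∈ D.L := by
    intro e he
    rcases List.mem_append.1 he with he | he
    · exact hu₀.2.2 e he
    · exact hu.2.2 e he
  refine step_of_ends Φ Φ' hG hv hsg hsg' htg' hne (Φ.v_surj K) hval
    fun e1 e2 a1 b1 a2 b2 => ?_
  have hav : ∀ e : H.E, H.src e = H.src g → H.tgt e = H.tgt g → e ∉ u₀ ++ u := by
    intro e hse hte he
    apply hg
    have h1 := hlet e he
    refine ⟨?_, ?_⟩
    · rw [← hse]; exact h1.1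
    · rw [← hse, ← hte]; exact h1.2
  refine (Set.ncard_le_ncard ?_ (Set.toFinite _)).trans (hce.trans hcard)
  rintro z ⟨p, u', hp, hyb, rfl⟩
  rw [hyb_avoid (hav e1 a1 b1) (hav e2 a2 b2) hyb]
  exact ⟨p, hp, rfl⟩

lemma run_avoid {V E : Type*} {a : V → E → V} {e1 e2 : E} {x : V} (u : List E) (p : V)
    (h : ∀ u₁ u₂, u = u₁ ++ u₂ → u₂ ≠ [] → run a p u₁ ≠ x) :
    run (flip e1 e2 {x} a) p u = run a p u := by
  induction u generalizing p with
  | nil => rfl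
  | cons e u ih =>
    have h1 : p ≠ x := h [] (e :: u) rfl (List.cons_ne_nil _ _)
    have h2 : flip e1 e2 {x} a p e = a p e :=
      flip_of_notMem (fun hp => h1 (Set.mem_singleton_iff.1 hp)) e
    rw [run_cons, run_cons, h2]
    exact ih (a p e) fun u₁ u₂ hu hne => h (e :: u₁) u₂ (by rw [hu]; rfl) hne

end Pool.Agent.H97.Cyc
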