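import Mathlib

/-!
# Functional graphs: levels and roots

Part of `MP_644d19_co` (road colouring inside cycles). For `α : V → V`, `V` finite,
`cyc α` is the set of periodic points, `lev α y` the number of steps until the orbit of `y` enters
`cyc α`, `root α y` the point of entrance.

All proofs are short: `Function.mem_periodicPts`, `Function.iterate_succ_apply`,
`Function.iterate_add_apply`, `Nat.sInf_mem`, `Nat.sInf_le`; `exists_iter_mem`: by finiteness
`α^[i] y = α^[j] y` with `i < j` (`Finite.exists_ne_map_eq_of_infinite` for `n ↦ α^[n] y`), so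
`α^[i] y` is periodic with period `j - i`.
`lev_succ`: for `y ∉ cyc α`: `{n | α^[n] y ∈ cyc α}` does not contain `0` and
`α^[n+1] y = α^[n] (α y)`.
`injOn_cyc`: `Function.bijOn_periodicPts`.
-/

set_option autoImplicit false

namespace Pool.Agent.H97.Cyc

open scoped Classical

variable {V : Type*}

/-- periodic points -/
def cyc (α : V → V) : Set V := Function.periodicPts α

/-- number of steps until the orbit becomes periodic -/
noncomputable def lev (α : V → V) (y : V) : ℕ := sInf {n | α^[n] y ∈ cyc α}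

/-- the first periodic point of the orbit -/
noncomputable def root (α : V → V) (y : V) : V := α^[lev α y] y

variable {α : V → V}

lemma mem_cyc_iff {y : V} : y ∈ cyc α ↔ ∃ n, 0 < n ∧ α^[n] y = y := by
  constructor
  · rintro ⟨n, hn, h⟩
    exact ⟨n, hn, h⟩
  · rintro ⟨n, hn, h⟩
    exact ⟨n, hn, h⟩

lemma cyc_map {y : V} (h : y ∈ cyc α) : α y ∈ cyc α := by
  obtain ⟨n, hn, h⟩ := mem_cyc_iff.1 h
  refine mem_cyc_iff.2 ⟨n, hn, ?_⟩
  rw [← Function.iterate_succ_apply, Function.iterate_succ_apply', h]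

lemma cyc_iter {y : V} (h : y ∈ cyc α) (n : ℕ) : α^[n] y ∈ cyc α := by
  induction n with
  | zero => exact h
  | succ n ih =>
    rw [Function.iterate_succ_apply']
    exact cyc_map ih

lemma injOn_cyc : Set.InjOn α (cyc α) :=
  (Function.bijOn_periodicPts α).injOn

/-- a periodic point has a periodic preimage -/
lemma cyc_pre {y : V} (h : y ∈ cyc α) : ∃ z ∈ cyc α, α z = y := by
  obtain ⟨n, hn, h1⟩ := mem_cyc_iff.1 h
  refine ⟨α^[n - 1] y, cyc_iter h _, ?_⟩
  have h2 := Function.iterate_succ_apply' α (n - 1) y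
  rw [Nat.succ_eq_add_one, Nat.sub_add_cancel hn, h1] at h2
  exact h2.symm

variable [Finite V]

lemma exists_iter_mem (α : V → V) (y : V) : ∃ n, α^[n] y ∈ cyc α := by
  obtain ⟨i, j, hij, h⟩ := Finite.exists_ne_map_eq_of_infinite (fun n : ℕ => α^[n] y)
  have h' : α^[i] y = α^[j] y := h
  rcases lt_or_gt_of_ne hij with hlt | hlt
  · refine ⟨i, mem_cyc_iff.2 ⟨j - i, by omega, ?_⟩⟩
    rw [← Function.iterate_add_apply, Nat.sub_add_cancel hlt.le, ← h']
  · refine ⟨j, mem_cyc_iff.2 ⟨i - j, by omega, ?_⟩⟩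
    rw [← Function.iterate_add_apply, Nat.sub_add_cancel hlt.le, h']

lemma root_mem (y : V) : root α y ∈ cyc α :=
  Nat.sInf_mem (s := {n | α^[n] y ∈ cyc α}) (exists_iter_mem α y)

lemma iter_mem {y : V} {n : ℕ} (h : lev α y ≤ n) : α^[n] y ∈ cyc α := by
  obtain ⟨k, rfl⟩ := Nat.exists_eq_add_of_le' h
  rw [Function.iterate_add_apply]
  exact cyc_iter (root_mem y) k

omit [Finite V] in
lemma iter_not_mem {y : V} {n : ℕ} (h : n < lev α y) : α^[n] y ∉ cyc α := fun hn =>
  Nat.notMem_of_lt_sInf (s := {n | α^[n] y ∈ cyc α}) h hn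

lemma lev_eq_zero {y : V} : lev α y = 0 ↔ y ∈ cyc α := by
  constructor
  · intro h
    exact iter_mem (α := α) (y := y) (n := 0) h.le
  · intro h
    exact Nat.le_zero.1 (Nat.sInf_le (s := {n | α^[n] y ∈ cyc α}) h)

omit [Finite V] in
lemma root_of_mem {y : V} (h : y ∈ cyc α) : root α y = y := by
  have h0 : lev α y = 0 := Nat.le_zero.1 (Nat.sInf_le (s := {n | α^[n] y ∈ cyc α}) h)
  rw [root, h0, Function.iterate_zero_apply]

lemma lev_succ {y : V} (h : y ∉ cyc α) : lev α y = lev α (α y) + 1 := by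
  have h0 : lev α y ≠ 0 := fun h0 => h (lev_eq_zero.1 h0)
  refine le_antisymm (Nat.sInf_le ?_) ?_
  · change α^[lev α (α y) + 1] y ∈ cyc α
    rw [Function.iterate_succ_apply]
    exact root_mem (α y)
  · have h1 : lev α (α y) ≤ lev α y - 1 := by
      refine Nat.sInf_le ?_
      change α^[lev α y - 1] (α y) ∈ cyc α
      rw [← Function.iterate_succ_apply, Nat.succ_eq_add_one,
        Nat.sub_add_cancel (Nat.one_le_iff_ne_zero.2 h0)]
      exact root_mem y
    omega

lemma root_succ {y : V} (h : y ∉ cyc α) : root α y = root α (α y) := by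
  rw [root, lev_succ h, Function.iterate_succ_apply]
  rfl

/-- the level and the root along the part of the orbit before the periodic part -/
lemma lev_iter {y : V} {n : ℕ} (h : n ≤ lev α y) :
    lev α (α^[n] y) = lev α y - n ∧ root α (α^[n] y) = root α y := by
  induction n with
  | zero => exact ⟨rfl, rfl⟩
  | succ n ih =>
    obtain ⟨h1, h2⟩ := ih (by omega)
    have hn : α^[n] y ∉ cyc α := iter_not_mem (by omega)
    rw [Function.iterate_succ_apply']
    have h3 := lev_succ hn
    have h4 := root_succ hn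
    exact ⟨by omega, by rw [← h4, h2]⟩

/-- characterization of the level -/
lemma lev_eq {y : V} {n : ℕ} (h1 : ∀ i < n, α^[i] y ∉ cyc α) (h2 : α^[n] y ∈ cyc α) :
    lev α y = n ∧ root α y = α^[n] y := by
  have h : lev α y = n := by
    refine le_antisymm (Nat.sInf_le h2) ?_
    by_contra hlt
    exact h1 (lev α y) (by omega) (root_mem y)
  exact ⟨h, by rw [root, h]⟩

end Pool.Agent.H97.Cyc
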