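import Pool.Agent.H97.Cyc.SubB

/-!
# One colouring for all terminal components over a cycle

Part of `MP_644d19_co` (road colouring inside cycles).

`exists_perm_of_injOn`: an injective self-map of a subset of a finite type extends by the identity to
a permutation.

`term_eq`: a terminal component is determined by any of its vertices:
`S = {q | ReflTransGen (LStep v D) p q}` for `p ∈ S` (`closed`, `conn`).

`exists_glue`: choose `χ S hS` by `exists_col` for every `S` with `hS : Term Φ.v D S`. Recolour `Φ` by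
`Φ.exists_recolor` with
`Q p π = ∀ S (hS : Term Φ.v D S) (hp : p ∈ S) (e : D.graph.E), H.src e.1 = Φ.v p →
  Φ.act p (π e.1) = ((χ S hS).act ⟨p, hp⟩ e).1`.
Existence of `π` at `p`: if `p` is in no terminal component, `π = 1`. Otherwise let `S` be the one
(`term_eq`), `A` the set of the letters `e` with `H.src e = Φ.v p`, `H.tgt e = D.nx (Φ.v p)`. For
`e ∈ A` there is an edge `f_e` of `subG` from `⟨p, hp⟩` with `(χ S hS).e f_e = ⟨e, _⟩`
(`exists_edge`), `(χ S hS).act ⟨p, hp⟩ ⟨e, _⟩ = tgt f_e` (`act_eq`). `e ↦ Φ.e f_e.1` maps `A` to `A` and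
is injective on `A` (`Φ.edge_unique`); extend it to `π` (`exists_perm_of_injOn`; it preserves sources and
targets), and `Φ.act p (π e) = Φ.act p (Φ.e f_e.1) = G.tgt f_e.1` (`act_eq`).
So `Φ'.act p e.1 = ((χ S hS).act ⟨p, hp⟩ e).1`, and by induction on a word `w` of `D.graph` valid from
`(χ S hS).v ⟨p, hp⟩`: `w.map Subtype.val` is valid from `Φ.v p`, its letters are in `D.L`, and
`run Φ'.act p (w.map Subtype.val) = (run (χ S hS).act ⟨p, hp⟩ w).1`. Now use the property of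
`χ S hS` from `exists_col`.
-/

set_option autoImplicit false

namespace Pool.Agent.H97.Cyc

open Pool.Agent.H75.Bunchy Pool.Agent.H97.Bun
open scoped Classical

lemma exists_perm_of_injOn {E : Type*} [Finite E] (A : Set E) (f : E → E)
    (hf : Set.MapsTo f A A) (hi : Set.InjOn f A) :
    ∃ π : Equiv.Perm E, (∀ e ∈ A, π e = f e) ∧ ∀ e ∉ A, π e = e := by
  have hinj : Function.Injective (fun e => if e ∈ A then f e else e) := by
    intro x y h
    by_cases hx : x ∈ A <;> by_cases hy : y ∈ A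
    · simp only [hx, hy, if_true] at h
      exact hi hx hy h
    · simp only [hx, hy, if_true, if_false] at h
      exact absurd (h ▸ hf hx) hy
    · simp only [hx, hy, if_true, if_false] at h
      exact absurd (h ▸ hf hy) hx
    · simp only [hx, hy, if_false] at h
      exact h
  refine ⟨Equiv.ofBijective _ (Finite.injective_iff_bijective.1 hinj), ?_, ?_⟩
  · intro e he; simp [he]
  · intro e he; simp [he]

variable {G H : Graph}

lemma term_eq {v : G.V → H.V} {D : CycData H} {S : Set G.V} (hS : Term v D S) {p : G.V}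
    (hp : p ∈ S) : S = {q | Relation.ReflTransGen (LStep v D) p q} := by
  ext q
  constructor
  · intro hq; exact hS.conn p hp q hq
  · intro hq
    have h : Relation.ReflTransGen (LStep v D) p q := hq
    clear hq
    induction h with
    | refl => exact hp
    | tail _ h2 ih => exact hS.closed _ ih _ h2

private lemma steps_v {v : G.V → H.V} {D : CycData H} (N : ℕ) {p q : G.V}
    (h : Steps v D N p q) : v q = D.nx^[N] (v p) := by
  induction N generalizing p with
  | zero => rw [show p = q from h]; rfl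
  | succ N ih =>
    obtain ⟨z, h1, h2⟩ := h
    rw [ih h2, Function.iterate_succ_apply, h1.2.2]

private lemma exists_pi (Φ : RightResolver G H) (D : CycData H) {S : Set G.V}
    (hS : Term Φ.v D S) (χ : RightResolver (subG Φ.v D S hS) D.graph)
    (hχ : ∀ p, (χ.v p).1 = Φ.v p.1) (p : G.V) (hp : p ∈ S) :
    ∃ π : Equiv.Perm H.E, (∀ g, H.src (π g) = H.src g ∧ H.tgt (π g) = H.tgt g) ∧
      ∀ e : D.graph.E, H.src e.1 = Φ.v p → Φ.act p (π e.1) = (χ.act ⟨p, hp⟩ e).1 := by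
  have hex : ∀ e : H.E, ∃ e' : H.E, ∀ h : e ∈ D.L ∧ H.src e = Φ.v p,
      ∃ f : (subG Φ.v D S hS).E, (subG Φ.v D S hS).src f = ⟨p, hp⟩ ∧
        χ.e f = ⟨e, h.1⟩ ∧ Φ.e f.1 = e' := by
    intro e
    by_cases h : e ∈ D.L ∧ H.src e = Φ.v p
    · obtain ⟨f, hf1, hf2⟩ := χ.exists_edge ⟨p, hp⟩ (g := (⟨e, h.1⟩ : D.graph.E))
        (Subtype.ext (h.2.trans (hχ ⟨p, hp⟩).symm))
      exact ⟨Φ.e f.1, fun _ => ⟨f, hf1, hf2, rfl⟩⟩
    · exact ⟨e, fun h' => absurd h' h⟩
  choose F hF using hex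
  have hsrc : ∀ f : (subG Φ.v D S hS).E, (subG Φ.v D S hS).src f = ⟨p, hp⟩ → G.src f.1 = p :=
    fun f hf => congrArg Subtype.val hf
  have hFs : ∀ e, e ∈ D.L ∧ H.src e = Φ.v p → H.src (F e) = Φ.v p ∧
      H.tgt (F e) = D.nx (Φ.v p) := by
    intro e h
    obtain ⟨f, h1, -, h3⟩ := hF e h
    have h4 := hsrc f h1
    have h5 := f.2.2
    rw [h4] at h5
    rw [← h3]
    exact ⟨by rw [Φ.src_comm, h4], by rw [Φ.tgt_comm]; exact h5⟩
  obtain ⟨π, hπ1, hπ2⟩ := exists_perm_of_injOn {e | e ∈ D.L ∧ H.src e = Φ.v p} F (by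
    intro e he
    obtain ⟨h1, h2⟩ := hFs e he
    refine ⟨⟨?_, ?_⟩, h1⟩
    · rw [h1]; exact hS.typ p hp
    · rw [h1]; exact h2) (by
    intro e he e' he' h
    obtain ⟨f, h1, h2, h3⟩ := hF e he
    obtain ⟨f', h1', h2', h3'⟩ := hF e' he'
    have h4 : f.1 = f'.1 := Φ.edge_unique (by rw [hsrc f h1, hsrc f' h1'])
      (by rw [h3, h3']; exact h)
    have h5 : f = f' := Subtype.ext h4
    rw [h5, h2'] at h2
    exact (congrArg Subtype.val h2).symm)
  refine ⟨π, ?_, ?_⟩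
  · intro g
    by_cases hg : g ∈ D.L ∧ H.src g = Φ.v p
    · rw [hπ1 g hg]
      obtain ⟨h1, h2⟩ := hFs g hg
      refine ⟨by rw [h1, hg.2], ?_⟩
      rw [h2, hg.1.2, hg.2]
    · rw [hπ2 g hg]; exact ⟨rfl, rfl⟩
  · intro e he
    have hg : e.1 ∈ D.L ∧ H.src e.1 = Φ.v p := ⟨e.2, he⟩
    rw [hπ1 e.1 hg]
    obtain ⟨f, h1, h2, h3⟩ := hF e.1 hg
    have h4 := Φ.act_eq f.1
    rw [hsrc f h1, h3] at h4
    have h5 := χ.act_eq f
    rw [h1, h2] at h5
    rw [h4]
    exact (congrArg Subtype.val h5).symm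

theorem exists_glue (Φ : RightResolver G H) (D : CycData H) :
    ∃ Φ' : RightResolver G H, Φ'.v = Φ.v ∧ ∀ S, Term Φ.v D S → ∀ p ∈ S,
      ∃ w : List H.E, Valid H.src H.tgt (Φ.v p) w ∧ (∀ e ∈ w, e ∈ D.L) ∧
        ∀ q ∈ S, ∀ N, Steps Φ.v D N p p → Steps Φ.v D N p q →
          run Φ'.act q w = run Φ'.act p w := by
  choose χ hχv hχ using fun S hS => exists_col Φ D S hS
  obtain ⟨Φ', hv, hΦ'⟩ := Φ.exists_recolor
    (fun p π => ∀ (S : Set G.V) (hS : Term Φ.v D S) (hp : p ∈ S) (e : D.graph.E),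
      H.src e.1 = Φ.v p → Φ.act p (π e.1) = ((χ S hS).act ⟨p, hp⟩ e).1) (by
    intro p
    by_cases h : ∃ S, Term Φ.v D S ∧ p ∈ S
    · obtain ⟨S, hS, hp⟩ := h
      obtain ⟨π, h1, h2⟩ := exists_pi Φ D hS (χ S hS) (hχv S hS) p hp
      refine ⟨π, h1, ?_⟩
      intro S' hS' hp'
      have hSS : S' = S := by rw [term_eq hS hp, term_eq hS' hp']
      subst hSS
      exact h2
    · refine ⟨1, fun g => ⟨rfl, rfl⟩, ?_⟩
      intro S hS hp
      exact absurd ⟨S, hS, hp⟩ h)
  refine ⟨Φ', hv, ?_⟩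
  intro S hS
  have hstep : ∀ (P : (subG Φ.v D S hS).V) (e : D.graph.E), H.src e.1 = Φ.v P.1 →
      Φ'.act P.1 e.1 = ((χ S hS).act P e).1 := by
    intro P e he
    obtain ⟨π, -, h2, h3⟩ := hΦ' P.1
    rw [h3]
    exact h2 S hS P.2 e he
  have hword : ∀ (w : List D.graph.E) (P : (subG Φ.v D S hS).V),
      Valid D.graph.src D.graph.tgt ((χ S hS).v P) w →
      Valid H.src H.tgt (Φ.v P.1) (w.map Subtype.val) ∧
        run Φ'.act P.1 (w.map Subtype.val) = (run (χ S hS).act P w).1 := by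
    intro w
    induction w with
    | nil => intro P _; exact ⟨trivial, rfl⟩
    | cons e w ih =>
      intro P hw
      obtain ⟨h1, h2⟩ := hw
      have h3 : H.src e.1 = Φ.v P.1 := by
        rw [← hχv S hS P, ← h1]; rfl
      have h4 : (χ S hS).v ((χ S hS).act P e) = D.graph.tgt e := (χ S hS).act_typed P e h1
      obtain ⟨h5, h6⟩ := ih ((χ S hS).act P e) (by rw [h4]; exact h2)
      have h7 : Φ.v ((χ S hS).act P e).1 = H.tgt e.1 := by
        rw [← hχv S hS, h4]; rfl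
      refine ⟨⟨h3, ?_⟩, ?_⟩
      · rw [← h7]; exact h5
      · change run Φ'.act (Φ'.act P.1 e.1) (w.map Subtype.val) =
          (run (χ S hS).act ((χ S hS).act P e) w).1
        rw [hstep P e h3]
        exact h6
  intro p hp
  obtain ⟨w, hw, hm⟩ := hχ S hS ⟨p, hp⟩
  refine ⟨w.map Subtype.val, (hword w ⟨p, hp⟩ hw).1, ?_, ?_⟩
  · intro e he
    obtain ⟨e', -, rfl⟩ := List.mem_map.1 he
    exact e'.2
  · intro q hq N h1 h2
    have h3 : (χ S hS).v ⟨q, hq⟩ = (χ S hS).v ⟨p, hp⟩ := by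
      have h0 : Φ.v q = Φ.v p := by rw [steps_v N h2, ← steps_v N h1]
      exact Subtype.ext ((hχv S hS ⟨q, hq⟩).trans (h0.trans (hχv S hS ⟨p, hp⟩).symm))
    have h4 := (hword w ⟨q, hq⟩ (by rw [h3]; exact hw)).2
    have h5 := (hword w ⟨p, hp⟩ hw).2
    change run Φ'.act q _ = _ at h4
    change run Φ'.act p _ = _ at h5
    rw [h4, h5, hm ⟨q, hq⟩ N h1 h2]

end Pool.Agent.H97.Cyc
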