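import Pool.Agent.H97.Bun.Lin

/-!
# Two facts of linear algebra, second version

Part of `MP_644d19_co` (road colouring inside cycles).

`finrank_anti`: `J = ↥ι₀` (finite). For `g : J → ℝ` let
`f_g z = ∑ i : J, g i * ((if z = e i then 1 else 0) - (if z = τ (e i) then 1 else 0))`, which
satisfies `f_g (τ z) = - f_g z`. Its values at `e j` are `((1 - Π) g) j`, where
`Π g j = ∑ i : J, g i * (if e j = τ (e i) then 1 else 0)` (as `e` is injective on `ι₀`). So the range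
of the linear map `1 - Π` of `J → ℝ` is contained in the image of `A` under the restriction
`(ι → ℝ) → (J → ℝ)`: `finrank (range (1 - Π)) ≤ finrank A`. Choose an injection `n : V → ℕ`
(`Fintype.equivFin`) and `ε j = if n (e j) < n (τ (e j)) then 1 else -1`; if `e j = τ (e i)` then
`ε j = - ε i`. So `Π (ε g) = - ε (Π g)`. For `g ∈ ker (1 - Π)`: `g = Π g`,
`(1 - Π) (ε g) = ε g + ε (Π g) = 2 ε g`, so `g ↦ ε g` maps `ker (1 - Π)` injectively into
`range (1 - Π)`. So `card J = finrank ker + finrank range ≤ 2 finrank range ≤ 2 finrank A`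
(`LinearMap.finrank_range_add_finrank_ker`).

`finrank_cls`: `J = ↥ι₀`, `R : (ι → ℝ) → (J → ℝ)` the restriction, `N = A.map R`; rank-nullity for the
restriction of `R` to `A`: `finrank A = finrank N + finrank ker`. Let `g` be the number of values of
`π` on `ι₀`. `card_le_classes` for `N`, `X = J`, `ι = ↥(π '' ι₀)` gives `g ≤ finrank N`,
`card J ≤ g * 2 ^ (finrank N - g)`. If some `z` is not a value of `π` on `ι₀`, its `α ≠ 0` of `hA`
vanishes on `ι₀`, so the kernel is not zero and `finrank A ≥ finrank N + 1`; this is the case if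
`g ≤ 2` (`hZ`). Numbers: let `d = finrank N`. If `g ≥ 3`: `d = g`: `card J ≤ g`; `d = g + 1`:
`card J ≤ 2 g`; `d ≥ g + 2`: `2 d ≥ 10`. If `g = 1`: `d = 1, 2, 3`: `card J ≤ 1, 2, 4`; `d ≥ 4`:
`2 (d + 1) ≥ 10`. If `g = 2`: `d = 2, 3`: `card J ≤ 2, 4`; `d ≥ 4`: `2 (d + 1) ≥ 10`. (`g ≥ 1` as
`ι₀` is not empty.)
-/

set_option autoImplicit false

namespace Pool.Agent.H97.Cyc

open Pool.Agent.H97.Bun
open scoped Classical

private lemma ncard_le_anti {V ι : Type*} [Fintype V] [Fintype ι] (τ : V → V)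
    (h1 : ∀ x, τ (τ x) = x) (ι₀ : Set ι) (e : ι → V) (he : Set.InjOn e ι₀)
    (A : Submodule ℝ (ι → ℝ))
    (hA : ∀ f : V → ℝ, (∀ z, f (τ z) = - f z) → ∃ α ∈ A, ∀ i ∈ ι₀, α i = f (e i))
    (S : Set ι) (hS : S ⊆ ι₀) (hSS : ∀ s ∈ S, ∀ s' ∈ S, e s ≠ τ (e s')) :
    S.ncard ≤ Module.finrank ℝ A := by
  have hsw : ∀ x y, τ x = y ↔ x = τ y := fun x y =>
    ⟨fun h => by rw [← h, h1], fun h => by rw [h, h1]⟩
  have hinj : ∀ x y, τ x = τ y ↔ x = y := fun x y =>
    ⟨fun h => by rw [← h1 x, h, h1], fun h => by rw [h]⟩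
  let R : A →ₗ[ℝ] (S → ℝ) := (LinearMap.funLeft ℝ ℝ (Subtype.val : S → ι)).comp A.subtype
  have hR : LinearMap.range R = ⊤ := by
    rw [LinearMap.range_eq_top]
    intro g
    obtain ⟨α, hα, hα'⟩ := hA
      (fun z => ∑ s : S, g s * ((if z = e s.1 then 1 else 0) - (if z = τ (e s.1) then 1 else 0)))
      (fun z => by
        simp only [hinj, hsw]
        rw [← Finset.sum_neg_distrib]
        refine Finset.sum_congr rfl fun s _ => ?_
        ring)
    refine ⟨⟨α, hα⟩, ?_⟩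
    funext s
    change α s.1 = g s
    rw [hα' s.1 (hS s.2), Finset.sum_eq_single s]
    · rw [if_pos rfl, if_neg (hSS s.1 s.2 s.1 s.2)]
      ring
    · intro b _ hb
      rw [if_neg, if_neg (hSS s.1 s.2 b.1 b.2)]
      · ring
      · intro h
        exact hb (Subtype.ext (he (hS b.2) (hS s.2) h.symm))
    · intro h
      exact absurd (Finset.mem_univ s) h
  have h3 := LinearMap.finrank_range_le R
  rw [hR, finrank_top, Module.finrank_fintype_fun_eq_card] at h3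
  rw [← Nat.card_coe_set_eq, Nat.card_eq_fintype_card]
  exact h3

theorem finrank_anti {V ι : Type*} [Fintype V] [Fintype ι] (τ : V → V) (h1 : ∀ x, τ (τ x) = x)
    (h2 : ∀ x, τ x ≠ x) (ι₀ : Set ι) (e : ι → V) (he : Set.InjOn e ι₀)
    (A : Submodule ℝ (ι → ℝ))
    (hA : ∀ f : V → ℝ, (∀ z, f (τ z) = - f z) → ∃ α ∈ A, ∀ i ∈ ι₀, α i = f (e i)) :
    ι₀.ncard ≤ 2 * Module.finrank ℝ A := by
  let n : V → ℕ := fun x => (Fintype.equivFin V x : ℕ)
  have hn : ∀ x, n x ≠ n (τ x) := fun x h =>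
    h2 x ((Fintype.equivFin V).injective (Fin.ext h)).symm
  have h3 := ncard_le_anti τ h1 ι₀ e he A hA (ι₀ ∩ {i | n (e i) < n (τ (e i))})
    Set.inter_subset_left (by
      rintro s ⟨_, hs⟩ s' ⟨_, hs'⟩ h
      rw [Set.mem_ofPred_eq, h, h1] at hs
      rw [Set.mem_ofPred_eq] at hs'
      exact absurd hs (not_lt.2 hs'.le))
  have h4 := ncard_le_anti τ h1 ι₀ e he A hA (ι₀ ∩ {i | n (τ (e i)) < n (e i)})
    Set.inter_subset_left (by
      rintro s ⟨_, hs⟩ s' ⟨_, hs'⟩ h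
      rw [Set.mem_ofPred_eq, h, h1] at hs
      rw [Set.mem_ofPred_eq] at hs'
      exact absurd hs (not_lt.2 hs'.le))
  have h5 : ι₀ ⊆ (ι₀ ∩ {i | n (e i) < n (τ (e i))}) ∪ (ι₀ ∩ {i | n (τ (e i)) < n (e i)}) := by
    intro i hi
    rcases lt_or_gt_of_ne (hn (e i)) with h | h
    · exact Or.inl ⟨hi, h⟩
    · exact Or.inr ⟨hi, h⟩
  have h6 := Set.ncard_le_ncard h5 (Set.toFinite _)
  have h7 := Set.ncard_union_le (ι₀ ∩ {i | n (e i) < n (τ (e i))})
    (ι₀ ∩ {i | n (τ (e i)) < n (e i)})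
  omega

end Pool.Agent.H97.Cyc
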