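import Pool.Agent.H97.Cyc.HarmB
import Pool.Agent.H97.Cyc.LinA

/-!
# The space of values of harmonic balanced functions is large

Part of `MP_644d19_co` (road colouring inside cycles). `U` merges the classes of `ι₀` (nonempty).
For `i ∈ ι₀` let `e i = U p` for a state `p` of the class `i` with type in `T` (`meet`; independent of
`p` by `merge`), of class `i` (`keep`), so `e` is injective on `ι₀`. All `U p`, `p` with type in `T`,
have the same type `κ'`: for `κ ∈ T` the word `u_κ` of `word` gives `σ (U p) = fin t κ u_κ` for all `p`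
of type `κ`, and with `i ∈ ι₀` and `meet` this is `σ (e i)`.

Facts used: for `f : V → ℝ` and `φ = fun p => f (U p)`: `Bal κ [] φ m` for all `κ ∈ T`, if
`Bal κ u_κ f m` (`f (U (run a p v)) = f (run a p (v ++ u_κ))`, `hyb_refl`). This is `bal_of_word`.

`one_mem`: the constant `1` is harmonic (`opn_congr`) and balanced with mean `1` (`mean_const`).

`one_not_mem`: if `1 ∈ Asp0`, with `P`: `P - 1` is harmonic and vanishes on the classes, so `P = 1` at
all states with type in `T` (`harm_zero`), so the mean of `P` over a type of `T` is `1`, but it is `0`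
(`v = []`; the type has a state by `meet`).

`halfC`, rank 2: `τ` of `exists_tau`. For `f` with `f ∘ τ = - f`: `Bal κ u_κ f 0` by `anti_bal`; so
`to_harm` gives `α ∈ Asp0` with `α i = f (e i)` on `ι₀`. `finrank_anti` for `Asp0`:
`ι₀.ncard ≤ 2 finrank Asp0`. `Asp0 ≤ Asp`, and `1 ∈ Asp`, `1 ∉ Asp0`, so
`finrank Asp0 < finrank Asp` (`Submodule.finrank_lt_finrank_of_lt`).

Rank `≥ 3`: `κ'` as above, `W₀` a word of minimal rank from `κ'` (`exists_rank` at `e i`),
`Z = ↥(img σ a κ' W₀)` has `rank` elements, `π i = run a (e i) W₀` (for `i ∈ ι₀`; any value for the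
other `i`). For `z ∈ img σ a κ' W₀`: `f y = if run a y W₀ = z then 1 else 0`, `Bal κ u_κ f (1/rank)`
by `bal_class`; `to_harm` gives `α ∈ Asp` with `α i = f (e i)` on `ι₀` and `P` with mean `1 / rank`,
so `α ≠ 0` (otherwise `P = 0` at the states with type in `T`, `harm_zero`, but its mean is
`1 / rank ≠ 0`). Separation of `i ≠ j` in `ι₀`: `exists_sep` for `e i ≠ e j` gives `W`, take
`z = run a (e i) W`. `finrank_cls`.
-/

set_option autoImplicit false

namespace Pool.Agent.H97.Cyc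

open Pool.Agent.H75.Bunchy Pool.Agent.H26.Bunchy Pool.Agent.H97.Bun
open scoped Classical

variable {V K E ι : Type*} [Fintype V] [Fintype E] {s t : E → K} {σ : V → K} {a : V → E → V}
  {e1 e2 : E} {pr : E → ℝ} {μ : V → ℝ} {L : Set E} {M : ℕ} {T : Set K} {c : V → Option ι}

lemma bal_of_word (ha : Typed s t σ a) {κ : K} {u : List E} {U : V → V} (hu : Valid s t κ u)
    (hU : ∀ p, σ p = κ → run a p u = U p) {f : V → ℝ} {m : ℝ}
    (h : Bal s t σ a μ e1 e2 κ u f m) : Bal s t σ a μ e1 e2 κ [] (fun p => f (U p)) m := by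
  intro j v u' hj hv hf hu'
  rw [hu'.nil_left, ← h j v u hj hv hf (hyb_refl u)]
  refine mean_congr fun p hp => ?_
  rw [List.append_nil, run_append, hU]
  rw [ha.run p v (by rw [hp]; exact hv), hp, hf]

lemma one_mem (hμ : ∀ p, 0 < μ p) (ha : Typed s t σ a) (hC : Cls s t σ a L M T c) :
    (fun _ => (1 : ℝ)) ∈ Asp s t σ a μ e1 e2 L M T c := by
  refine ⟨fun _ => 1, 1, ⟨fun p hp => ?_, fun κ _ => ?_⟩, fun _ _ _ _ => rfl⟩
  · exact opn_congr ha hC.cont M (hC.start (σ p) hp) fun w _ => rfl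
  · intro j v u' hj _ _ _
    exact mean_const hμ hj 1

lemma one_not_mem [Nonempty ι] (hμ : ∀ p, 0 < μ p) (ha : Typed s t σ a)
    (hC : Cls s t σ a L M T c) (hT : T.Nonempty) :
    (fun _ => (1 : ℝ)) ∉ Asp0 s t σ a μ e1 e2 L M T c := by
  rintro ⟨P, ⟨h1, h2⟩, h3⟩
  obtain ⟨κ, hκ⟩ := hT
  have hP : ∀ p, σ p ∈ T → P p = 1 := by
    intro p hp
    have h0 : (P - (fun _ => (1 : ℝ)) : V → ℝ) p = 0 := by
      refine harm_zero ha hC (P := (P - (fun _ => (1 : ℝ)) : V → ℝ)) ?_ ?_ hp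
      · intro q hq
        rw [map_sub, Pi.sub_apply, Pi.sub_apply, h1 q hq,
          opn_congr ha hC.cont M (hC.start (σ q) hq) (r := 1) fun w _ => rfl]
      · intro q i hq hi
        rw [Pi.sub_apply, h3 q i hq hi, sub_self]
    rw [Pi.sub_apply] at h0
    linarith
  obtain ⟨p, hp, _⟩ := hC.meet κ hκ (Classical.arbitrary ι)
  have h4 := h2 κ hκ κ [] [] ⟨p, hp⟩ trivial rfl (hyb_refl [])
  have h5 : mean σ μ κ (fun p => P (run a p ([] ++ []))) = mean σ μ κ (fun _ => (1 : ℝ)) := by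
    refine mean_congr fun q hq => ?_
    exact hP q (by rw [hq]; exact hκ)
  rw [h5, mean_const hμ ⟨p, hp⟩] at h4
  exact one_ne_zero h4

lemma halfC_two [Fintype ι] [Nonempty ι] (hs : s e1 = s e2) (ht : t e1 = t e2)
    (ha : Typed s t σ a) (hcn : Conn s σ a) (h : Stat s σ a pr μ) (hno : NoStable s t σ a)
    (hr : rank s t σ a = 2) (hC : Cls s t σ a L M T c) (hT : T.Nonempty) {ι₀ : Set ι}
    {U : V → V} (hU : Syn s t σ a T c ι₀ U) :
    ι₀.ncard + 2 ≤ 2 * Module.finrank ℝ (Asp s t σ a μ e1 e2 L M T c) := by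
  obtain ⟨τ, h1, h2, h3, h4⟩ := exists_tau ha hcn hno hr
  obtain ⟨κ₀, hκ₀⟩ := id hT
  choose p hpκ hpc using fun i => hC.meet κ₀ hκ₀ i
  have hkeep : ∀ i, c (U (p i)) = some i := fun i =>
    hU.keep (p i) i (by rw [hpκ i]; exact hκ₀) (hpc i)
  have he : Set.InjOn (fun i => U (p i)) ι₀ := by
    intro i _ j _ hij
    have h5 := hkeep i
    have h6 := hkeep j
    have h7 : U (p i) = U (p j) := hij
    rw [h7, h6] at h5
    exact (Option.some.inj h5).symm
  have h5 : ι₀.ncard ≤ 2 * Module.finrank ℝ (Asp0 s t σ a μ e1 e2 L M T c) := by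
    refine finrank_anti τ h1 h2 ι₀ (fun i => U (p i)) he _ fun f hf => ?_
    obtain ⟨α, P, hP, hα, hα'⟩ := to_harm (μ := μ) (e1 := e1) (e2 := e2) ha hC hT
      (φ := fun q => f (U q)) (m := 0) (fun κ hκ => by
        obtain ⟨u, hu, hu'⟩ := hU.word κ hκ
        exact bal_of_word ha hu hu' (anti_bal hs ht ha hcn h h1 h3 h4 hu hf))
      (ι₀ := ι₀) (β := fun i => f (U (p i))) (fun q i hq hi hi₀ => by
        show f (U q) = f (U (p i))
        rw [hU.merge q (p i) i hq (by rw [hpκ i]; exact hκ₀) hi (hpc i) hi₀])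
    exact ⟨α, ⟨P, hP, hα⟩, hα'⟩
  have h6 : Asp0 s t σ a μ e1 e2 L M T c < Asp s t σ a μ e1 e2 L M T c := by
    refine lt_of_le_of_ne ?_ ?_
    · rintro α ⟨P, hP, hα⟩
      exact ⟨P, 0, hP, hα⟩
    · intro heq
      refine one_not_mem (e1 := e1) (e2 := e2) h.mu_pos ha hC hT ?_
      rw [heq]
      exact one_mem h.mu_pos ha hC
  have h7 := Submodule.finrank_lt_finrank_of_lt h6
  omega

end Pool.Agent.H97.Cyc
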