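import Pool.Agent.H97.Bun.Lin

/-!
# Two facts of linear algebra, second version

Part of `MP_644d19_co` (road colouring inside cycles).

`finrank_anti`: `J = ↥ι₀` (finite). For `g : J → ℝ` let
`f_g z = ∑ i : J, g i * ((if z = e i then 1 else 0) - (if z = τ (e i) then 1 else 0))`, which
satisfies `f_g (τ z) = - f_g z`. Its values at `e j` are `((1 - Π) g) j`, where
`Π g j = ∑ i : J, g i * (if e j = τ (e i) then 1 else 0)` (as `e` is injective on `ι₀`). So the range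
of the linear map `1 - Π` of `J → ℝ` is contained in the image of `A` under the restriction
`(ι → ℝ) → (J → ℝ)`: `finrank (range (1 - Π)) ≤ finrank A`. Choose an injection `n : V → ℕ`
(`Fintype.equivFin`) and `ε j = if n (e j) < n (τ (e j)) then 1 else -1`; if `e j = τ (e i)` then
`ε j = - ε i`. So `Π (ε g) = - ε (Π g)`. For `g ∈ ker (1 - Π)`: `g = Π g`,
`(1 - Π) (ε g) = ε g + ε (Π g) = 2 ε g`, so `g ↦ ε g` maps `ker (1 - Π)` injectively into
`range (1 - Π)`. So `card J = finrank ker + finrank range ≤ 2 finrank range ≤ 2 finrank A`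
(`LinearMap.finrank_range_add_finrank_ker`).

`finrank_cls`: `J = ↥ι₀`, `R : (ι → ℝ) → (J → ℝ)` the restriction, `N = A.map R`; rank-nullity for the
restriction of `R` to `A`: `finrank A = finrank N + finrank ker`. Let `g` be the number of values of
`π` on `ι₀`. `card_le_classes` for `N`, `X = J`, `ι = ↥(π '' ι₀)` gives `g ≤ finrank N`,
`card J ≤ g * 2 ^ (finrank N - g)`. If some `z` is not a value of `π` on `ι₀`, its `α ≠ 0` of `hA`
vanishes on `ι₀`, so the kernel is not zero and `finrank A ≥ finrank N + 1`; this is the case if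
`g ≤ 2` (`hZ`). Numbers: let `d = finrank N`. If `g ≥ 3`: `d = g`: `card J ≤ g`; `d = g + 1`:
`card J ≤ 2 g`; `d ≥ g + 2`: `2 d ≥ 10`. If `g = 1`: `d = 1, 2, 3`: `card J ≤ 1, 2, 4`; `d ≥ 4`:
`2 (d + 1) ≥ 10`. If `g = 2`: `d = 2, 3`: `card J ≤ 2, 4`; `d ≥ 4`: `2 (d + 1) ≥ 10`. (`g ≥ 1` as
`ι₀` is not empty.)
-/

set_option autoImplicit false

namespace Pool.Agent.H97.Cyc

open Pool.Agent.H97.Bun
open scoped Classical

theorem finrank_cls {ι Z : Type*} [Fintype ι] [Fintype Z] (ι₀ : Set ι) (hne : ι₀.Nonempty)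
    (A : Submodule ℝ (ι → ℝ)) (π : ι → Z)
    (hA : ∀ z : Z, ∃ α ∈ A, α ≠ 0 ∧ ∀ i ∈ ι₀, α i = if π i = z then 1 else 0)
    (hsep : ∀ i ∈ ι₀, ∀ j ∈ ι₀, i ≠ j → ∃ α ∈ A, (∀ l ∈ ι₀, α l = 0 ∨ α l = 1) ∧ α i ≠ α j)
    (hZ : 3 ≤ Fintype.card Z) (h8 : ι₀.ncard ≤ 8) :
    ι₀.ncard + 2 ≤ 2 * Module.finrank ℝ A := by
  have _i1 : Fintype ↥ι₀ := Fintype.ofFinite _
  have _i2 : Fintype ↥(π '' ι₀) := Fintype.ofFinite _
  let R : (ι → ℝ) →ₗ[ℝ] (↥ι₀ → ℝ) := LinearMap.funLeft ℝ ℝ (Subtype.val : ↥ι₀ → ι)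
  have hR : ∀ (α : ι → ℝ) (x : ↥ι₀), R α x = α x.1 := fun α x => rfl
  let π' : ↥ι₀ → ↥(π '' ι₀) := fun j => ⟨π j.1, j.1, j.2, rfl⟩
  have hπ' : Function.Surjective π' := by
    rintro ⟨z, i, hi, rfl⟩
    exact ⟨⟨i, hi⟩, rfl⟩
  have hN : ∀ i, (fun x => @ite ℝ (π' x = i) (Classical.propDecidable _) 1 0) ∈ A.map R := by
    intro i
    obtain ⟨α, hα, -, h⟩ := hA i.1
    refine ⟨α, hα, ?_⟩
    funext x
    rw [hR, h x.1 x.2]
    by_cases h1 : π x.1 = i.1
    · have h2 : π' x = i := Subtype.ext h1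
      rw [if_pos h1, if_pos h2]
    · have h2 : ¬ π' x = i := fun h3 => h1 (congrArg Subtype.val h3)
      rw [if_neg h1, if_neg h2]
  have hs : ∀ x y : ↥ι₀, x ≠ y → ∃ c ∈ A.map R, (∀ z, c z = 0 ∨ c z = 1) ∧ c x ≠ c y := by
    intro x y hxy
    obtain ⟨α, hα, h1, h2⟩ := hsep x.1 x.2 y.1 y.2 (fun h => hxy (Subtype.ext h))
    exact ⟨R α, ⟨α, hα, rfl⟩, fun z => h1 z.1 z.2, h2⟩
  obtain ⟨h1, h3⟩ := card_le_classes (A.map R) π' hπ' hN hs
  have hrn := LinearMap.finrank_range_add_finrank_ker (R.domRestrict A)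
  rw [LinearMap.range_domRestrict] at hrn
  have hJ : Fintype.card ↥ι₀ = ι₀.ncard := by
    rw [← Nat.card_eq_fintype_card, Nat.card_coe_set_eq]
  rw [hJ] at h3
  have hg1 : 1 ≤ Fintype.card ↥(π '' ι₀) := by
    obtain ⟨i, hi⟩ := hne
    exact Fintype.card_pos_iff.2 ⟨⟨π i, i, hi, rfl⟩⟩
  have hker : Fintype.card ↥(π '' ι₀) ≤ 2 →
      1 ≤ Module.finrank ℝ (LinearMap.ker (R.domRestrict A)) := by
    intro h
    have hex : ∃ z, z ∉ π '' ι₀ := by
      by_contra hcon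
      push Not at hcon
      have h4 : Fintype.card Z ≤ Fintype.card ↥(π '' ι₀) :=
        Fintype.card_le_of_injective (fun z => (⟨z, hcon z⟩ : ↥(π '' ι₀)))
          (fun a b hab => congrArg Subtype.val hab)
      omega
    obtain ⟨z, hz⟩ := hex
    obtain ⟨α, hα, hα0, h5⟩ := hA z
    have hmem : (⟨α, hα⟩ : A) ∈ LinearMap.ker (R.domRestrict A) := by
      rw [LinearMap.mem_ker]
      funext x
      have h6 : (R.domRestrict A) ⟨α, hα⟩ x = α x.1 := rfl
      rw [h6, h5 x.1 x.2, if_neg]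
      · rfl
      · intro h7
        exact hz ⟨x.1, x.2, h7⟩
    have hnt : Nontrivial ↥(LinearMap.ker (R.domRestrict A)) := by
      refine ⟨⟨⟨⟨α, hα⟩, hmem⟩, 0, ?_⟩⟩
      intro h8
      apply hα0
      have h9 := congrArg (fun a : ↥(LinearMap.ker (R.domRestrict A)) => (a.1.1 : ι → ℝ)) h8
      exact h9
    exact (Module.finrank_pos (R := ℝ) (M := ↥(LinearMap.ker (R.domRestrict A))))
  generalize Fintype.card ↥(π '' ι₀) = g at *
  generalize Module.finrank ℝ ↥(A.map R) = d at *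
  generalize Module.finrank ℝ ↥(LinearMap.ker (R.domRestrict A)) = k at *
  generalize Module.finrank ℝ ↥A = a at *
  generalize ι₀.ncard = n at *
  by_cases hc0 : d = g
  · subst hc0
    rw [Nat.sub_self, pow_zero, mul_one] at h3
    by_cases h2 : d ≤ 2
    · have := hker h2
      omega
    · omega
  by_cases hc1 : d = g + 1
  · rw [hc1, Nat.add_sub_cancel_left, pow_one] at h3
    by_cases h2 : g ≤ 2
    · have := hker h2
      omega
    · omega
  by_cases h2 : g ≤ 2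
  · have := hker h2
    by_cases hc2 : d = g + 2
    · rw [hc2, Nat.add_sub_cancel_left] at h3
      omega
    · omega
  · omega

end Pool.Agent.H97.Cyc
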