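import Pool.Agent.H97.Cyc.HalfA
import Pool.Agent.H97.Cyc.LinC

/-!
# The space of values of harmonic balanced functions is large

Part of `MP_644d19_co` (road colouring inside cycles). `U` merges the classes of `ι₀` (nonempty).
For `i ∈ ι₀` let `e i = U p` for a state `p` of the class `i` with type in `T` (`meet`; independent of
`p` by `merge`), of class `i` (`keep`), so `e` is injective on `ι₀`. All `U p`, `p` with type in `T`,
have the same type `κ'`: for `κ ∈ T` the word `u_κ` of `word` gives `σ (U p) = fin t κ u_κ` for all `p`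
of type `κ`, and with `i ∈ ι₀` and `meet` this is `σ (e i)`.

Facts used: for `f : V → ℝ` and `φ = fun p => f (U p)`: `Bal κ [] φ m` for all `κ ∈ T`, if
`Bal κ u_κ f m` (`f (U (run a p v)) = f (run a p (v ++ u_κ))`, `hyb_refl`). This is `bal_of_word`.

`one_mem`: the constant `1` is harmonic (`opn_congr`) and balanced with mean `1` (`mean_const`).

`one_not_mem`: if `1 ∈ Asp0`, with `P`: `P - 1` is harmonic and vanishes on the classes, so `P = 1` at
all states with type in `T` (`harm_zero`), so the mean of `P` over a type of `T` is `1`, but it is `0`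
(`v = []`; the type has a state by `meet`).

`halfC`, rank 2: `τ` of `exists_tau`. For `f` with `f ∘ τ = - f`: `Bal κ u_κ f 0` by `anti_bal`; so
`to_harm` gives `α ∈ Asp0` with `α i = f (e i)` on `ι₀`. `finrank_anti` for `Asp0`:
`ι₀.ncard ≤ 2 finrank Asp0`. `Asp0 ≤ Asp`, and `1 ∈ Asp`, `1 ∉ Asp0`, so
`finrank Asp0 < finrank Asp` (`Submodule.finrank_lt_finrank_of_lt`).

Rank `≥ 3`: `κ'` as above, `W₀` a word of minimal rank from `κ'` (`exists_rank` at `e i`),
`Z = ↥(img σ a κ' W₀)` has `rank` elements, `π i = run a (e i) W₀` (for `i ∈ ι₀`; any value for the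
other `i`). For `z ∈ img σ a κ' W₀`: `f y = if run a y W₀ = z then 1 else 0`, `Bal κ u_κ f (1/rank)`
by `bal_class`; `to_harm` gives `α ∈ Asp` with `α i = f (e i)` on `ι₀` and `P` with mean `1 / rank`,
so `α ≠ 0` (otherwise `P = 0` at the states with type in `T`, `harm_zero`, but its mean is
`1 / rank ≠ 0`). Separation of `i ≠ j` in `ι₀`: `exists_sep` for `e i ≠ e j` gives `W`, take
`z = run a (e i) W`. `finrank_cls`.
-/

set_option autoImplicit false

namespace Pool.Agent.H97.Cyc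

open Pool.Agent.H75.Bunchy Pool.Agent.H26.Bunchy Pool.Agent.H97.Bun
open scoped Classical

variable {V K E ι : Type*} [Fintype V] [Fintype E] {s t : E → K} {σ : V → K} {a : V → E → V}
  {e1 e2 : E} {pr : E → ℝ} {μ : V → ℝ} {L : Set E} {M : ℕ} {T : Set K} {c : V → Option ι}

lemma halfC_three [Fintype ι] [Nonempty ι] (hs : s e1 = s e2) (ht : t e1 = t e2)
    (ha : Typed s t σ a) (hcn : Conn s σ a) (h : Stat s σ a pr μ) (hsu : ∀ e, ∃ p, s e = σ p)
    (hno : NoStable s t σ a) (hr : 3 ≤ rank s t σ a) (hC : Cls s t σ a L M T c)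
    (hT : T.Nonempty) {ι₀ : Set ι} (hne : ι₀.Nonempty) (h8 : ι₀.ncard ≤ 8) {U : V → V}
    (hU : Syn s t σ a T c ι₀ U) :
    ι₀.ncard + 2 ≤ 2 * Module.finrank ℝ (Asp s t σ a μ e1 e2 L M T c) := by
  obtain ⟨κ₀, hκ₀⟩ := hT
  obtain ⟨i₀, hi₀⟩ := hne
  -- representatives
  have hrep : ∀ i, ∃ p, σ p = κ₀ ∧ c p = some i := fun i => hC.meet κ₀ hκ₀ i
  choose rp hrp1 hrp2 using hrep
  have hrpT : ∀ i, σ (rp i) ∈ T := fun i => by rw [hrp1 i]; exact hκ₀
  set κ' : K := σ (U (rp i₀)) with hκ'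
  -- the words
  have hword : ∀ κ ∈ T, ∃ u, Valid s t κ u ∧ (∀ p, σ p = κ → run a p u = U p) ∧
      fin t κ u = κ' := by
    intro κ hκ
    obtain ⟨u, hu, hrun⟩ := hU.word κ hκ
    obtain ⟨q, hq1, hq2⟩ := hC.meet κ hκ i₀
    refine ⟨u, hu, hrun, ?_⟩
    have h1 : U q = U (rp i₀) := hU.merge q (rp i₀) i₀ (by rw [hq1]; exact hκ) (hrpT i₀) hq2
      (hrp2 i₀) hi₀
    have h2 := ha.run q u (by rw [hq1]; exact hu)
    rw [hrun q hq1, hq1, h1] at h2
    exact h2.symm
  have hty : ∀ i, σ (U (rp i)) = κ' := by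
    intro i
    obtain ⟨u, hu, hrun, hf⟩ := hword κ₀ hκ₀
    have h2 := ha.run (rp i) u (by rw [hrp1 i]; exact hu)
    rw [hrun (rp i) (hrp1 i), hrp1 i, hf] at h2
    exact h2
  -- the main construction
  have key : ∀ W, Valid s t κ' W → (img σ a κ' W).ncard = rank s t σ a → ∀ z ∈ img σ a κ' W,
      ∃ α ∈ Asp s t σ a μ e1 e2 L M T c, α ≠ 0 ∧
        ∀ i ∈ ι₀, α i = if run a (U (rp i)) W = z then 1 else 0 := by
    intro W hW hrW z hz
    have hbal : ∀ κ ∈ T, Bal s t σ a μ e1 e2 κ []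
        (fun p => if run a (U p) W = z then (1 : ℝ) else 0)
        (1 / (rank s t σ a : ℝ)) := by
      intro κ hκ
      obtain ⟨u, hu, hrun, hf⟩ := hword κ hκ
      refine bal_of_word (e1 := e1) (e2 := e2) (μ := μ)
        (f := fun y => if run a y W = z then (1 : ℝ) else 0) ha hu hrun ?_
      exact bal_class (e1 := e1) (e2 := e2) hs ht ha hcn h hsu hu (by rw [hf]; exact hW)
        (by rw [hf]; exact hrW) (by rw [hf]; exact hz)
    obtain ⟨α, P, hHB, hPα, hαβ⟩ := to_harm (ι₀ := ι₀)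
      (β := fun i => if run a (U (rp i)) W = z then (1 : ℝ) else 0) ha hC ⟨κ₀, hκ₀⟩ hbal
      (by
        intro p i hp hpi hi
        have h1 : U p = U (rp i) := hU.merge p (rp i) i hp (hrpT i) hpi (hrp2 i) hi
        change (if run a (U p) W = z then (1 : ℝ) else 0) = _
        rw [h1])
    refine ⟨α, ⟨P, _, hHB, hPα⟩, ?_, hαβ⟩
    intro hα0
    have h0 : ∀ p, σ p ∈ T → P p = 0 := fun p hp =>
      harm_zero ha hC hHB.1 (fun q i hq hqi => by rw [hPα q i hq hqi, hα0]; rfl) hp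
    have h1 := hHB.2 κ₀ hκ₀ κ₀ [] [] ⟨rp i₀, hrp1 i₀⟩ trivial rfl (hyb_refl _)
    have h2 : mean σ μ κ₀ (fun p => P (run a p ([] ++ []))) = mean σ μ κ₀ (fun _ => (0 : ℝ)) := by
      refine mean_congr fun p hp => ?_
      exact h0 p (by rw [hp]; exact hκ₀)
    rw [h2, mean_const h.mu_pos ⟨rp i₀, hrp1 i₀⟩] at h1
    have hr' : (0 : ℝ) < rank s t σ a := by
      have : 0 < rank s t σ a := by omega
      exact_mod_cast this
    have : (0 : ℝ) < 1 / (rank s t σ a : ℝ) := by positivity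
    linarith
  obtain ⟨W₀, hW₀, hr₀⟩ := exists_rank ha hcn (U (rp i₀))
  rw [← hκ'] at hW₀ hr₀
  let π : ι → ↥(img σ a κ' W₀) := fun i => ⟨run a (U (rp i)) W₀, ⟨U (rp i), hty i, rfl⟩⟩
  have hcard : Fintype.card ↥(img σ a κ' W₀) = rank s t σ a := by
    rw [← hr₀, ← Nat.card_eq_fintype_card, Nat.card_coe_set_eq]
  refine finrank_cls ι₀ ⟨i₀, hi₀⟩ (Asp s t σ a μ e1 e2 L M T c) π ?_ ?_ ?_ h8
  · rintro ⟨z, hz⟩
    obtain ⟨α, hα1, hα2, hα3⟩ := key W₀ hW₀ hr₀ z hz
    refine ⟨α, hα1, hα2, fun i hi => ?_⟩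
    rw [hα3 i hi]
    by_cases hx : run a (U (rp i)) W₀ = z
    · rw [if_pos hx, if_pos (Subtype.ext hx)]
    · rw [if_neg hx, if_neg (fun hh => hx (congrArg Subtype.val hh))]
  · intro i hi j hj hij
    have hUne : U (rp i) ≠ U (rp j) := by
      intro hh
      have h1 := hU.keep (rp i) i (hrpT i) (hrp2 i)
      have h2 := hU.keep (rp j) j (hrpT j) (hrp2 j)
      rw [hh, h2] at h1
      exact hij (Option.some.inj h1).symm
    obtain ⟨W, hW, hrW, hsep⟩ := exists_sep ha hcn hno (by rw [hty i, hty j]) hUne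
    rw [hty i] at hW hrW
    obtain ⟨α, hα1, -, hα3⟩ := key W hW hrW (run a (U (rp i)) W) ⟨U (rp i), hty i, rfl⟩
    refine ⟨α, hα1, fun l hl => ?_, ?_⟩
    · rw [hα3 l hl]
      split_ifs
      · exact Or.inr rfl
      · exact Or.inl rfl
    · rw [hα3 i hi, hα3 j hj, if_pos rfl, if_neg (fun hh => hsep hh.symm)]
      exact one_ne_zero
  · rw [hcard]
    exact hr

end Pool.Agent.H97.Cyc
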