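import Pool.Agent.H97.Cyc.HalfB

/-!
# The space of values of harmonic balanced functions is large

Part of `MP_644d19_co` (road colouring inside cycles). `U` merges the classes of `ι₀` (nonempty).
For `i ∈ ι₀` let `e i = U p` for a state `p` of the class `i` with type in `T` (`meet`; independent of
`p` by `merge`), of class `i` (`keep`), so `e` is injective on `ι₀`. All `U p`, `p` with type in `T`,
have the same type `κ'`: for `κ ∈ T` the word `u_κ` of `word` gives `σ (U p) = fin t κ u_κ` for all `p`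
of type `κ`, and with `i ∈ ι₀` and `meet` this is `σ (e i)`.

Facts used: for `f : V → ℝ` and `φ = fun p => f (U p)`: `Bal κ [] φ m` for all `κ ∈ T`, if
`Bal κ u_κ f m` (`f (U (run a p v)) = f (run a p (v ++ u_κ))`, `hyb_refl`). This is `bal_of_word`.

`one_mem`: the constant `1` is harmonic (`opn_congr`) and balanced with mean `1` (`mean_const`).

`one_not_mem`: if `1 ∈ Asp0`, with `P`: `P - 1` is harmonic and vanishes on the classes, so `P = 1` at
all states with type in `T` (`harm_zero`), so the mean of `P` over a type of `T` is `1`, but it is `0`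
(`v = []`; the type has a state by `meet`).

`halfC`, rank 2: `τ` of `exists_tau`. For `f` with `f ∘ τ = - f`: `Bal κ u_κ f 0` by `anti_bal`; so
`to_harm` gives `α ∈ Asp0` with `α i = f (e i)` on `ι₀`. `finrank_anti` for `Asp0`:
`ι₀.ncard ≤ 2 finrank Asp0`. `Asp0 ≤ Asp`, and `1 ∈ Asp`, `1 ∉ Asp0`, so
`finrank Asp0 < finrank Asp` (`Submodule.finrank_lt_finrank_of_lt`).

Rank `≥ 3`: `κ'` as above, `W₀` a word of minimal rank from `κ'` (`exists_rank` at `e i`),
`Z = ↥(img σ a κ' W₀)` has `rank` elements, `π i = run a (e i) W₀` (for `i ∈ ι₀`; any value for the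
other `i`). For `z ∈ img σ a κ' W₀`: `f y = if run a y W₀ = z then 1 else 0`, `Bal κ u_κ f (1/rank)`
by `bal_class`; `to_harm` gives `α ∈ Asp` with `α i = f (e i)` on `ι₀` and `P` with mean `1 / rank`,
so `α ≠ 0` (otherwise `P = 0` at the states with type in `T`, `harm_zero`, but its mean is
`1 / rank ≠ 0`). Separation of `i ≠ j` in `ι₀`: `exists_sep` for `e i ≠ e j` gives `W`, take
`z = run a (e i) W`. `finrank_cls`.
-/

set_option autoImplicit false

namespace Pool.Agent.H97.Cyc

open Pool.Agent.H75.Bunchy Pool.Agent.H26.Bunchy Pool.Agent.H97.Bun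
open scoped Classical

variable {V K E ι : Type*} [Fintype V] [Fintype E] {s t : E → K} {σ : V → K} {a : V → E → V}
  {e1 e2 : E} {pr : E → ℝ} {μ : V → ℝ} {L : Set E} {M : ℕ} {T : Set K} {c : V → Option ι}

theorem halfC [Fintype ι] [Nonempty ι] (hs : s e1 = s e2) (ht : t e1 = t e2)
    (ha : Typed s t σ a) (hcn : Conn s σ a) (h : Stat s σ a pr μ) (hsu : ∀ e, ∃ p, s e = σ p)
    (hno : NoStable s t σ a) (hr : 2 ≤ rank s t σ a) (hC : Cls s t σ a L M T c)
    (hT : T.Nonempty) {ι₀ : Set ι} (hne : ι₀.Nonempty) (h8 : ι₀.ncard ≤ 8) {U : V → V}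
    (hU : Syn s t σ a T c ι₀ U) :
    ι₀.ncard + 2 ≤ 2 * Module.finrank ℝ (Asp s t σ a μ e1 e2 L M T c) := by
  rcases Nat.lt_or_ge (rank s t σ a) 3 with h3 | h3
  · exact halfC_two hs ht ha hcn h hno (by omega) hC hT hU
  · exact halfC_three hs ht ha hcn h hsu hno h3 hC hT hne h8 hU

end Pool.Agent.H97.Cyc
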