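import Pool.Agent.H97.Cyc.Op

/-!
# Harmonic functions

Part of `MP_644d19_co` (road colouring inside cycles). `P` is harmonic if
`(op s σ a L ^ M) P p = P p` for all states `p` with type in `T`.

`harm_const`: let `p₁` be a state of the class `i` (with type in `T`) at which `P` is maximal
(`Set.exists_max_image` on the finite set of these states). For `q` in the class take `w₀` with
`run a p₁ w₀ = q` (`trans`); all words lead from `p₁` into the class (`closed`, and the type is in `T`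
by `step` and `ha.run`), so with `c = P p₁`, `δ = P p₁ - P q ≥ 0`, `opn_le` gives
`P p₁ ≤ P p₁ - (1 / card E) ^ M * δ`, so `δ ≤ 0` (`card E > 0`: there is a letter). So `P q = P p₁`.

`harm_zero`: `P` vanishes on the classes. Let `p₁` be a state with type in `T` at which `P` is
maximal. If `P p₁ > 0`: take `w₀` with `c (run a p₁ w₀) ≠ none` (`absorb`), so `P (run a p₁ w₀) = 0`;
`opn_le` with `c = δ = P p₁` gives `P p₁ ≤ P p₁ - (1 / card E) ^ M * P p₁`, a contradiction. The
same for `-P`.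

`to_harm`: let `C = ∑ p, |φ p|`, and `S` the set of the `ψ` with `|ψ p| ≤ C` for all `p`,
`Bal s t σ a μ e1 e2 κ [] ψ m` for all `κ ∈ T`, and `ψ p = β i` for `p` in the class `i ∈ ι₀` (type in
`T`). `S` is closed and bounded, so compact (`Metric.isCompact_of_isClosed_isBounded`; closedness:
each condition is an equation or inequality between continuous functions of `ψ`, `mean` is a
finite sum), convex (`bal_add`, `bal_smul`), contains `φ`, and is invariant under
`op s σ a L ^ M` (`opn_bound`, `bal_opn` with `step`, `opn_congr` with `closed`). `exists_fixed` gives `P`.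
`P` is constant on every class (`harm_const`); put `α i = P (a state of the class i)` (`meet` at a type
of `T`).
-/

set_option autoImplicit false

namespace Pool.Agent.H97.Cyc

open Pool.Agent.H75.Bunchy Pool.Agent.H26.Bunchy Pool.Agent.H97.Bun
open scoped Classical

variable {V K E ι : Type*} [Fintype V] [Fintype E] {s t : E → K} {σ : V → K} {a : V → E → V}
  {e1 e2 : E} {μ : V → ℝ} {L : Set E} {M : ℕ} {T : Set K} {c : V → Option ι}

private lemma harm_typ (ha : Typed s t σ a) (hC : Cls s t σ a L M T c) {x : V} (hx : σ x ∈ T)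
    {w : List E} (hw : LW s t L M (σ x) w) : σ (run a x w) ∈ T := by
  rw [ha.run x w hw.1]
  exact hC.step _ hx w hw

private lemma harm_pos (hC : Cls s t σ a L M T c) {x : V} (hx : σ x ∈ T) {δ : ℝ}
    (h : (1 / (Fintype.card E : ℝ)) ^ M * δ ≤ 0) : δ ≤ 0 := by
  obtain ⟨e, _, _⟩ := hC.start _ hx
  have h1 : 0 < Fintype.card E := Fintype.card_pos_iff.2 ⟨e⟩
  have h2 : (0 : ℝ) < (Fintype.card E : ℝ) := by exact_mod_cast h1
  have h3 : (0 : ℝ) < (1 / (Fintype.card E : ℝ)) ^ M := by positivity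
  by_contra hcon
  push Not at hcon
  have := mul_pos h3 hcon
  linarith

private lemma harm_le (ha : Typed s t σ a) (hC : Cls s t σ a L M T c) {P : V → ℝ}
    (hP : ∀ p, σ p ∈ T → (op s σ a L ^ M) P p = P p)
    (h0 : ∀ p i, σ p ∈ T → c p = some i → P p = 0) {p : V} (hp : σ p ∈ T) : P p ≤ 0 := by
  obtain ⟨p₁, hp₁, hmax⟩ := Set.exists_max_image {x : V | σ x ∈ T} P (Set.toFinite _) ⟨p, hp⟩
  by_contra hcon
  push Not at hcon
  have hp₁' : σ p₁ ∈ T := hp₁
  have hpos : 0 < P p₁ := lt_of_lt_of_le hcon (hmax p hp)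
  obtain ⟨w₀, hw₀, hc₀⟩ := hC.absorb p₁ hp₁'
  obtain ⟨i, hi⟩ := Option.ne_none_iff_exists'.1 hc₀
  have h1 : P (run a p₁ w₀) = 0 := h0 _ i (harm_typ ha hC hp₁' hw₀) hi
  have h2 := opn_le ha hC.cont M (hC.start _ hp₁') (φ := P) (c := P p₁) (δ := P p₁) hpos.le
    (fun w hw => hmax _ (harm_typ ha hC hp₁' hw)) hw₀ (by rw [h1]; linarith)
  rw [hP p₁ hp₁'] at h2
  have h3 := harm_pos hC hp₁' (δ := P p₁) (by linarith)
  linarith

theorem harm_const (ha : Typed s t σ a) (hC : Cls s t σ a L M T c) {P : V → ℝ}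
    (hP : ∀ p, σ p ∈ T → (op s σ a L ^ M) P p = P p) {p q : V} {i : ι} (hp : σ p ∈ T)
    (hq : σ q ∈ T) (hpi : c p = some i) (hqi : c q = some i) : P p = P q := by
  obtain ⟨p₁, hp₁, hmax⟩ := Set.exists_max_image {x : V | σ x ∈ T ∧ c x = some i} P
    (Set.toFinite _) ⟨p, hp, hpi⟩
  have key : ∀ q, σ q ∈ T → c q = some i → P q = P p₁ := by
    intro q hq hqi
    obtain ⟨w₀, hw₀, hr⟩ := hC.trans p₁ q i hp₁.1 hq hp₁.2 hqi
    have h1 : P q ≤ P p₁ := hmax q ⟨hq, hqi⟩
    have h2 := opn_le ha hC.cont M (hC.start _ hp₁.1) (φ := P) (c := P p₁) (δ := P p₁ - P q)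
      (by linarith)
      (fun w hw => hmax _ ⟨harm_typ ha hC hp₁.1 hw, hC.closed p₁ i hp₁.1 hp₁.2 w hw⟩) hw₀
      (by rw [hr]; linarith)
    rw [hP p₁ hp₁.1] at h2
    have h3 := harm_pos hC hp₁.1 (δ := P p₁ - P q) (by linarith)
    linarith
  rw [key p hp hpi, key q hq hqi]

theorem harm_zero (ha : Typed s t σ a) (hC : Cls s t σ a L M T c) {P : V → ℝ}
    (hP : ∀ p, σ p ∈ T → (op s σ a L ^ M) P p = P p)
    (h0 : ∀ p i, σ p ∈ T → c p = some i → P p = 0) {p : V} (hp : σ p ∈ T) : P p = 0 := by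
  refine le_antisymm (harm_le ha hC hP h0 hp) ?_
  have h1 := harm_le ha hC (P := -P)
    (fun q hq => by rw [map_neg, Pi.neg_apply, Pi.neg_apply, hP q hq])
    (fun q i hq hi => by rw [Pi.neg_apply, h0 q i hq hi, neg_zero]) hp
  rw [Pi.neg_apply] at h1
  linarith

end Pool.Agent.H97.Cyc
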