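import Mathlib

/-!
# A fixed point of a linear map in a compact convex invariant set

Part of `MP_644d19_co`. `X` finite, `T` linear, `S` compact, convex, nonempty, `T S ⊆ S`. For
`φ ∈ S` let `A n = (n+1)⁻¹ • ∑ k ∈ range (n+1), (T ^ k) φ ∈ S` (`Convex.sum_mem`). By compactness
(`IsCompact.tendsto_subseq`) a subsequence converges to some `P ∈ S`. `T` is continuous
(`LinearMap.continuous_of_finiteDimensional`), and
`T (A n) - A n = (n+1)⁻¹ • ((T ^ (n+1)) φ - φ) → 0` since `S` is bounded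
(`IsCompact.isBounded`). So `T P = P`.
-/

set_option autoImplicit false

namespace Pool.Agent.H97.Cyc

theorem exists_fixed {X : Type*} [Fintype X] (T : Module.End ℝ (X → ℝ)) {S : Set (X → ℝ)}
    (hS : IsCompact S) (hc : Convex ℝ S) (hne : S.Nonempty) (hT : ∀ φ ∈ S, T φ ∈ S) :
    ∃ φ ∈ S, T φ = φ := by
  classical
  obtain ⟨φ, hφ⟩ := hne
  have hpow : ∀ k : ℕ, (T ^ k) φ ∈ S := by
    intro k
    induction k with
    | zero => simpa using hφ
    | succ k ih =>
      rw [pow_succ', Module.End.mul_apply]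
      exact hT _ ih
  let A : ℕ → (X → ℝ) := fun n => ((n : ℝ) + 1)⁻¹ • ∑ k ∈ Finset.range (n + 1), (T ^ k) φ
  have hn : ∀ n : ℕ, (0 : ℝ) < (n : ℝ) + 1 := fun n => by positivity
  have hA : ∀ n, A n ∈ S := by
    intro n
    have h1 : A n = ∑ k ∈ Finset.range (n + 1), ((n : ℝ) + 1)⁻¹ • (T ^ k) φ := by
      simp only [A, Finset.smul_sum]
    rw [h1]
    refine hc.sum_mem (fun k _ => (inv_pos.2 (hn n)).le) ?_ (fun k _ => hpow k)
    rw [Finset.sum_const, Finset.card_range, nsmul_eq_mul]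
    push_cast
    exact mul_inv_cancel₀ (hn n).ne'
  obtain ⟨P, hP, u, hu, hlim⟩ := hS.tendsto_subseq hA
  refine ⟨P, hP, ?_⟩
  have hTc : Continuous T := LinearMap.continuous_of_finiteDimensional T
  obtain ⟨M, hM⟩ := hS.isBounded.exists_norm_le
  have hdiff : ∀ n, T (A n) - A n = ((n : ℝ) + 1)⁻¹ • ((T ^ (n + 1)) φ - φ) := by
    intro n
    simp only [A]
    rw [map_smul, ← smul_sub, map_sum]
    congr 1
    have h2 : ∀ k, T ((T ^ k) φ) = (T ^ (k + 1)) φ := by
      intro k
      rw [pow_succ', Module.End.mul_apply]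
    simp only [h2]
    rw [← Finset.sum_sub_distrib, Finset.sum_range_sub (fun k => (T ^ k) φ)]
    simp
  have h3 : Filter.Tendsto (fun n => T (A (u n)) - A (u n)) Filter.atTop (nhds (T P - P)) :=
    ((hTc.tendsto P).comp hlim).sub hlim
  have h4 : Filter.Tendsto (fun n => T (A (u n)) - A (u n)) Filter.atTop (nhds 0) := by
    have h5 : Filter.Tendsto (fun n : ℕ => ((n : ℝ) + 1)⁻¹ * (M + M)) Filter.atTop (nhds 0) := by
      have h6 : Filter.Tendsto (fun n : ℕ => ((n : ℝ) + 1)⁻¹) Filter.atTop (nhds 0) := by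
        have := tendsto_one_div_add_atTop_nhds_zero_nat (𝕜 := ℝ)
        simpa [one_div] using this
      simpa using h6.mul_const (M + M)
    have h7 : Filter.Tendsto (fun n => T (A n) - A n) Filter.atTop (nhds 0) := by
      refine squeeze_zero_norm (fun n => ?_) h5
      rw [hdiff, norm_smul, norm_inv, Real.norm_of_nonneg (hn n).le]
      refine mul_le_mul_of_nonneg_left ?_ (inv_pos.2 (hn n)).le
      exact (norm_sub_le _ _).trans (add_le_add (hM _ (hpow _)) (hM _ hφ))
    exact h7.comp hu.tendsto_atTop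
  exact sub_eq_zero.1 (tendsto_nhds_unique h3 h4)

end Pool.Agent.H97.Cyc
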