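import Pool.Agent.H97.Cyc.Op

/-!
# The averaging operator over the letters of a set

Part of `MP_644d19_co` (road colouring inside cycles).

* `op_flip`: `e1`, `e2` are both in `L` or both not; at `p ∈ δ` substitute `e ↦ swap e1 e2 e`
  (`Equiv.sum_comp`, `s_swap`); the cardinality does not involve the automaton.
* `exists_LW`: from a type that has a letter in `L` there is a word of every length (`hcont`).
* `op_upper`: the average of numbers `≤ c`, one of them `≤ c - δ`, at most `card E` of them.
* `opn_le`: induction on `M` (`pow_succ'`: `(op ^ (M+1)) φ = op ((op ^ M) φ)`). `M = 0`: `w₀ = []`.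
  Step: `w₀ = e₀ :: w₀'`. For each letter `e ∈ L` at `p` the state `a p e` has type `t e`, has a letter
  in `L` (`hcont`); words `w` of length `M` from `t e` give the words `e :: w` of length `M + 1`.
  Induction hypothesis with `δ = 0` (and any word, `exists_LW`) for `e ≠ e₀`, with `δ` and `w₀'`
  for `e₀`; then `op_upper` with `δ' = (1 / card E) ^ M * δ`.
* `opn_congr`: `(op ^ M) φ p = r` if `φ (run a p w) = r` for all words: `opn_le` for `φ`, `r` and for
  `-φ`, `-r` with `δ = 0`.
* `opn_bound`: `|op φ p| ≤ C` if `|φ| ≤ C` everywhere (an average, or `0`), then induction.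
* `bal_op`: for `p` of type `j` and `v` valid from `j` with `fin = κ` the state `run a p v` has type
  `κ` (`ha.run`), so `op φ (run a p v) = (∑ e, if e ∈ L ∧ s e = κ then φ (run a p (v ++ [e])) else 0) / n`
  with `n > 0` the number of these letters; the mean is additive (`mean_add`, `mean_smul`,
  induction over the finite sum, or exchange the two sums in the definition of `mean`), each term
  has the mean `m` by hypothesis (word `v ++ [e]`, `Hyb` for `[]`).
* `bal_opn`: induction on `M` with `bal_op`.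
-/

set_option autoImplicit false

namespace Pool.Agent.H97.Cyc

open Pool.Agent.H75.Bunchy Pool.Agent.H26.Bunchy Pool.Agent.H97.Bun
open scoped Classical

variable {V K E ι : Type*} [Fintype V] [Fintype E] {s t : E → K} {σ : V → K} {a : V → E → V}
  {e1 e2 : E} {μ : V → ℝ} {L : Set E} {M : ℕ}

omit [Fintype E] in
private lemma opB_mean_sum (σ : V → K) (μ : V → ℝ) (k : K) (F : Finset E) (f : E → V → ℝ) :
    mean σ μ k (fun p => ∑ e ∈ F, f e p) = ∑ e ∈ F, mean σ μ k (f e) := by
  unfold mean
  rw [Finset.sum_comm]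
  refine Finset.sum_congr rfl fun p _ => ?_
  split_ifs
  · rw [Finset.mul_sum]
  · simp

lemma bal_op (ha : Typed s t σ a) {κ : K} (hκ : ∃ e ∈ L, s e = κ) {φ : V → ℝ} {m : ℝ}
    (h : ∀ e ∈ L, s e = κ → Bal s t σ a μ e1 e2 (t e) [] φ m) :
    Bal s t σ a μ e1 e2 κ [] (op s σ a L φ) m := by
  intro j v u' hj hv hf hu
  have hu' : u' = [] := hu.nil_left
  subst hu'
  obtain ⟨F, hF⟩ : ∃ F : Finset E, F = Finset.univ.filter (fun e => e ∈ L ∧ s e = κ) := ⟨_, rfl⟩
  have hn : 0 < (F.card : ℝ) := by
    obtain ⟨e, he, hs⟩ := hκ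
    have : e ∈ F := by
      rw [hF]
      simp [he, hs]
    exact_mod_cast Finset.card_pos.2 ⟨e, this⟩
  have h1 : mean σ μ j (fun p => op s σ a L φ (run a p (v ++ []))) =
      mean σ μ j (fun p => 1 / (F.card : ℝ) * ∑ e ∈ F, φ (run a p (v ++ [e]))) := by
    refine mean_congr fun p hp => ?_
    have h2 : σ (run a p v) = κ := by
      rw [ha.run p v (by rw [hp]; exact hv), hp, hf]
    rw [List.append_nil, op_apply, h2, ← Finset.sum_filter, ← hF]
    have h3 : ∑ e ∈ F, φ (a (run a p v) e) = ∑ e ∈ F, φ (run a p (v ++ [e])) :=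
      Finset.sum_congr rfl fun e _ => by rw [run_append]; rfl
    rw [h3]
    ring
  rw [h1, mean_smul, opB_mean_sum]
  have h4 : ∀ e ∈ F, mean σ μ j (fun p => φ (run a p (v ++ [e]))) = m := by
    intro e he
    rw [hF] at he
    obtain ⟨h5, h6⟩ := (Finset.mem_filter.1 he).2
    have h7 := h e h5 h6 j (v ++ [e]) [] hj
      ((valid_append _ _ _).2 ⟨hv, by rw [hf]; exact ⟨h6, trivial⟩⟩)
      (by rw [fin_append]; rfl) List.Forall₂.nil
    simpa using h7
  rw [Finset.sum_congr rfl h4, Finset.sum_const, nsmul_eq_mul]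
  field_simp

theorem bal_opn (ha : Typed s t σ a) (hcont : ∀ e ∈ L, ∃ f ∈ L, s f = t e) (M : ℕ) {κ : K}
    (hκ : ∃ e ∈ L, s e = κ) {φ : V → ℝ} {m : ℝ}
    (h : ∀ w, LW s t L M κ w → Bal s t σ a μ e1 e2 (fin t κ w) [] φ m) :
    Bal s t σ a μ e1 e2 κ [] ((op s σ a L ^ M) φ) m := by
  induction M generalizing κ with
  | zero => simpa using h [] ⟨trivial, rfl, fun e he => absurd he List.not_mem_nil⟩
  | succ M ih =>
    rw [pow_succ', Module.End.mul_apply]
    refine bal_op ha hκ fun e he hse => ih (hcont e he) fun w hw => ?_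
    obtain ⟨q1, q2, q3⟩ := hw
    refine h (e :: w) ⟨⟨hse, q1⟩, by simp [q2], ?_⟩
    intro f hf
    rcases List.mem_cons.1 hf with rfl | hf
    · exact he
    · exact q3 f hf

end Pool.Agent.H97.Cyc
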