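import Pool.Agent.H97.Cyc.Harm
import Pool.Agent.H97.Cyc.OpB
import Pool.Agent.H97.Cyc.Lim

/-!
# Harmonic functions

Part of `MP_644d19_co` (road colouring inside cycles). `P` is harmonic if
`(op s σ a L ^ M) P p = P p` for all states `p` with type in `T`.

`harm_const`: let `p₁` be a state of the class `i` (with type in `T`) at which `P` is maximal
(`Set.exists_max_image` on the finite set of these states). For `q` in the class take `w₀` with
`run a p₁ w₀ = q` (`trans`); all words lead from `p₁` into the class (`closed`, and the type is in `T`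
by `step` and `ha.run`), so with `c = P p₁`, `δ = P p₁ - P q ≥ 0`, `opn_le` gives
`P p₁ ≤ P p₁ - (1 / card E) ^ M * δ`, so `δ ≤ 0` (`card E > 0`: there is a letter). So `P q = P p₁`.

`harm_zero`: `P` vanishes on the classes. Let `p₁` be a state with type in `T` at which `P` is
maximal. If `P p₁ > 0`: take `w₀` with `c (run a p₁ w₀) ≠ none` (`absorb`), so `P (run a p₁ w₀) = 0`;
`opn_le` with `c = δ = P p₁` gives `P p₁ ≤ P p₁ - (1 / card E) ^ M * P p₁`, a contradiction. The
same for `-P`.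

`to_harm`: let `C = ∑ p, |φ p|`, and `S` the set of the `ψ` with `|ψ p| ≤ C` for all `p`,
`Bal s t σ a μ e1 e2 κ [] ψ m` for all `κ ∈ T`, and `ψ p = β i` for `p` in the class `i ∈ ι₀` (type in
`T`). `S` is closed and bounded, so compact (`Metric.isCompact_of_isClosed_isBounded`; closedness:
each condition is an equation or inequality between continuous functions of `ψ`, `mean` is a
finite sum), convex (`bal_add`, `bal_smul`), contains `φ`, and is invariant under
`op s σ a L ^ M` (`opn_bound`, `bal_opn` with `step`, `opn_congr` with `closed`). `exists_fixed` gives `P`.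
`P` is constant on every class (`harm_const`); put `α i = P (a state of the class i)` (`meet` at a type
of `T`).
-/

set_option autoImplicit false

namespace Pool.Agent.H97.Cyc

open Pool.Agent.H75.Bunchy Pool.Agent.H26.Bunchy Pool.Agent.H97.Bun
open scoped Classical

variable {V K E ι : Type*} [Fintype V] [Fintype E] {s t : E → K} {σ : V → K} {a : V → E → V}
  {e1 e2 : E} {μ : V → ℝ} {L : Set E} {M : ℕ} {T : Set K} {c : V → Option ι}

private lemma mean_cont (σ : V → K) (μ : V → ℝ) (j : K) (g : V → V) :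
    Continuous fun ψ : V → ℝ => mean σ μ j (fun p => ψ (g p)) := by
  unfold mean
  refine continuous_finsetSum _ fun p _ => ?_
  by_cases hp : σ p = j
  · simp only [hp, if_true]
    exact continuous_const.mul (continuous_apply _)
  · simp only [hp, if_false]
    exact continuous_const

omit [Fintype E] in
private lemma set_closed (C : ℝ) (m : ℝ) (ι₀ : Set ι) (β : ι → ℝ) :
    IsClosed {ψ : V → ℝ | (∀ p, |ψ p| ≤ C) ∧ (∀ κ ∈ T, Bal s t σ a μ e1 e2 κ [] ψ m) ∧
      ∀ p i, σ p ∈ T → c p = some i → i ∈ ι₀ → ψ p = β i} := by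
  refine IsClosed.inter ?_ (IsClosed.inter ?_ ?_)
  · have : {ψ : V → ℝ | ∀ p, |ψ p| ≤ C} = ⋂ p, {ψ : V → ℝ | |ψ p| ≤ C} := by
      ext ψ; simp
    change IsClosed {ψ : V → ℝ | ∀ p, |ψ p| ≤ C}
    rw [this]
    exact isClosed_iInter fun p => isClosed_le (continuous_abs.comp (continuous_apply p))
      continuous_const
  · have : {ψ : V → ℝ | ∀ κ ∈ T, Bal s t σ a μ e1 e2 κ [] ψ m} =
        ⋂ (κ : K) (_ : κ ∈ T) (j : K) (v : List E) (u' : List E) (_ : ∃ p, σ p = j)
          (_ : Valid s t j v) (_ : fin t j v = κ) (_ : Hyb e1 e2 [] u'),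
          {ψ : V → ℝ | mean σ μ j (fun p => ψ (run a p (v ++ u'))) = m} := by
      ext ψ
      simp only [Set.mem_ofPred_eq, Set.mem_iInter]
      rfl
    change IsClosed {ψ : V → ℝ | ∀ κ ∈ T, Bal s t σ a μ e1 e2 κ [] ψ m}
    rw [this]
    exact isClosed_iInter fun κ => isClosed_iInter fun _ => isClosed_iInter fun j =>
      isClosed_iInter fun v => isClosed_iInter fun u' => isClosed_iInter fun _ =>
      isClosed_iInter fun _ => isClosed_iInter fun _ => isClosed_iInter fun _ =>
      isClosed_eq (mean_cont σ μ j _) continuous_const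
  · have : {ψ : V → ℝ | ∀ p i, σ p ∈ T → c p = some i → i ∈ ι₀ → ψ p = β i} =
        ⋂ (p : V) (i : ι) (_ : σ p ∈ T) (_ : c p = some i) (_ : i ∈ ι₀),
          {ψ : V → ℝ | ψ p = β i} := by
      ext ψ
      simp only [Set.mem_ofPred_eq, Set.mem_iInter]
    change IsClosed {ψ : V → ℝ | ∀ p i, σ p ∈ T → c p = some i → i ∈ ι₀ → ψ p = β i}
    rw [this]
    exact isClosed_iInter fun p => isClosed_iInter fun i => isClosed_iInter fun _ =>
      isClosed_iInter fun _ => isClosed_iInter fun _ =>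
      isClosed_eq (continuous_apply p) continuous_const

theorem to_harm (ha : Typed s t σ a) (hC : Cls s t σ a L M T c) (hT : T.Nonempty) {φ : V → ℝ}
    {m : ℝ} (hφ : ∀ κ ∈ T, Bal s t σ a μ e1 e2 κ [] φ m) {ι₀ : Set ι} {β : ι → ℝ}
    (hβ : ∀ p i, σ p ∈ T → c p = some i → i ∈ ι₀ → φ p = β i) :
    ∃ (α : ι → ℝ) (P : V → ℝ), HB s t σ a μ e1 e2 L M T P m ∧
      (∀ p i, σ p ∈ T → c p = some i → P p = α i) ∧ ∀ i ∈ ι₀, α i = β i := by
  set C : ℝ := ∑ p, |φ p| with hCdef
  have hC0 : 0 ≤ C := Finset.sum_nonneg fun p _ => abs_nonneg _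
  set S : Set (V → ℝ) := {ψ : V → ℝ | (∀ p, |ψ p| ≤ C) ∧
      (∀ κ ∈ T, Bal s t σ a μ e1 e2 κ [] ψ m) ∧
      ∀ p i, σ p ∈ T → c p = some i → i ∈ ι₀ → ψ p = β i} with hS
  have hclosed : IsClosed S := set_closed C m ι₀ β
  have hbdd : Bornology.IsBounded S := by
    refine (Metric.isBounded_iff_subset_closedBall (0 : V → ℝ)).2 ⟨C, fun ψ hψ => ?_⟩
    rw [mem_closedBall_zero_iff]
    exact (pi_norm_le_iff_of_nonneg hC0).2 fun p => by
      rw [Real.norm_eq_abs]; exact hψ.1 p
  have hcomp : IsCompact S := Metric.isCompact_of_isClosed_isBounded hclosed hbdd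
  have hconv : Convex ℝ S := by
    intro x hx y hy r q hr hq hrq
    refine ⟨fun p => ?_, fun κ hκ => ?_, fun p i hp hi hi₀ => ?_⟩
    · rw [Pi.add_apply, Pi.smul_apply, Pi.smul_apply, smul_eq_mul, smul_eq_mul]
      calc |r * x p + q * y p| ≤ |r * x p| + |q * y p| := abs_add_le _ _
        _ = r * |x p| + q * |y p| := by rw [abs_mul, abs_mul, abs_of_nonneg hr, abs_of_nonneg hq]
        _ ≤ r * C + q * C := add_le_add (mul_le_mul_of_nonneg_left (hx.1 p) hr)
            (mul_le_mul_of_nonneg_left (hy.1 p) hq)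
        _ = C := by rw [← add_mul, hrq, one_mul]
    · have h := bal_add (bal_smul r (hx.2.1 κ hκ)) (bal_smul q (hy.2.1 κ hκ))
      rwa [← add_mul, hrq, one_mul] at h
    · rw [Pi.add_apply, Pi.smul_apply, Pi.smul_apply, smul_eq_mul, smul_eq_mul,
        hx.2.2 p i hp hi hi₀, hy.2.2 p i hp hi hi₀, ← add_mul, hrq, one_mul]
  have hne : S.Nonempty := by
    refine ⟨φ, fun p => ?_, hφ, hβ⟩
    exact Finset.single_le_sum (f := fun p => |φ p|) (fun q _ => abs_nonneg _) (Finset.mem_univ p)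
  have hinv : ∀ ψ ∈ S, (op s σ a L ^ M) ψ ∈ S := by
    intro ψ hψ
    refine ⟨fun p => opn_bound M hC0 hψ.1 p, fun κ hκ => ?_, fun p i hp hi hi₀ => ?_⟩
    · exact bal_opn ha hC.cont M (hC.start κ hκ) fun w hw => hψ.2.1 _ (hC.step κ hκ w hw)
    · refine opn_congr ha hC.cont M (hC.start _ hp) fun w hw => ?_
      refine hψ.2.2 _ i ?_ (hC.closed p i hp hi w hw) hi₀
      rw [ha.run p w hw.1]
      exact hC.step _ hp w hw
  obtain ⟨P, hPS, hP⟩ := exists_fixed (op s σ a L ^ M) hcomp hconv hne hinv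
  have hPh : ∀ p, σ p ∈ T → (op s σ a L ^ M) P p = P p := fun p _ => by rw [hP]
  refine ⟨fun i => if h : ∃ p, σ p ∈ T ∧ c p = some i then P h.choose else 0, P,
    ⟨hPh, hPS.2.1⟩, fun p i hp hi => ?_, fun i hi => ?_⟩
  · have h : ∃ p, σ p ∈ T ∧ c p = some i := ⟨p, hp, hi⟩
    simp only [dif_pos h]
    exact harm_const ha hC hPh hp h.choose_spec.1 hi h.choose_spec.2
  · obtain ⟨κ, hκ⟩ := hT
    obtain ⟨q, hq, hqi⟩ := hC.meet κ hκ i
    have h : ∃ p, σ p ∈ T ∧ c p = some i := ⟨q, by rw [hq]; exact hκ, hqi⟩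
    simp only [dif_pos h]
    exact hPS.2.2 _ i h.choose_spec.1 h.choose_spec.2 hi

end Pool.Agent.H97.Cyc
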