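import Pool.Agent.H97.Cyc.ListCyc

/-!
# Heredity of the condition on a cycle

Part of `MP_644d19_co` (road colouring inside cycles). `Ψ : G → Q`, `θ (Ψ.v p) = v p`. `β` ends with `K`
(`β.getLast? = some K`), so walks over `rep β n` from a vertex over `K` end over `K`.

`along_append`: `Along v p (β₁ ++ β₂) q ↔ ∃ z, Along v p β₁ z ∧ Along v z β₂ q`, and
`rep β (m + n) = rep β m ++ rep β n`.

`exists_rec`: from every `y` over `K` some recurrent `y'` over `K` is reached (`Rcr`: every `t` reached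
from `y'` over `rep β n` reaches `y'` over some `rep β m`): the relation `R p q := ∃ n, Along v p (rep β n) q`
is transitive and reflexive; choose `y'` with `R y y'` and `{t | R y' t}` of minimal cardinality.

`rec_lift`: let `x'` be recurrent in `Q` over `K`. Take `y` with `Ψ.v y = x'` (`Ψ.v_surj`), `y'` recurrent
with `R y y'`; then `x'` reaches `Ψ.v y'` (`along_image`), so `Ψ.v y'` reaches `x'` over some
`rep β m`; lift this walk (`along_lift`): `Along v y' (rep β m) x` with `Ψ.v x = x'`. `x` is recurrent: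
`R x t` gives `R y' t`, so `R t y'`, `R y' x`.

`CycGood.image`: the conditions on `K`, `β` do not involve `G`; `Z ↦ Ψ.v '' Z` (`along_image`);
let `x'` over `K` have at least two followers over `J` and be recurrent in `Q`, and let `x` be the
recurrent vertex of `rec_lift`: its followers over `J` map onto those of `x'`
(`followersOver_image`), so it has at least two; so `x` has two consecutive return numbers and
`x'` too (`along_image`).
-/

set_option autoImplicit false

namespace Pool.Agent.H97.Cyc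

open Pool.Agent.H75.Bunchy Pool.Agent.H97.Bun
open scoped Classical

variable {G Q H : Graph}

/-- recurrent over `K`, `β` -/
def Rcr (v : G.V → H.V) (β : List H.V) (x : G.V) : Prop :=
  ∀ n t, Along v x (rep β n) t → ∃ m, Along v t (rep β m) x

/-- The condition on `(I, J)`: there is a simple cycle `K, β` of `H` such that for some `n` and some set
`Z` of at most eight vertices every vertex over `K` reaches `Z` by a walk over the `n`-fold cycle, and
either `(I, J)` does not occur in the cycle, or `K = I` and every vertex over `I` with at least two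
followers over `J` that is recurrent over the cycle returns to itself after some `n` and after
`n + 1` rounds. -/
def CycGood (v : G.V → H.V) (I J : H.V) : Prop :=
  ∃ (K : H.V) (β : List H.V), β.getLast? = some K ∧ β.Nodup ∧
    (∀ ab ∈ (K :: β).zip β, ab.2 ∈ H.Followers ab.1) ∧
    (∃ (Z : Set G.V) (n : ℕ), Z.ncard ≤ 8 ∧ ∀ q, v q = K → ∃ z ∈ Z, Along v q (rep β n) z) ∧
    ((I, J) ∉ (K :: β).zip β ∨
      (K = I ∧ ∀ x, v x = K → 2 ≤ (FollowersOver v x J).ncard → Rcr v β x →
        ∃ n, Along v x (rep β n) x ∧ Along v x (rep β (n + 1)) x))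

lemma along_append (v : G.V → H.V) (β₁ β₂ : List H.V) (p q : G.V) :
    Along v p (β₁ ++ β₂) q ↔ ∃ z, Along v p β₁ z ∧ Along v z β₂ q := by
  induction β₁ generalizing p with
  | nil =>
    constructor
    · intro h
      exact ⟨p, rfl, h⟩
    · rintro ⟨z, hz, h⟩
      have hz' : p = z := hz
      rw [hz']
      exact h
  | cons K β₁ ih =>
    constructor
    · rintro ⟨p', hp', h⟩
      obtain ⟨z, hz, h2⟩ := (ih p').1 h
      exact ⟨z, ⟨p', hp', hz⟩, h2⟩
    · rintro ⟨z, ⟨p', hp', hz⟩, h2⟩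
      exact ⟨p', hp', (ih p').2 ⟨z, hz, h2⟩⟩

lemma rep_add {α : Type*} (β : List α) (m n : ℕ) : rep β (m + n) = rep β m ++ rep β n := by
  unfold rep
  rw [List.replicate_add, List.flatten_append]

private lemma hered_trans (v : G.V → H.V) (β : List H.V) {p q r : G.V} {m n : ℕ}
    (h1 : Along v p (rep β m) q) (h2 : Along v q (rep β n) r) : Along v p (rep β (m + n)) r := by
  rw [rep_add, along_append]
  exact ⟨q, h1, h2⟩

lemma exists_rec (v : G.V → H.V) (β : List H.V) (y : G.V) :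
    ∃ y' n, Along v y (rep β n) y' ∧ Rcr v β y' := by
  let S : G.V → Set G.V := fun p => {t | ∃ n, Along v p (rep β n) t}
  have hrefl : ∀ p, p ∈ S p := fun p => ⟨0, rfl⟩
  have hsub : ∀ p q, q ∈ S p → S q ⊆ S p := by
    rintro p q ⟨m, hm⟩ t ⟨n, hn⟩
    exact ⟨m + n, hered_trans v β hm hn⟩
  obtain ⟨y', hy', hmin⟩ := Set.exists_min_image (S y) (fun z => (S z).ncard) (Set.toFinite _)
    ⟨y, hrefl y⟩
  obtain ⟨n, hn⟩ := id hy'
  refine ⟨y', n, hn, fun k t ht => ?_⟩
  have h1 : t ∈ S y' := ⟨k, ht⟩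
  have h2 : S t = S y' := Set.eq_of_subset_of_ncard_le (hsub y' t h1) (hmin t (hsub y y' hy' h1))
    (Set.toFinite _)
  have h3 : y' ∈ S t := by
    rw [h2]
    exact hrefl y'
  exact h3

lemma rec_lift (Ψ : RightResolver G Q) (θ : Q.V → H.V) (v : G.V → H.V)
    (hv : ∀ p, θ (Ψ.v p) = v p) (β : List H.V) (x' : Q.V) (hx' : Rcr θ β x') :
    ∃ x, Ψ.v x = x' ∧ Rcr v β x := by
  obtain ⟨y, rfl⟩ := Ψ.v_surj x'
  obtain ⟨y', n, hn, hy'⟩ := exists_rec v β y
  obtain ⟨m, hm⟩ := hx' n (Ψ.v y') (along_image Ψ θ v hv y' _ y hn)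
  obtain ⟨x, hx, hx2⟩ := along_lift Ψ θ v hv _ y' _ hm
  refine ⟨x, hx, fun k t ht => ?_⟩
  obtain ⟨l, hl⟩ := hy' _ t (hered_trans v β hx2 ht)
  exact ⟨l + m, hered_trans v β hl hx2⟩

theorem CycGood.image (Ψ : RightResolver G Q) (θ : Q.V → H.V) (v : G.V → H.V)
    (hv : ∀ p, θ (Ψ.v p) = v p) (I J : H.V) (h : CycGood v I J) : CycGood θ I J := by
  obtain ⟨K, β, h1, h2, h3, ⟨Z, n, hZ, hZ'⟩, h5⟩ := h
  refine ⟨K, β, h1, h2, h3, ⟨Ψ.v '' Z, n, (Set.ncard_image_le (Set.toFinite _)).trans hZ,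
    fun c hc => ?_⟩, ?_⟩
  · obtain ⟨q, rfl⟩ := Ψ.v_surj c
    obtain ⟨t, ht, hal⟩ := hZ' q (by rw [← hv]; exact hc)
    exact ⟨Ψ.v t, ⟨t, ht, rfl⟩, along_image Ψ θ v hv t _ q hal⟩
  · rcases h5 with h5 | ⟨h5, h6⟩
    · exact Or.inl h5
    · refine Or.inr ⟨h5, fun x' hx' hJ hrec => ?_⟩
      obtain ⟨x, rfl, hx⟩ := rec_lift Ψ θ v hv β x' hrec
      rw [followersOver_image Ψ θ v hv] at hJ
      obtain ⟨k, hk1, hk2⟩ := h6 x (by rw [← hv]; exact hx')
        (hJ.trans (Set.ncard_image_le (Set.toFinite _))) hx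
      exact ⟨k, along_image Ψ θ v hv x _ x hk1, along_image Ψ θ v hv x _ x hk2⟩

end Pool.Agent.H97.Cyc
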