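import Pool.Agent.H97.Cyc.HighB

/-!
# A selection of followers with a unique highest tree

Part of `MP_644d19_co` (road colouring inside cycles); this is the combinatorial lemma of Trahtman's
road colouring theorem. `F p` is the set of followers of `p`; a selection is `α` with `α p ∈ F p`.
`UH α`: for some `L`, `r` there is a point of level `> L`, and all points of level `> L` have the
root `r`.

`caseA`: all points are periodic for `α`, `r ≠ α p₀`; `α' = Function.update α p₀ r` has `UH` with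
`L = 0`. Put `q = α p₀`. `q` is not a value of `α'` (`α` is injective), so `q ∉ cyc α'`. Every
`y ∉ cyc α'` is in the `α'`-orbit of `q`: let `B` be the set of the `y ∉ cyc α'` that are not;
each `z ∈ B` has an `α'`-preimage in `B` (`z ≠ q`, so `z = α z'` with `z' ≠ p₀`, `α' z' = z`;
`z' ∉ cyc α'`, and `z'` is not in the orbit of `q`). So `B ⊆ α' '' B`, so `α'` permutes `B`, so the
points of `B` are periodic, `B = ∅` (compare `card_D` in `LevB.lean`). So all `y ∉ cyc α'` have the
root of `q` (`lev_iter`; `y = α'^[i] q ∉ cyc α'` gives `i < lev α' q`).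

`uhA`: `α₁ = Function.update α a p`, `a ∉ cyc α₁`, all levels for `α` are `≤ L`, `lev α p = L`.
`p` does not reach `a` (`not_reach`), so `lev α₁ p = L` (`upd_lev`), `lev α₁ a = L + 1`
(`lev_succ`, `α₁ a = p`). A point `y` with `lev α₁ y > L` reaches `a` (otherwise `upd_lev`), so has
the root of `a` (`upd_reach`).

`b4b`: `α` has the maximal number of periodic points among the selections, all levels are `≤ L`,
`0 < L`, `lev α p = L`, `p ∈ F a`, `a ∈ cyc α`, `a ∈ cyc α₁`, `lev α₁ (α a) = L`,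
`b = α^[L-1] p`, `e ∈ F b`, `e ≠ root α p` (`= α b`). Then some selection has `UH`. Proof:
`b ∉ cyc α` (`iter_not_mem`). `α₂ = Function.update α b e`. If `b ∈ cyc α₂`, `cyc_lt` contradicts
the maximality. So `b ∉ cyc α₂`, `cyc α₂ = cyc α` (`cyc_eq`), `e` does not reach `b`
(`not_reach`), `lev α₂ e = lev α e`, `lev α₂ b = lev α e + 1`, `root α₂ b = root α e`. As
`α₂^[L-1] p = b` (`upd_iter`; `α^[i] p ≠ b` for `i < L - 1` by the levels `lev_iter`):
`lev α₂ p = L + lev α e`, `root α₂ p = root α e` (`lev_iter` for `α₂`, or `upd_reach` and `lev_eq`).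
(1) A point `y` with `lev α₂ y > L` reaches `b` under `α`, so has the root of `b` (`upd_reach`).
If `lev α e > 0`: `UH α₂` with `L`, the point `p`.
Let `e ∈ cyc α`. So `lev α₂ p = L`, `root α₂ p = root α₂ b = e`. `α₃ = Function.update α₂ a p`.
`a ≠ b`. `a ∈ cyc α₂`, `p ∉ cyc α₂`.
 * `a ∉ cyc α₃`: `p` does not reach `a` under `α₂`, `lev α₃ p = L`, `root α₃ p = e`,
   `lev α₃ a = L + 1`, `root α₃ a = e`. `UH α₃` with `L`, `r = e`: let `lev α₃ y > L`. If `y`
   reaches `a` under `α₂`: `upd_reach`. If not: `lev α₂ y = lev α₃ y > L`, so by (1)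
   `root α₃ y = root α₂ y = root α₂ b = e`.
 * `a ∈ cyc α₃`: by `levB` for `(α₂, a, p)`: `lev α₂ y < lev α₃ y → root α₃ y = e`; by `cnt`:
   `(cyc α₂).ncard + L ≤ (cyc α₃).ncard + lev α₃ d`, `d = α₂ a = α a`, and
   `(cyc α₃).ncard ≤ (cyc α).ncard`, so `L ≤ lev α₃ d`. `UH α₃` with `L`, `r = e`, if
   `L < lev α₃ d`: let `lev α₃ y > L`; if `lev α₂ y < lev α₃ y`, fine. Otherwise
   `lev α₂ y > L`, so `y` reaches `b` under `α`, at time `n` (least), `n < lev α y ≤ L` since
   `b ∉ cyc α`. The points before are not periodic for `α`, so `≠ a`, and `≠ b`, so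
   `α₃^[n] y = b`; and `b ∈ cyc α₃` (`a ∈ cyc α₃`, `α₃ a = p`, `α₃^[L-1] p = b` since the points
   before are not periodic for `α`), so `lev α₃ y ≤ n < L`, a contradiction.
   If `lev α₃ d = L`: `d ∈ cyc α`. `lev α d = 0 < L = lev α₁ d`, so `root α₁ d = root α p` by
   `levB`, that is `α₁^[L] d = root α p`; the points `α₁^[i] d`, `i < L`, are not in `cyc α₁`, so
   `≠ a`, so `α₁^[L] d = α^[L] d` (`upd_iter'`). In the same way `lev α₂ d = 0 < lev α₃ d`, so
   `α₃^[L] d = root α₃ d = e`, and `α₃^[L] d = α₂^[L] d = α^[L] d` (the points `α^[i] d` are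
   periodic for `α`, so `≠ b`). So `e = root α p`, a contradiction.

`exists_UH`: choose a selection `α` with the maximal number of periodic points
(`Finite.exists_max` on the selections). If all points are periodic: `caseA` with one of
`r₁, r₂ ≠ α p₀`. Otherwise let `L > 0` be the maximal level, `lev α p = L`. `p ∉ cyc α` has no
`α`-preimage (its level would be `L + 1`). By `hsc` (path from `α p ≠ p` to `p`, last step,
`Relation.ReflTransGen.cases_tail`) there is `a` with `p ∈ F a`. `α₁ = Function.update α a p` is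
a selection. If `a ∉ cyc α₁`: `uhA`. If `a ∈ cyc α₁`, `a ∉ cyc α`: `cyc_lt`, contradiction. So
`a ∈ cyc α ∩ cyc α₁`. `cnt`: `(cyc α).ncard + L ≤ (cyc α₁).ncard + lev α₁ (α a)`. If some point
has `lev α₁ y > L`: `UH α₁` with `L`, `r = root α p` (`levB`; `lev α y ≤ L`). Otherwise
`lev α₁ (α a) ≤ L`, so `lev α₁ (α a) = L` and `(cyc α₁).ncard = (cyc α).ncard` is maximal. Let
`b = α^[L-1] p`, `d = α a`, `c = α₁^[L-1] d`, `r = root α p = root α₁ d` (`levB`). If `F b ≠ {r}`:
`b4b` for `α`. If `F c ≠ {r}`: `b4b` for `α₁`, `p := d`, `a := a`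
(`Function.update α₁ a d = α`, `lev α (α₁ a) = lev α p = L`). If both are `{r}`: `b = c` by
`hbunch`, but `b ∉ cyc α` and `c = α^[L-1] d ∈ cyc α` (`upd_iter'`), a contradiction.
(`F b`, `F c` are nonempty: `α b = r ∈ F b`, `α₁ c = r`.)

`exists_highest`: let `L₁` be the maximal level of the selection with `UH`: `L₁ > L`. A point `y`
with `α^[L₁ - 1] y ∉ cyc α` has level `L₁` (`iter_mem`), so `α^[L₁] y = root α y = r`.
-/

set_option autoImplicit false

namespace Pool.Agent.H97.Cyc

open scoped Classical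

variable {V : Type*}

variable [Finite V]

theorem exists_UH {F : V → Set V} (hF : ∀ z, (F z).Nonempty)
    (hsc : ∀ p q, Relation.ReflTransGen (fun p q => q ∈ F p) p q)
    (hbunch : ∀ p q r, F p = {r} → F q = {r} → p = q) {p₀ r₁ r₂ : V} (h1 : r₁ ∈ F p₀)
    (h2 : r₂ ∈ F p₀) (h12 : r₁ ≠ r₂) : ∃ β : V → V, (∀ z, β z ∈ F z) ∧ UH β := by
  -- a selection with the maximal number of periodic points
  obtain ⟨α, hα, hmax⟩ : ∃ α : V → V, (∀ z, α z ∈ F z) ∧
      ∀ β : V → V, (∀ z, β z ∈ F z) → (cyc β).ncard ≤ (cyc α).ncard := by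
    have hne : ∃ α : V → V, ∀ z, α z ∈ F z := ⟨fun z => (hF z).some, fun z => (hF z).some_mem⟩
    obtain ⟨α, hα, hm⟩ := Set.exists_max_image {α : V → V | ∀ z, α z ∈ F z}
      (fun α => (cyc α).ncard) (Set.toFinite _) hne
    exact ⟨α, hα, hm⟩
  have hupd : ∀ (β : V → V) (x y : V), (∀ z, β z ∈ F z) → y ∈ F x →
      ∀ z, Function.update β x y z ∈ F z := by
    intro β x y hβ hy z
    by_cases hz : z = x
    · subst hz
      rw [Function.update_self]
      exact hy
    · rw [Function.update_of_ne hz]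
      exact hβ z
  by_cases hall : ∀ y, y ∈ cyc α
  · by_cases hr : r₁ = α p₀
    · have hr2 : r₂ ≠ α p₀ := fun h => h12 (hr.trans h.symm)
      exact ⟨_, hupd α p₀ r₂ hα h2, caseA hall hr2⟩
    · exact ⟨_, hupd α p₀ r₁ hα h1, caseA hall hr⟩
  push Not at hall
  obtain ⟨y₀, hy₀⟩ := hall
  -- a point of maximal level
  obtain ⟨p, -, hpm⟩ := Set.exists_max_image (Set.univ : Set V) (lev α) (Set.toFinite _)
    ⟨y₀, Set.mem_univ _⟩
  have hL : ∀ y, lev α y ≤ lev α p := fun y => hpm y (Set.mem_univ _)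
  obtain ⟨L, hLp⟩ : ∃ L, lev α p = L := ⟨_, rfl⟩
  have hL0 : 0 < L := by
    rcases Nat.eq_zero_or_pos L with h | h
    · exfalso
      apply hy₀
      rw [← lev_eq_zero]
      have := hL y₀
      omega
    · exact h
  rw [hLp] at hL
  have hpc : p ∉ cyc α := by
    intro h
    have := lev_eq_zero.2 h
    omega
  -- the follower relation has an edge into `p`
  obtain ⟨a, hpa⟩ : ∃ a, p ∈ F a := by
    have hne : α p ≠ p := by
      intro h
      apply hpc
      exact mem_cyc_iff.2 ⟨1, Nat.one_pos, h⟩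
    rcases (Relation.ReflTransGen.cases_tail (hsc (α p) p)) with h | ⟨c, _, hc⟩
    · exact absurd h.symm hne
    · exact ⟨c, hc⟩
  have hs1 := hupd α a p hα hpa
  by_cases ha : a ∉ cyc (Function.update α a p)
  · exact ⟨_, hs1, uhA ha hL hLp⟩
  push Not at ha
  have ha0 : a ∈ cyc α := by
    by_contra hcon
    have h3 := cyc_lt hcon ha
    have h4 := hmax _ hs1
    omega
  have hc := cnt (p := p) ha0 ha
  by_cases hbig : ∃ y, L < lev (Function.update α a p) y
  · refine ⟨_, hs1, L, root α p, hbig, fun y hy => ?_⟩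
    apply levB ha0 ha hpc
    have := hL y
    omega
  push Not at hbig
  have hm1 := hmax _ hs1
  have hd1 := hbig (α a)
  have hd : lev (Function.update α a p) (α a) = L := by omega
  have hcard : (cyc (Function.update α a p)).ncard = (cyc α).ncard := by omega
  have hdc : α a ∈ cyc α := cyc_map ha0
  have hrr : root (Function.update α a p) (α a) = root α p := by
    apply levB ha0 ha hpc
    rw [hd, lev_eq_zero.2 hdc]
    exact hL0
  -- the vertex before the root of `p`
  have hαb : α (α^[L - 1] p) = root α p := by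
    unfold root
    rw [hLp, ← Function.iterate_succ_apply' α]
    congr 1
    omega
  by_cases hFb : ∃ e ∈ F (α^[L - 1] p), e ≠ root α p
  · obtain ⟨e, he, her⟩ := hFb
    exact b4b hα hmax hL0 hL hLp hpa ha0 ha hd he her
  push Not at hFb
  have hFb' : F (α^[L - 1] p) = {root α p} := by
    apply Set.Subset.antisymm
    · intro e he
      exact hFb e he
    · rintro e rfl
      rw [← hαb]
      exact hα _
  obtain ⟨α₁, hα₁⟩ : ∃ α₁, Function.update α a p = α₁ := ⟨_, rfl⟩
  rw [hα₁] at hs1 ha hd hrr hbig hcard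
  have hα₁c : α₁ (α₁^[L - 1] (α a)) = root α p := by
    rw [← hrr]
    unfold root
    rw [hd, ← Function.iterate_succ_apply' α₁]
    congr 1
    omega
  have hback : Function.update α₁ a (α a) = α := by
    rw [← hα₁, Function.update_idem, Function.update_eq_self]
  by_cases hFc : ∃ e ∈ F (α₁^[L - 1] (α a)), e ≠ root α p
  · obtain ⟨e, he, her⟩ := hFc
    refine b4b (α := α₁) hs1 ?_ (a := a) (p := α a) hL0 hbig hd (hα a) ha ?_ ?_ he ?_
    · intro β hβ
      rw [hcard]
      exact hmax β hβ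
    · rw [hback]
      exact ha0
    · rw [hback, ← hα₁, Function.update_self]
      exact hLp
    · rw [hrr]
      exact her
  push Not at hFc
  have hFc' : F (α₁^[L - 1] (α a)) = {root α p} := by
    apply Set.Subset.antisymm
    · intro e he
      exact hFc e he
    · rintro e rfl
      rw [← hα₁c]
      exact hs1 _
  exfalso
  have hbc := hbunch _ _ _ hFb' hFc'
  have hbm : α^[L - 1] p ∉ cyc α := iter_not_mem (by omega)
  apply hbm
  rw [hbc]
  have hit : α₁^[L - 1] (α a) = α^[L - 1] (α a) := by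
    rw [← hα₁]
    refine upd_iter' fun i hi h => ?_
    rw [hα₁] at h
    have h8 : α₁^[i] (α a) ∉ cyc α₁ := iter_not_mem (by omega)
    rw [h] at h8
    exact h8 ha
  rw [hit]
  exact cyc_iter hdc _

theorem exists_highest {F : V → Set V} (hF : ∀ z, (F z).Nonempty)
    (hsc : ∀ p q, Relation.ReflTransGen (fun p q => q ∈ F p) p q)
    (hbunch : ∀ p q r, F p = {r} → F q = {r} → p = q) {p₀ r₁ r₂ : V} (h1 : r₁ ∈ F p₀)
    (h2 : r₂ ∈ F p₀) (h12 : r₁ ≠ r₂) : ∃ (α : V → V) (L : ℕ), (∀ z, α z ∈ F z) ∧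
      (∀ y, α^[L + 1] y ∈ cyc α) ∧ (∃ y, α^[L] y ∉ cyc α) ∧
      ∀ y z, α^[L] y ∉ cyc α → α^[L] z ∉ cyc α → α^[L + 1] y = α^[L + 1] z := by
  obtain ⟨α, hα, L, r, ⟨y₁, hy₁⟩, hr⟩ := exists_UH hF hsc hbunch h1 h2 h12
  obtain ⟨p, -, hpm⟩ := Set.exists_max_image (Set.univ : Set V) (lev α) (Set.toFinite _)
    ⟨y₁, Set.mem_univ _⟩
  have hL : ∀ y, lev α y ≤ lev α p := fun y => hpm y (Set.mem_univ _)
  have hLy := hL y₁
  obtain ⟨M, hM⟩ : ∃ M, lev α p = M + 1 := ⟨lev α p - 1, by omega⟩
  have key : ∀ y, α^[M] y ∉ cyc α → α^[M + 1] y = r := by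
    intro y hy
    have h3 : lev α y = M + 1 := by
      have h4 := hL y
      by_contra hcon
      exact hy (iter_mem (by omega))
    rw [← hr y (by omega)]
    unfold root
    rw [h3]
  refine ⟨α, M, hα, fun y => iter_mem ?_, ⟨p, iter_not_mem (by omega)⟩, fun y z hy hz => ?_⟩
  · have := hL y
    omega
  · rw [key y hy, key z hz]

end Pool.Agent.H97.Cyc
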