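import Pool.Agent.H97.Cyc.LevB

/-!
# A selection of followers with a unique highest tree

Part of `MP_644d19_co` (road colouring inside cycles); this is the combinatorial lemma of Trahtman's
road colouring theorem. `F p` is the set of followers of `p`; a selection is `α` with `α p ∈ F p`.
`UH α`: for some `L`, `r` there is a point of level `> L`, and all points of level `> L` have the
root `r`.

`caseA`: all points are periodic for `α`, `r ≠ α p₀`; `α' = Function.update α p₀ r` has `UH` with
`L = 0`. Put `q = α p₀`. `q` is not a value of `α'` (`α` is injective), so `q ∉ cyc α'`. Every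
`y ∉ cyc α'` is in the `α'`-orbit of `q`: let `B` be the set of the `y ∉ cyc α'` that are not;
each `z ∈ B` has an `α'`-preimage in `B` (`z ≠ q`, so `z = α z'` with `z' ≠ p₀`, `α' z' = z`;
`z' ∉ cyc α'`, and `z'` is not in the orbit of `q`). So `B ⊆ α' '' B`, so `α'` permutes `B`, so the
points of `B` are periodic, `B = ∅` (compare `card_D` in `LevB.lean`). So all `y ∉ cyc α'` have the
root of `q` (`lev_iter`; `y = α'^[i] q ∉ cyc α'` gives `i < lev α' q`).

`uhA`: `α₁ = Function.update α a p`, `a ∉ cyc α₁`, all levels for `α` are `≤ L`, `lev α p = L`.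
`p` does not reach `a` (`not_reach`), so `lev α₁ p = L` (`upd_lev`), `lev α₁ a = L + 1`
(`lev_succ`, `α₁ a = p`). A point `y` with `lev α₁ y > L` reaches `a` (otherwise `upd_lev`), so has
the root of `a` (`upd_reach`).

`b4b`: `α` has the maximal number of periodic points among the selections, all levels are `≤ L`,
`0 < L`, `lev α p = L`, `p ∈ F a`, `a ∈ cyc α`, `a ∈ cyc α₁`, `lev α₁ (α a) = L`,
`b = α^[L-1] p`, `e ∈ F b`, `e ≠ root α p` (`= α b`). Then some selection has `UH`. Proof:
`b ∉ cyc α` (`iter_not_mem`). `α₂ = Function.update α b e`. If `b ∈ cyc α₂`, `cyc_lt` contradicts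
the maximality. So `b ∉ cyc α₂`, `cyc α₂ = cyc α` (`cyc_eq`), `e` does not reach `b`
(`not_reach`), `lev α₂ e = lev α e`, `lev α₂ b = lev α e + 1`, `root α₂ b = root α e`. As
`α₂^[L-1] p = b` (`upd_iter`; `α^[i] p ≠ b` for `i < L - 1` by the levels `lev_iter`):
`lev α₂ p = L + lev α e`, `root α₂ p = root α e` (`lev_iter` for `α₂`, or `upd_reach` and `lev_eq`).
(1) A point `y` with `lev α₂ y > L` reaches `b` under `α`, so has the root of `b` (`upd_reach`).
If `lev α e > 0`: `UH α₂` with `L`, the point `p`.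
Let `e ∈ cyc α`. So `lev α₂ p = L`, `root α₂ p = root α₂ b = e`. `α₃ = Function.update α₂ a p`.
`a ≠ b`. `a ∈ cyc α₂`, `p ∉ cyc α₂`.
 * `a ∉ cyc α₃`: `p` does not reach `a` under `α₂`, `lev α₃ p = L`, `root α₃ p = e`,
   `lev α₃ a = L + 1`, `root α₃ a = e`. `UH α₃` with `L`, `r = e`: let `lev α₃ y > L`. If `y`
   reaches `a` under `α₂`: `upd_reach`. If not: `lev α₂ y = lev α₃ y > L`, so by (1)
   `root α₃ y = root α₂ y = root α₂ b = e`.
 * `a ∈ cyc α₃`: by `levB` for `(α₂, a, p)`: `lev α₂ y < lev α₃ y → root α₃ y = e`; by `cnt`: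
   `(cyc α₂).ncard + L ≤ (cyc α₃).ncard + lev α₃ d`, `d = α₂ a = α a`, and
   `(cyc α₃).ncard ≤ (cyc α).ncard`, so `L ≤ lev α₃ d`. `UH α₃` with `L`, `r = e`, if
   `L < lev α₃ d`: let `lev α₃ y > L`; if `lev α₂ y < lev α₃ y`, fine. Otherwise
   `lev α₂ y > L`, so `y` reaches `b` under `α`, at time `n` (least), `n < lev α y ≤ L` since
   `b ∉ cyc α`. The points before are not periodic for `α`, so `≠ a`, and `≠ b`, so
   `α₃^[n] y = b`; and `b ∈ cyc α₃` (`a ∈ cyc α₃`, `α₃ a = p`, `α₃^[L-1] p = b` since the points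
   before are not periodic for `α`), so `lev α₃ y ≤ n < L`, a contradiction.
   If `lev α₃ d = L`: `d ∈ cyc α`. `lev α d = 0 < L = lev α₁ d`, so `root α₁ d = root α p` by
   `levB`, that is `α₁^[L] d = root α p`; the points `α₁^[i] d`, `i < L`, are not in `cyc α₁`, so
   `≠ a`, so `α₁^[L] d = α^[L] d` (`upd_iter'`). In the same way `lev α₂ d = 0 < lev α₃ d`, so
   `α₃^[L] d = root α₃ d = e`, and `α₃^[L] d = α₂^[L] d = α^[L] d` (the points `α^[i] d` are
   periodic for `α`, so `≠ b`). So `e = root α p`, a contradiction.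

`exists_UH`: choose a selection `α` with the maximal number of periodic points
(`Finite.exists_max` on the selections). If all points are periodic: `caseA` with one of
`r₁, r₂ ≠ α p₀`. Otherwise let `L > 0` be the maximal level, `lev α p = L`. `p ∉ cyc α` has no
`α`-preimage (its level would be `L + 1`). By `hsc` (path from `α p ≠ p` to `p`, last step,
`Relation.ReflTransGen.cases_tail`) there is `a` with `p ∈ F a`. `α₁ = Function.update α a p` is
a selection. If `a ∉ cyc α₁`: `uhA`. If `a ∈ cyc α₁`, `a ∉ cyc α`: `cyc_lt`, contradiction. So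
`a ∈ cyc α ∩ cyc α₁`. `cnt`: `(cyc α).ncard + L ≤ (cyc α₁).ncard + lev α₁ (α a)`. If some point
has `lev α₁ y > L`: `UH α₁` with `L`, `r = root α p` (`levB`; `lev α y ≤ L`). Otherwise
`lev α₁ (α a) ≤ L`, so `lev α₁ (α a) = L` and `(cyc α₁).ncard = (cyc α).ncard` is maximal. Let
`b = α^[L-1] p`, `d = α a`, `c = α₁^[L-1] d`, `r = root α p = root α₁ d` (`levB`). If `F b ≠ {r}`:
`b4b` for `α`. If `F c ≠ {r}`: `b4b` for `α₁`, `p := d`, `a := a`
(`Function.update α₁ a d = α`, `lev α (α₁ a) = lev α p = L`). If both are `{r}`: `b = c` by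
`hbunch`, but `b ∉ cyc α` and `c = α^[L-1] d ∈ cyc α` (`upd_iter'`), a contradiction.
(`F b`, `F c` are nonempty: `α b = r ∈ F b`, `α₁ c = r`.)

`exists_highest`: let `L₁` be the maximal level of the selection with `UH`: `L₁ > L`. A point `y`
with `α^[L₁ - 1] y ∉ cyc α` has level `L₁` (`iter_mem`), so `α^[L₁] y = root α y = r`.
-/

set_option autoImplicit false

namespace Pool.Agent.H97.Cyc

open scoped Classical

variable {V : Type*}

/-- unique highest tree -/
def UH (α : V → V) : Prop :=
  ∃ (L : ℕ) (r : V), (∃ y, L < lev α y) ∧ ∀ y, L < lev α y → root α y = r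

variable [Finite V]

lemma caseA {α : V → V} (hα : ∀ y, y ∈ cyc α) {p₀ r : V} (hr : r ≠ α p₀) :
    UH (Function.update α p₀ r) := by
  have hval : ∀ z, Function.update α p₀ r z ≠ α p₀ := by
    intro z hz
    by_cases h : z = p₀
    · subst h
      rw [Function.update_self] at hz
      exact hr hz
    · rw [Function.update_of_ne h] at hz
      exact h (injOn_cyc (hα z) (hα p₀) hz)
  have hq : α p₀ ∉ cyc (Function.update α p₀ r) := by
    intro h
    obtain ⟨z, _, hz⟩ := cyc_pre h
    exact hval z hz
  refine ⟨0, root (Function.update α p₀ r) (α p₀), ⟨α p₀, ?_⟩, ?_⟩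
  · rcases Nat.eq_zero_or_pos (lev (Function.update α p₀ r) (α p₀)) with h | h
    · exact absurd (lev_eq_zero.1 h) hq
    · exact h
  · intro y hy
    have hyc : y ∉ cyc (Function.update α p₀ r) := by
      intro h
      rw [lev_eq_zero.2 h] at hy
      exact lt_irrefl 0 hy
    obtain ⟨z, ⟨n, hn⟩, hmax⟩ := Set.exists_max_image
      {z | ∃ n, (Function.update α p₀ r)^[n] z = y} (lev (Function.update α p₀ r))
      (Set.toFinite _) ⟨y, 0, rfl⟩
    have hzq : z = α p₀ := by
      by_contra hne
      obtain ⟨z', _, hz'⟩ := cyc_pre (hα z)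
      have hz'p : z' ≠ p₀ := by
        intro h
        rw [h] at hz'
        exact hne hz'.symm
      have hz'' : Function.update α p₀ r z' = z := by
        rw [Function.update_of_ne hz'p, hz']
      have hit : (Function.update α p₀ r)^[n + 1] z' = y := by
        rw [Function.iterate_succ_apply, hz'', hn]
      have hz'c : z' ∉ cyc (Function.update α p₀ r) := by
        intro h
        apply hyc
        rw [← hit]
        exact cyc_iter h _
      have h1 := hmax z' ⟨n + 1, hit⟩
      have h2 := lev_succ hz'c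
      rw [hz''] at h2
      omega
    rw [hzq] at hn
    have hle : n ≤ lev (Function.update α p₀ r) (α p₀) := by
      by_contra h
      apply hyc
      rw [← hn]
      exact iter_mem (by omega)
    have h3 := (lev_iter hle).2
    rw [hn] at h3
    exact h3

lemma uhA {α : V → V} {a p : V} {L : ℕ} (ha : a ∉ cyc (Function.update α a p))
    (hL : ∀ y, lev α y ≤ L) (hp : lev α p = L) : UH (Function.update α a p) := by
  refine ⟨L, root (Function.update α a p) a, ⟨a, ?_⟩, ?_⟩
  · have h1 := lev_succ ha
    rw [Function.update_self, (upd_lev (not_reach ha)).1, hp] at h1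
    omega
  · intro y hy
    by_cases h : ∃ n, α^[n] y = a
    · obtain ⟨n, hn⟩ := h
      exact (upd_reach ha hn).2
    · have h1 := (upd_lev (p := p) (fun i hi => h ⟨i, hi⟩)).1
      have h2 := hL y
      omega

end Pool.Agent.H97.Cyc
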