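import Pool.Agent.H97.Cyc.HighA

/-!
# A selection of followers with a unique highest tree

Part of `MP_644d19_co` (road colouring inside cycles); this is the combinatorial lemma of Trahtman's
road colouring theorem. `F p` is the set of followers of `p`; a selection is `α` with `α p ∈ F p`.
`UH α`: for some `L`, `r` there is a point of level `> L`, and all points of level `> L` have the
root `r`.

`caseA`: all points are periodic for `α`, `r ≠ α p₀`; `α' = Function.update α p₀ r` has `UH` with
`L = 0`. Put `q = α p₀`. `q` is not a value of `α'` (`α` is injective), so `q ∉ cyc α'`. Every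
`y ∉ cyc α'` is in the `α'`-orbit of `q`: let `B` be the set of the `y ∉ cyc α'` that are not;
each `z ∈ B` has an `α'`-preimage in `B` (`z ≠ q`, so `z = α z'` with `z' ≠ p₀`, `α' z' = z`;
`z' ∉ cyc α'`, and `z'` is not in the orbit of `q`). So `B ⊆ α' '' B`, so `α'` permutes `B`, so the
points of `B` are periodic, `B = ∅` (compare `card_D` in `LevB.lean`). So all `y ∉ cyc α'` have the
root of `q` (`lev_iter`; `y = α'^[i] q ∉ cyc α'` gives `i < lev α' q`).

`uhA`: `α₁ = Function.update α a p`, `a ∉ cyc α₁`, all levels for `α` are `≤ L`, `lev α p = L`.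
`p` does not reach `a` (`not_reach`), so `lev α₁ p = L` (`upd_lev`), `lev α₁ a = L + 1`
(`lev_succ`, `α₁ a = p`). A point `y` with `lev α₁ y > L` reaches `a` (otherwise `upd_lev`), so has
the root of `a` (`upd_reach`).

`b4b`: `α` has the maximal number of periodic points among the selections, all levels are `≤ L`,
`0 < L`, `lev α p = L`, `p ∈ F a`, `a ∈ cyc α`, `a ∈ cyc α₁`, `lev α₁ (α a) = L`,
`b = α^[L-1] p`, `e ∈ F b`, `e ≠ root α p` (`= α b`). Then some selection has `UH`. Proof:
`b ∉ cyc α` (`iter_not_mem`). `α₂ = Function.update α b e`. If `b ∈ cyc α₂`, `cyc_lt` contradicts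
the maximality. So `b ∉ cyc α₂`, `cyc α₂ = cyc α` (`cyc_eq`), `e` does not reach `b`
(`not_reach`), `lev α₂ e = lev α e`, `lev α₂ b = lev α e + 1`, `root α₂ b = root α e`. As
`α₂^[L-1] p = b` (`upd_iter`; `α^[i] p ≠ b` for `i < L - 1` by the levels `lev_iter`):
`lev α₂ p = L + lev α e`, `root α₂ p = root α e` (`lev_iter` for `α₂`, or `upd_reach` and `lev_eq`).
(1) A point `y` with `lev α₂ y > L` reaches `b` under `α`, so has the root of `b` (`upd_reach`).
If `lev α e > 0`: `UH α₂` with `L`, the point `p`.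
Let `e ∈ cyc α`. So `lev α₂ p = L`, `root α₂ p = root α₂ b = e`. `α₃ = Function.update α₂ a p`.
`a ≠ b`. `a ∈ cyc α₂`, `p ∉ cyc α₂`.
 * `a ∉ cyc α₃`: `p` does not reach `a` under `α₂`, `lev α₃ p = L`, `root α₃ p = e`,
   `lev α₃ a = L + 1`, `root α₃ a = e`. `UH α₃` with `L`, `r = e`: let `lev α₃ y > L`. If `y`
   reaches `a` under `α₂`: `upd_reach`. If not: `lev α₂ y = lev α₃ y > L`, so by (1)
   `root α₃ y = root α₂ y = root α₂ b = e`.
 * `a ∈ cyc α₃`: by `levB` for `(α₂, a, p)`: `lev α₂ y < lev α₃ y → root α₃ y = e`; by `cnt`: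
   `(cyc α₂).ncard + L ≤ (cyc α₃).ncard + lev α₃ d`, `d = α₂ a = α a`, and
   `(cyc α₃).ncard ≤ (cyc α).ncard`, so `L ≤ lev α₃ d`. `UH α₃` with `L`, `r = e`, if
   `L < lev α₃ d`: let `lev α₃ y > L`; if `lev α₂ y < lev α₃ y`, fine. Otherwise
   `lev α₂ y > L`, so `y` reaches `b` under `α`, at time `n` (least), `n < lev α y ≤ L` since
   `b ∉ cyc α`. The points before are not periodic for `α`, so `≠ a`, and `≠ b`, so
   `α₃^[n] y = b`; and `b ∈ cyc α₃` (`a ∈ cyc α₃`, `α₃ a = p`, `α₃^[L-1] p = b` since the points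
   before are not periodic for `α`), so `lev α₃ y ≤ n < L`, a contradiction.
   If `lev α₃ d = L`: `d ∈ cyc α`. `lev α d = 0 < L = lev α₁ d`, so `root α₁ d = root α p` by
   `levB`, that is `α₁^[L] d = root α p`; the points `α₁^[i] d`, `i < L`, are not in `cyc α₁`, so
   `≠ a`, so `α₁^[L] d = α^[L] d` (`upd_iter'`). In the same way `lev α₂ d = 0 < lev α₃ d`, so
   `α₃^[L] d = root α₃ d = e`, and `α₃^[L] d = α₂^[L] d = α^[L] d` (the points `α^[i] d` are
   periodic for `α`, so `≠ b`). So `e = root α p`, a contradiction.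

`exists_UH`: choose a selection `α` with the maximal number of periodic points
(`Finite.exists_max` on the selections). If all points are periodic: `caseA` with one of
`r₁, r₂ ≠ α p₀`. Otherwise let `L > 0` be the maximal level, `lev α p = L`. `p ∉ cyc α` has no
`α`-preimage (its level would be `L + 1`). By `hsc` (path from `α p ≠ p` to `p`, last step,
`Relation.ReflTransGen.cases_tail`) there is `a` with `p ∈ F a`. `α₁ = Function.update α a p` is
a selection. If `a ∉ cyc α₁`: `uhA`. If `a ∈ cyc α₁`, `a ∉ cyc α`: `cyc_lt`, contradiction. So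
`a ∈ cyc α ∩ cyc α₁`. `cnt`: `(cyc α).ncard + L ≤ (cyc α₁).ncard + lev α₁ (α a)`. If some point
has `lev α₁ y > L`: `UH α₁` with `L`, `r = root α p` (`levB`; `lev α y ≤ L`). Otherwise
`lev α₁ (α a) ≤ L`, so `lev α₁ (α a) = L` and `(cyc α₁).ncard = (cyc α).ncard` is maximal. Let
`b = α^[L-1] p`, `d = α a`, `c = α₁^[L-1] d`, `r = root α p = root α₁ d` (`levB`). If `F b ≠ {r}`:
`b4b` for `α`. If `F c ≠ {r}`: `b4b` for `α₁`, `p := d`, `a := a`
(`Function.update α₁ a d = α`, `lev α (α₁ a) = lev α p = L`). If both are `{r}`: `b = c` by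
`hbunch`, but `b ∉ cyc α` and `c = α^[L-1] d ∈ cyc α` (`upd_iter'`), a contradiction.
(`F b`, `F c` are nonempty: `α b = r ∈ F b`, `α₁ c = r`.)

`exists_highest`: let `L₁` be the maximal level of the selection with `UH`: `L₁ > L`. A point `y`
with `α^[L₁ - 1] y ∉ cyc α` has level `L₁` (`iter_mem`), so `α^[L₁] y = root α y = r`.
-/

set_option autoImplicit false

namespace Pool.Agent.H97.Cyc

open scoped Classical

variable {V : Type*}

variable [Finite V]

theorem b4b {F : V → Set V} {α : V → V} (hα : ∀ z, α z ∈ F z)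
    (hmax : ∀ β : V → V, (∀ z, β z ∈ F z) → (cyc β).ncard ≤ (cyc α).ncard) {a p : V} {L : ℕ}
    (hL0 : 0 < L) (hL : ∀ y, lev α y ≤ L) (hp : lev α p = L) (hpa : p ∈ F a) (ha0 : a ∈ cyc α)
    (ha : a ∈ cyc (Function.update α a p)) (hd : lev (Function.update α a p) (α a) = L) {e : V}
    (he : e ∈ F (α^[L - 1] p)) (her : e ≠ root α p) :
    ∃ β : V → V, (∀ z, β z ∈ F z) ∧ UH β := by
  have hp0 : p ∉ cyc α := by
    intro h
    have := lev_eq_zero.2 h
    omega
  obtain ⟨b, hb⟩ : ∃ b, α^[L - 1] p = b := ⟨_, rfl⟩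
  rw [hb] at he
  have hbm : b ∉ cyc α := by
    rw [← hb]
    exact iter_not_mem (by omega)
  have hpi : ∀ i < L, α^[i] p ∉ cyc α := fun i hi => iter_not_mem (by omega)
  have hpb : ∀ i < L - 1, α^[i] p ≠ b := by
    intro i hi h
    have h1 := (lev_iter (α := α) (y := p) (n := i) (by omega)).1
    have h2 := (lev_iter (α := α) (y := p) (n := L - 1) (by omega)).1
    rw [hb] at h2
    rw [h] at h1
    omega
  obtain ⟨α₂, hα₂⟩ : ∃ α₂, Function.update α b e = α₂ := ⟨_, rfl⟩
  have hs2 : ∀ z, α₂ z ∈ F z := by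
    intro z
    rw [← hα₂]
    by_cases hz : z = b
    · subst hz
      rw [Function.update_self]
      exact he
    · rw [Function.update_of_ne hz]
      exact hα z
  have hb2 : b ∉ cyc α₂ := by
    intro h
    rw [← hα₂] at h
    have h1 := cyc_lt hbm h
    rw [hα₂] at h1
    have h2 := hmax α₂ hs2
    omega
  have hc2 : cyc α₂ = cyc α := by
    have h := cyc_eq (α := α) (a := b) (p := e) hbm (by rw [hα₂]; exact hb2)
    rwa [hα₂] at h
  have hnr : ∀ i, α^[i] e ≠ b := not_reach (α := α) (a := b) (p := e) (by rw [hα₂]; exact hb2)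
  have hle : lev α₂ e = lev α e ∧ root α₂ e = root α e := by
    have h := upd_lev (α := α) (a := b) (p := e) (y := e) hnr
    rwa [hα₂] at h
  have h2b : α₂ b = e := by
    rw [← hα₂, Function.update_self]
  have hlb : lev α₂ b = lev α e + 1 := by
    rw [lev_succ hb2, h2b, hle.1]
  have hrb : root α₂ b = root α e := by
    rw [root_succ hb2, h2b, hle.2]
  -- iterates of `α₂` from `p`
  have hit2 : ∀ n ≤ L - 1, α₂^[n] p = α^[n] p := by
    intro n hn
    rw [← hα₂]
    exact upd_iter fun i hi => hpb i (by omega)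
  have h2pb : α₂^[L - 1] p = b := by
    rw [hit2 _ le_rfl, hb]
  have hlt : L - 1 < lev α₂ p := by
    by_contra hcon
    apply hb2
    rw [← h2pb]
    exact iter_mem (by omega)
  obtain ⟨hl1, hl2⟩ := lev_iter hlt.le
  rw [h2pb] at hl1 hl2
  have hlp : lev α₂ p = L + lev α e := by omega
  have hrp : root α₂ p = root α e := by rw [← hl2, hrb]
  -- (1)
  have hreach : ∀ y, L < lev α₂ y → ∃ n, α^[n] y = b := by
    intro y hy
    by_contra hcon
    push Not at hcon
    have h := (upd_lev (α := α) (a := b) (p := e) (y := y) hcon).1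
    rw [hα₂] at h
    have := hL y
    omega
  have h1 : ∀ y, L < lev α₂ y → root α₂ y = root α e := by
    intro y hy
    obtain ⟨n, hn⟩ := hreach y hy
    have h := (upd_reach (α := α) (a := b) (p := e) (by rw [hα₂]; exact hb2) hn).2
    rw [hα₂] at h
    rw [h, hrb]
  by_cases he0 : 0 < lev α e
  · exact ⟨α₂, hs2, L, root α e, ⟨p, by omega⟩, h1⟩
  have he0' : lev α e = 0 := by omega
  have hec : e ∈ cyc α := lev_eq_zero.1 he0'
  rw [root_of_mem hec] at hrp hrb h1
  rw [he0', add_zero] at hlp
  have hab : a ≠ b := by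
    rintro rfl
    exact hbm ha0
  obtain ⟨α₃, hα₃⟩ : ∃ α₃, Function.update α₂ a p = α₃ := ⟨_, rfl⟩
  have hs3 : ∀ z, α₃ z ∈ F z := by
    intro z
    rw [← hα₃]
    by_cases hz : z = a
    · subst hz
      rw [Function.update_self]
      exact hpa
    · rw [Function.update_of_ne hz]
      exact hs2 z
  have h3a : α₃ a = p := by
    rw [← hα₃, Function.update_self]
  by_cases ha3 : a ∉ cyc α₃
  · have hn3 : ∀ i, α₂^[i] p ≠ a := not_reach (α := α₂) (a := a) (p := p) (by rw [hα₃]; exact ha3)
    have h := upd_lev (α := α₂) (a := a) (p := p) (y := p) hn3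
    rw [hα₃] at h
    have h5 : lev α₃ a = L + 1 := by
      rw [lev_succ ha3, h3a, h.1, hlp]
    have h6 : root α₃ a = e := by
      rw [root_succ ha3, h3a, h.2, hrp]
    refine ⟨α₃, hs3, L, e, ⟨a, by omega⟩, fun y hy => ?_⟩
    by_cases hra : ∃ n, α₂^[n] y = a
    · obtain ⟨n, hn⟩ := hra
      have h7 := (upd_reach (α := α₂) (a := a) (p := p) (by rw [hα₃]; exact ha3) hn).2
      rw [hα₃] at h7
      rw [h7, h6]
    · push Not at hra
      have h7 := upd_lev (α := α₂) (a := a) (p := p) (y := y) hra
      rw [hα₃] at h7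
      rw [h7.2]
      exact h1 y (by omega)
  · push Not at ha3
    have ha2 : a ∈ cyc α₂ := by rw [hc2]; exact ha0
    have hp2 : p ∉ cyc α₂ := by rw [hc2]; exact hp0
    have hlB : ∀ y, lev α₂ y < lev α₃ y → root α₃ y = e := by
      intro y hy
      have h := levB (α := α₂) (a := a) (p := p) ha2 (by rw [hα₃]; exact ha3) hp2 (y := y)
        (by rw [hα₃]; exact hy)
      rw [hα₃] at h
      rw [h, hrp]
    have hcn := cnt (α := α₂) (a := a) (p := p) ha2 (by rw [hα₃]; exact ha3)
    rw [hα₃] at hcn
    have hda : α₂ a = α a := by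
      rw [← hα₂, Function.update_of_ne hab]
    rw [hda, hc2, hlp] at hcn
    have hm3 := hmax α₃ hs3
    have hL3 : L ≤ lev α₃ (α a) := by omega
    rcases hL3.lt_or_eq with hlt3 | heq3
    · refine ⟨α₃, hs3, L, e, ⟨α a, hlt3⟩, fun y hy => ?_⟩
      by_cases hcmp : lev α₂ y < lev α₃ y
      · exact hlB y hcmp
      exfalso
      have hy2 : L < lev α₂ y := by omega
      have hex := hreach y hy2
      obtain ⟨n, hn, hmin⟩ : ∃ n, α^[n] y = b ∧ ∀ i < n, α^[i] y ≠ b :=
        ⟨Nat.find hex, Nat.find_spec hex, fun i hi => Nat.find_min hex hi⟩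
      have hny : n < lev α y := by
        by_contra hcon
        apply hbm
        rw [← hn]
        exact iter_mem (by omega)
      have hnL := hL y
      have hit : ∀ i ≤ n, α₂^[i] y = α^[i] y := by
        intro i hi
        rw [← hα₂]
        exact upd_iter fun j hj => hmin j (by omega)
      have h3n : α₃^[n] y = b := by
        rw [← hα₃, upd_iter, hit n le_rfl, hn]
        intro i hi h
        rw [hit i (by omega)] at h
        have h8 : α^[i] y ∉ cyc α := iter_not_mem (by omega)
        rw [h] at h8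
        exact h8 ha0
      have hbc : b ∈ cyc α₃ := by
        have h9 : α₃^[L - 1] p = b := by
          rw [← hα₃, upd_iter, h2pb]
          intro i hi h
          rw [hit2 i (by omega)] at h
          have h8 := hpi i (by omega)
          rw [h] at h8
          exact h8 ha0
        rw [← h9]
        apply cyc_iter
        rw [← h3a]
        exact cyc_map ha3
      have h10 : lev α₃ y ≤ n := by
        by_contra hcon
        have h11 : α₃^[n] y ∉ cyc α₃ := iter_not_mem (by omega)
        rw [h3n] at h11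
        exact h11 hbc
      omega
    · exfalso
      apply her
      have hdc : α a ∈ cyc α := cyc_map ha0
      -- the orbit for `α₁`
      have e1 : root (Function.update α a p) (α a) = root α p :=
        levB ha0 ha hp0 (by rw [hd, lev_eq_zero.2 hdc]; exact hL0)
      have e2 : α^[L] (α a) = root α p := by
        rw [← e1]
        unfold root
        rw [hd]
        refine (upd_iter' fun i hi h => ?_).symm
        have h8 : (Function.update α a p)^[i] (α a) ∉ cyc (Function.update α a p) :=
          iter_not_mem (by omega)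
        rw [h] at h8
        exact h8 ha
      have e3 : root α₃ (α a) = e := by
        apply hlB
        rw [← heq3, lev_eq_zero.2 (by rw [hc2]; exact hdc)]
        exact hL0
      have e4 : α₃^[L] (α a) = α₂^[L] (α a) := by
        rw [← hα₃]
        refine upd_iter' fun i hi h => ?_
        rw [hα₃] at h
        have h8 : α₃^[i] (α a) ∉ cyc α₃ := iter_not_mem (by omega)
        rw [h] at h8
        exact h8 ha3
      have e5 : α₂^[L] (α a) = α^[L] (α a) := by
        rw [← hα₂]
        refine upd_iter fun i _ h => ?_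
        have h8 := cyc_iter hdc i
        rw [h] at h8
        exact hbm h8
      have e6 : root α₃ (α a) = α₃^[L] (α a) := by
        unfold root
        rw [← heq3]
      rw [← e3, e6, e4, e5, e2]

end Pool.Agent.H97.Cyc
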