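import Pool.Agent.H97.Cyc.Upd

/-!
# Changing a function at one periodic point

Part of `MP_644d19_co` (road colouring inside cycles). `α₁ = Function.update α a p`, where `a` is
periodic for `α` and for `α₁` and `p` is not periodic for `α`. Let `h` be the least `i` with
`α^[i] p = a` (it exists: the `α₁`-orbit of `p = α₁ a` returns to `a`; up to the first visit of `a`
it is the `α`-orbit, `upd_iter'`). For `i ≤ h`: `α₁^[i] p = α^[i] p` (`upd_iter`), and these points
are in `cyc α₁` (`cyc_iter`). Since `a ∈ cyc α`: `lev α p ≤ h`. So `r = root α p ∈ cyc α₁`.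

`D = cyc α \ cyc α₁`.

`star`: for `z ∈ D`: `α z ∈ D` or `α z = root α p`. Proof: `w = α z ∈ cyc α`. Let `w ∈ cyc α₁`
(otherwise `w ∈ D`). `w` has an `α₁`-periodic `α₁`-preimage `z₁` (`cyc_pre`), `z₁ ≠ z`. If
`z₁ = a`, then `w = p ∉ cyc α`, a contradiction; so `α z₁ = w = α z`, and `z₁ ∉ cyc α` by
`injOn_cyc` (`z ∈ cyc α`, `z ≠ z₁`). The `α₁`-orbit of `z₁` contains `a` (otherwise `z₁`, periodic
for `α₁`, would be periodic for `α`: `upd_iter'`). So `z₁` is in the `α₁`-orbit of `a`, that is
`z₁ = α₁^[i] p` for some `i`, and we may take `i ≤ h` (the `α₁`-orbit of `p` has period `h + 1`).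
So `z₁ = α^[i] p`, `i < lev α p` as `z₁ ∉ cyc α` (`iter_mem`), and
`w = α z₁ = α^[i+1] p ∈ cyc α`, so `i + 1 ≥ lev α p` (`iter_not_mem`), `i + 1 = lev α p`,
`w = root α p`.

`root_D`: for `z ∈ D`: `root α₁ z = root α p`, by strong induction on `lev α₁ z > 0`:
`α₁ z = α z` (`z ≠ a`), `root α₁ z = root α₁ (α z)` (`root_succ`), and `star`
(`root_of_mem` if `α z = root α p`, which is in `cyc α₁`).

`levB`: let `lev α y < lev α₁ y`, `l = lev α y`. For `i < l` `α^[i] y ∉ cyc α`, so `≠ a`, so
`α₁^[l] y = α^[l] y =: z ∈ cyc α`, and `z ∉ cyc α₁` as `l < lev α₁ y`. So `z ∈ D`, and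
`root α₁ y = root α₁ z = root α p` (`lev_iter`, `root_D`).

`card_D`: `D.ncard ≤ lev α₁ (α a)`. Put `d = α a`, `O = {α₁^[i] d | i < lev α₁ d}`
(at most `lev α₁ d` points). Claim `D ⊆ O`. Let `B = D \ O`. Every `z ∈ B` has an `α`-preimage in
`B`: let `z' ∈ cyc α`, `α z' = z` (`cyc_pre`). If `z' = a`, then `z = d ∉ cyc α₁`, so
`0 < lev α₁ d` and `z ∈ O`, a contradiction. So `z' ≠ a`, `α₁ z' = z`, and `z' ∉ cyc α₁`
(`cyc_map`), `z' ∈ D`; and `z' ∉ O`: if `z' = α₁^[i] d`, `i < lev α₁ d`, then `z = α₁^[i+1] d`,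
which is not in `cyc α₁`, so `i + 1 < lev α₁ d` (`iter_mem`) and `z ∈ O`. So `B ⊆ α '' B`,
`B` finite, so `α '' B = B` (`Set.eq_of_subset_of_ncard_le`), so `α₁` (equal to `α` on `B`, as
`a ∉ D`) maps `B` onto `B`, bijectively, so all points of `B` are periodic for `α₁`
(e.g. for `y ∈ B` the sequence `α₁^[n] y` stays in `B`; `α₁` injective on `B`, so from
`α₁^[i] y = α₁^[j] y` one gets `α₁^[j-i] y = y`), a contradiction unless `B = ∅`.

`cnt`: `cyc α \ D ⊆ cyc α₁`, `P = {α^[i] p | i < lev α p} ⊆ cyc α₁ \ cyc α`, and the points of `P`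
are distinct (`α^[i] p = α^[j] p`, `i < j < lev α p`, would make `α^[i] p` periodic), so
`(cyc α).ncard - D.ncard + lev α p ≤ (cyc α₁).ncard`.
-/

set_option autoImplicit false

namespace Pool.Agent.H97.Cyc

open scoped Classical

variable {V : Type*} [Finite V] {α : V → V} {a p : V}

/-- the points of the path from `p` to `a` -/
lemma exists_h (ha : a ∈ cyc (Function.update α a p)) (ha0 : a ∈ cyc α) :
    ∃ h, α^[h] p = a ∧ (∀ i < h, α^[i] p ≠ a) ∧ lev α p ≤ h ∧
      (∀ i ≤ h, (Function.update α a p)^[i] p = α^[i] p) ∧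
      (∀ i ≤ h, α^[i] p ∈ cyc (Function.update α a p)) ∧
      ∀ n, ∃ i ≤ h, (Function.update α a p)^[n] p = α^[i] p := by
  have hself : Function.update α a p a = p := Function.update_self _ _ _
  obtain ⟨n, hn, hna⟩ := mem_cyc_iff.1 ha
  have hex : ∃ i, (Function.update α a p)^[i] p = a := by
    refine ⟨n - 1, ?_⟩
    have h1 : n = (n - 1) + 1 := by omega
    rw [h1, Function.iterate_succ_apply, hself] at hna
    exact hna
  obtain ⟨h, hh, hlt⟩ : ∃ h, (Function.update α a p)^[h] p = a ∧
      ∀ i < h, (Function.update α a p)^[i] p ≠ a :=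
    ⟨Nat.find hex, Nat.find_spec hex, fun i hi => Nat.find_min hex hi⟩
  have heq : ∀ i ≤ h, (Function.update α a p)^[i] p = α^[i] p := fun i hi =>
    upd_iter' fun j hj => hlt j (by omega)
  have hh' : α^[h] p = a := by rw [← heq h le_rfl, hh]
  have hpc : p ∈ cyc (Function.update α a p) := by
    have h1 := cyc_map ha
    rw [hself] at h1
    exact h1
  refine ⟨h, hh', ?_, ?_, heq, ?_, ?_⟩
  · intro i hi
    rw [← heq i hi.le]
    exact hlt i hi
  · by_contra hcon
    have h1 := iter_not_mem (α := α) (y := p) (n := h) (by omega)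
    rw [hh'] at h1
    exact h1 ha0
  · intro i hi
    rw [← heq i hi]
    exact cyc_iter hpc i
  · intro m
    induction m with
    | zero => exact ⟨0, Nat.zero_le _, rfl⟩
    | succ m ih =>
      obtain ⟨i, hi, him⟩ := ih
      rcases Nat.lt_or_ge i h with hlt' | hge
      · refine ⟨i + 1, hlt', ?_⟩
        rw [Function.iterate_succ_apply', him, ← heq i hi, ← heq (i + 1) hlt',
          Function.iterate_succ_apply']
      · have h1 : i = h := le_antisymm hi hge
        refine ⟨0, Nat.zero_le _, ?_⟩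
        rw [Function.iterate_succ_apply', him, h1, hh', hself]
        rfl

lemma root_mem_upd (ha0 : a ∈ cyc α) (ha : a ∈ cyc (Function.update α a p)) :
    root α p ∈ cyc (Function.update α a p) := by
  obtain ⟨h, _, _, h3, _, h5, _⟩ := exists_h ha ha0
  exact h5 _ h3

lemma star (ha0 : a ∈ cyc α) (ha : a ∈ cyc (Function.update α a p)) (hp : p ∉ cyc α) {z : V}
    (hz : z ∈ cyc α) (hz' : z ∉ cyc (Function.update α a p)) :
    α z ∉ cyc (Function.update α a p) ∨ α z = root α p := by
  by_cases hw : α z ∈ cyc (Function.update α a p)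
  · right
    have hself : Function.update α a p a = p := Function.update_self _ _ _
    have hwα : α z ∈ cyc α := cyc_map hz
    obtain ⟨z₁, hz₁, hz₁w⟩ := cyc_pre hw
    have hne : z₁ ≠ z := fun h => hz' (h ▸ hz₁)
    have hz₁a : z₁ ≠ a := by
      intro h
      rw [h, hself] at hz₁w
      rw [← hz₁w] at hwα
      exact hp hwα
    rw [Function.update_of_ne hz₁a] at hz₁w
    have hz₁c : z₁ ∉ cyc α := fun h => hne (injOn_cyc h hz hz₁w)
    obtain ⟨N, hN, hNz⟩ := mem_cyc_iff.1 hz₁
    have hex : ∃ i, (Function.update α a p)^[i] z₁ = a := by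
      by_contra hcon
      refine hz₁c (mem_cyc_iff.2 ⟨N, hN, ?_⟩)
      rw [← upd_iter' (a := a) (p := p) fun i _ hi => hcon ⟨i, hi⟩]
      exact hNz
    obtain ⟨i, hi⟩ := hex
    have hper : ∀ k, (Function.update α a p)^[k * N] z₁ = z₁ := by
      intro k
      induction k with
      | zero => simp
      | succ k ih => rw [Nat.succ_mul, Function.iterate_add_apply, hNz, ih]
    obtain ⟨m, hm⟩ : ∃ m, (Function.update α a p)^[m] p = z₁ := by
      refine ⟨(i + 1) * N - i - 1, ?_⟩
      have h1 : (i + 1) * 1 ≤ (i + 1) * N := Nat.mul_le_mul_left _ hN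
      have h2 : (i + 1) * N = ((i + 1) * N - i - 1) + 1 + i := by omega
      have h3 := hper (i + 1)
      rw [h2, Function.iterate_add_apply, hi, Function.iterate_succ_apply, hself] at h3
      exact h3
    obtain ⟨h, _, _, _, _, _, h6⟩ := exists_h ha ha0
    obtain ⟨j, _, hj⟩ := h6 m
    rw [hm] at hj
    have hjl : j < lev α p := by
      by_contra hcon
      refine hz₁c ?_
      rw [hj]
      exact iter_mem (by omega)
    have hjw : α z = α^[j + 1] p := by
      rw [Function.iterate_succ_apply', ← hj, hz₁w]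
    have hjl' : ¬ j + 1 < lev α p := fun hlt => by
      have h7 := iter_not_mem hlt
      rw [← hjw] at h7
      exact h7 hwα
    have h8 : j + 1 = lev α p := by omega
    rw [hjw, h8]
    rfl
  · exact Or.inl hw

lemma root_D (ha0 : a ∈ cyc α) (ha : a ∈ cyc (Function.update α a p)) (hp : p ∉ cyc α) {z : V}
    (hz : z ∈ cyc α) (hz' : z ∉ cyc (Function.update α a p)) :
    root (Function.update α a p) z = root α p := by
  induction hn : lev (Function.update α a p) z using Nat.strong_induction_on generalizing z with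
  | _ n ih =>
    have hza : z ≠ a := fun h => hz' (h ▸ ha)
    have h1 : Function.update α a p z = α z := Function.update_of_ne hza _ _
    have h2 := lev_succ hz'
    rw [root_succ hz']
    rw [h1] at h2 ⊢
    rcases star ha0 ha hp hz hz' with h3 | h3
    · exact ih _ (by omega) (cyc_map hz) h3 rfl
    · rw [h3]
      exact root_of_mem (root_mem_upd ha0 ha)

theorem levB (ha0 : a ∈ cyc α) (ha : a ∈ cyc (Function.update α a p)) (hp : p ∉ cyc α) {y : V}
    (hy : lev α y < lev (Function.update α a p) y) :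
    root (Function.update α a p) y = root α p := by
  have h1 : (Function.update α a p)^[lev α y] y = α^[lev α y] y := by
    refine upd_iter fun i hi hia => ?_
    have h2 := iter_not_mem hi
    rw [hia] at h2
    exact h2 ha0
  have h3 := iter_not_mem hy
  rw [← (lev_iter hy.le).2]
  rw [h1] at h3 ⊢
  exact root_D ha0 ha hp (iter_mem le_rfl) h3

end Pool.Agent.H97.Cyc
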