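import Pool.Agent.H97.Cyc.LevA

/-!
# Changing a function at one periodic point

Part of `MP_644d19_co` (road colouring inside cycles). `α₁ = Function.update α a p`, where `a` is
periodic for `α` and for `α₁` and `p` is not periodic for `α`. Let `h` be the least `i` with
`α^[i] p = a` (it exists: the `α₁`-orbit of `p = α₁ a` returns to `a`; up to the first visit of `a`
it is the `α`-orbit, `upd_iter'`). For `i ≤ h`: `α₁^[i] p = α^[i] p` (`upd_iter`), and these points
are in `cyc α₁` (`cyc_iter`). Since `a ∈ cyc α`: `lev α p ≤ h`. So `r = root α p ∈ cyc α₁`.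

`D = cyc α \ cyc α₁`.

`star`: for `z ∈ D`: `α z ∈ D` or `α z = root α p`. Proof: `w = α z ∈ cyc α`. Let `w ∈ cyc α₁`
(otherwise `w ∈ D`). `w` has an `α₁`-periodic `α₁`-preimage `z₁` (`cyc_pre`), `z₁ ≠ z`. If
`z₁ = a`, then `w = p ∉ cyc α`, a contradiction; so `α z₁ = w = α z`, and `z₁ ∉ cyc α` by
`injOn_cyc` (`z ∈ cyc α`, `z ≠ z₁`). The `α₁`-orbit of `z₁` contains `a` (otherwise `z₁`, periodic
for `α₁`, would be periodic for `α`: `upd_iter'`). So `z₁` is in the `α₁`-orbit of `a`, that is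
`z₁ = α₁^[i] p` for some `i`, and we may take `i ≤ h` (the `α₁`-orbit of `p` has period `h + 1`).
So `z₁ = α^[i] p`, `i < lev α p` as `z₁ ∉ cyc α` (`iter_mem`), and
`w = α z₁ = α^[i+1] p ∈ cyc α`, so `i + 1 ≥ lev α p` (`iter_not_mem`), `i + 1 = lev α p`,
`w = root α p`.

`root_D`: for `z ∈ D`: `root α₁ z = root α p`, by strong induction on `lev α₁ z > 0`:
`α₁ z = α z` (`z ≠ a`), `root α₁ z = root α₁ (α z)` (`root_succ`), and `star`
(`root_of_mem` if `α z = root α p`, which is in `cyc α₁`).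

`levB`: let `lev α y < lev α₁ y`, `l = lev α y`. For `i < l` `α^[i] y ∉ cyc α`, so `≠ a`, so
`α₁^[l] y = α^[l] y =: z ∈ cyc α`, and `z ∉ cyc α₁` as `l < lev α₁ y`. So `z ∈ D`, and
`root α₁ y = root α₁ z = root α p` (`lev_iter`, `root_D`).

`card_D`: `D.ncard ≤ lev α₁ (α a)`. Put `d = α a`, `O = {α₁^[i] d | i < lev α₁ d}`
(at most `lev α₁ d` points). Claim `D ⊆ O`. Let `B = D \ O`. Every `z ∈ B` has an `α`-preimage in
`B`: let `z' ∈ cyc α`, `α z' = z` (`cyc_pre`). If `z' = a`, then `z = d ∉ cyc α₁`, so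
`0 < lev α₁ d` and `z ∈ O`, a contradiction. So `z' ≠ a`, `α₁ z' = z`, and `z' ∉ cyc α₁`
(`cyc_map`), `z' ∈ D`; and `z' ∉ O`: if `z' = α₁^[i] d`, `i < lev α₁ d`, then `z = α₁^[i+1] d`,
which is not in `cyc α₁`, so `i + 1 < lev α₁ d` (`iter_mem`) and `z ∈ O`. So `B ⊆ α '' B`,
`B` finite, so `α '' B = B` (`Set.eq_of_subset_of_ncard_le`), so `α₁` (equal to `α` on `B`, as
`a ∉ D`) maps `B` onto `B`, bijectively, so all points of `B` are periodic for `α₁`
(e.g. for `y ∈ B` the sequence `α₁^[n] y` stays in `B`; `α₁` injective on `B`, so from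
`α₁^[i] y = α₁^[j] y` one gets `α₁^[j-i] y = y`), a contradiction unless `B = ∅`.

`cnt`: `cyc α \ D ⊆ cyc α₁`, `P = {α^[i] p | i < lev α p} ⊆ cyc α₁ \ cyc α`, and the points of `P`
are distinct (`α^[i] p = α^[j] p`, `i < j < lev α p`, would make `α^[i] p` periodic), so
`(cyc α).ncard - D.ncard + lev α p ≤ (cyc α₁).ncard`.
-/

set_option autoImplicit false

namespace Pool.Agent.H97.Cyc

open scoped Classical

variable {V : Type*} [Finite V] {α : V → V} {a p : V}

omit [Finite V] in
private lemma levB_maps {f : V → V} {B : Set V} (hB : f '' B = B) : Set.MapsTo f B B := by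
  intro x hx
  rw [← hB]
  exact Set.mem_image_of_mem f hx

/-- a finite set contained in its own image consists of periodic points -/
private lemma levB_per {f : V → V} {B : Set V} (h : B ⊆ f '' B) {z : V} (hz : z ∈ B) :
    z ∈ cyc f := by
  have hB : f '' B = B :=
    (Set.eq_of_subset_of_ncard_le h (Set.ncard_image_le (Set.toFinite B)) (Set.toFinite _)).symm
  have hm : Set.MapsTo f B B := levB_maps hB
  have hs : Function.Surjective (hm.restrict f B B) := by
    rintro ⟨x, hx⟩
    obtain ⟨y, hy, e⟩ := h hx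
    exact ⟨⟨y, hy⟩, Subtype.ext e⟩
  have hi : Function.Injective (hm.restrict f B B) := Finite.injective_iff_surjective.2 hs
  obtain ⟨i, j, hne, e⟩ := Finite.exists_ne_map_eq_of_infinite
    (fun n : ℕ => (hm.restrict f B B)^[n] ⟨z, hz⟩)
  have key : ∀ i j : ℕ, i < j →
      (hm.restrict f B B)^[i] ⟨z, hz⟩ = (hm.restrict f B B)^[j] ⟨z, hz⟩ → z ∈ cyc f := by
    intro i j hij e
    have hj : j = i + (j - i) := by omega
    rw [hj, Function.iterate_add_apply] at e
    have e2 := hi.iterate i e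
    have e3 := congrArg Subtype.val e2
    rw [hm.coe_iterate_restrict] at e3
    exact mem_cyc_iff.2 ⟨j - i, by omega, e3.symm⟩
  rcases lt_or_gt_of_ne hne with h1 | h1
  · exact key i j h1 e
  · exact key j i h1 e.symm

lemma card_D (ha0 : a ∈ cyc α) (ha : a ∈ cyc (Function.update α a p)) :
    (cyc α \ cyc (Function.update α a p)).ncard ≤ lev (Function.update α a p) (α a) := by
  set α₁ := Function.update α a p with hα₁
  set d := α a with hd
  set O : Set V := (fun i : ℕ => α₁^[i] d) '' Set.Iio (lev α₁ d) with hO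
  have hOc : O.ncard ≤ lev α₁ d := by
    refine (Set.ncard_image_le (Set.finite_Iio _)).trans ?_
    rw [Set.ncard_eq_toFinset_card' (Set.Iio (lev α₁ d))]
    simp
  have hsub : cyc α \ cyc α₁ ⊆ O := by
    intro x hx
    by_contra hxO
    have hB : (cyc α \ cyc α₁) \ O ⊆ α₁ '' ((cyc α \ cyc α₁) \ O) := by
      rintro z ⟨⟨hz1, hz2⟩, hz3⟩
      obtain ⟨z', hz', e⟩ := cyc_pre hz1
      have hne : z' ≠ a := by
        rintro rfl
        apply hz3
        refine ⟨0, ?_, ?_⟩
        · rw [Set.mem_Iio, Nat.pos_iff_ne_zero]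
          intro h0
          apply hz2
          rw [← e]
          exact lev_eq_zero.1 h0
        · exact e
      have e' : α₁ z' = z := by
        rw [hα₁, Function.update_of_ne hne, e]
      have hz'2 : z' ∉ cyc α₁ := by
        intro h
        apply hz2
        rw [← e']
        exact cyc_map h
      refine ⟨z', ⟨⟨hz', hz'2⟩, ?_⟩, e'⟩
      rintro ⟨i, hi, hi2⟩
      rw [Set.mem_Iio] at hi
      have hi3 : α₁^[i + 1] d = z := by
        rw [Function.iterate_succ_apply', ← e']
        exact congrArg α₁ hi2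
      by_cases hlt : i + 1 < lev α₁ d
      · exact hz3 ⟨i + 1, hlt, hi3⟩
      · apply hz2
        rw [← hi3]
        exact iter_mem (not_lt.1 hlt)
    exact hx.2 (levB_per hB ⟨hx, hxO⟩)
  exact (Set.ncard_le_ncard hsub (Set.toFinite _)).trans hOc

theorem cnt (ha0 : a ∈ cyc α) (ha : a ∈ cyc (Function.update α a p)) :
    (cyc α).ncard + lev α p ≤
      (cyc (Function.update α a p)).ncard + lev (Function.update α a p) (α a) := by
  have h1 := card_D ha0 ha
  set α₁ := Function.update α a p with hα₁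
  obtain ⟨h, -, -, hle, -, hmem, -⟩ := exists_h ha ha0
  set P : Set V := (fun i : ℕ => α^[i] p) '' Set.Iio (lev α p) with hP
  have key : ∀ i j : ℕ, i < j → j < lev α p → α^[i] p ≠ α^[j] p := by
    intro i j hij hj e
    apply iter_not_mem (hij.trans hj)
    refine mem_cyc_iff.2 ⟨j - i, by omega, ?_⟩
    rw [← Function.iterate_add_apply]
    have : j - i + i = j := by omega
    rw [this]
    exact e.symm
  have hinj : Set.InjOn (fun i : ℕ => α^[i] p) (Set.Iio (lev α p)) := by
    intro i hi j hj e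
    by_contra hne
    rcases lt_or_gt_of_ne hne with h2 | h2
    · exact key i j h2 hj e
    · exact key j i h2 hi e.symm
  have hPc : P.ncard = lev α p := by
    rw [hP, hinj.ncard_image, Set.ncard_eq_toFinset_card' (Set.Iio (lev α p))]
    simp
  have hsub : P ∪ (cyc α ∩ cyc α₁) ⊆ cyc α₁ := by
    rintro x (⟨i, hi, rfl⟩ | hx)
    · rw [Set.mem_Iio] at hi
      exact hmem i (by omega)
    · exact hx.2
  have hdis : Disjoint P (cyc α ∩ cyc α₁) := by
    rw [Set.disjoint_left]
    rintro x ⟨i, hi, rfl⟩ hx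
    exact iter_not_mem hi hx.1
  have h2 := Set.ncard_le_ncard hsub (Set.toFinite _)
  rw [Set.ncard_union_eq hdis (Set.toFinite _) (Set.toFinite _), hPc] at h2
  have h3 : (cyc α ∩ cyc α₁).ncard + (cyc α \ cyc α₁).ncard = (cyc α).ncard :=
    Set.ncard_inter_add_ncard_sdiff_eq_ncard _ _ (Set.toFinite _)
  omega

end Pool.Agent.H97.Cyc
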