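import Pool.Agent.H97.Cyc.Sub

/-!
# Simple cycles given by lists

Part of `MP_644d19_co` (road colouring inside cycles). `rep β n` is the `n`-fold repetition of the list
`β`. A simple cycle of `H` is given by `K` and `β` with `β.getLast? = some K`, `β.Nodup`, and every
consecutive pair of `K :: β` joined by an edge. `Cv = {κ | κ ∈ β}`, `nx = β.formPerm`
(`List.formPerm`: for a list without repetition it maps each entry to the next one, cyclically;
`List.formPerm_apply_getElem`, `List.formPerm_pow_apply_getElem`).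

`exists_cycData`: with `m = β.length > 0`, `K = β[m-1]`.
* `maps`, `inj`, `orb`: entries are `β[i]`, `nx^[n] β[i] = β[(i + n) % m]`.
* the pairs of `(K :: β).zip β` are `(β[i-1], β[i])` for `0 < i < m` and `(K, β[0])`, that is all
  `(κ, nx κ)` with `κ ∈ β`; so `out` follows from `hfol`.
* `nx^[m] K = K`; `nx^[N] K = K` gives `β[(m - 1 + N) % m] = β[m - 1]`, so `m ∣ N`
  (`List.Nodup.getElem_inj_iff`).
* `β = (List.range m).map (fun i => nx^[i+1] K)` (`List.ext_getElem`), and
  `rep β n = (List.range (n * m)).map (fun i => nx^[i+1] K)` (induction on `n`,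
  `nx^[i + m] K = nx^[i] K`), and for every `κ ∈ Cv`, `v p = κ`:
  `Along v p ((List.range N).map (fun i => nx^[i+1] κ)) q ↔ Steps v D N p q` by induction on `N`
  (`List.range_succ_eq_map`).
-/

set_option autoImplicit false

namespace Pool.Agent.H97.Cyc

open Pool.Agent.H75.Bunchy Pool.Agent.H97.Bun
open scoped Classical

/-- `n`-fold repetition of a list -/
def rep {α : Type*} (β : List α) (n : ℕ) : List α := (List.replicate n β).flatten

variable {H : Graph}

private lemma mem_zip_iff {α : Type*} (K : α) (β : List α) (hlast : β.getLast? = some K)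
    (hnd : β.Nodup) (κ κ' : α) : (κ, κ') ∈ (K :: β).zip β ↔ κ ∈ β ∧ κ' = β.formPerm κ := by
  have hm : 0 < β.length := by
    rcases β with _ | ⟨b, β⟩
    · simp at hlast
    · simp
  have hK : β[β.length - 1]'(by omega) = K := by
    rw [List.getLast?_eq_getElem?, List.getElem?_eq_some_iff] at hlast
    exact hlast.2
  have hnx : ∀ (i : ℕ) (hi : i < β.length),
      β.formPerm β[i] = β[(i + 1) % β.length]'(Nat.mod_lt _ hm) := fun i hi =>
    List.formPerm_apply_getElem β hnd i hi
  constructor
  · intro h
    obtain ⟨j, hj, hj2⟩ := List.mem_iff_getElem.1 h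
    rw [List.getElem_zip] at hj2
    have hjm : j < β.length := by
      rw [List.length_zip] at hj
      exact lt_of_lt_of_le hj (min_le_right _ _)
    obtain ⟨h1, h2⟩ := Prod.ext_iff.1 hj2
    dsimp only at h1 h2
    rcases j with _ | j
    · rw [List.getElem_cons_zero] at h1
      subst h1
      refine ⟨hK ▸ List.getElem_mem _, ?_⟩
      conv_rhs => rw [← hK]
      rw [hnx, ← h2]
      congr 1
      rw [Nat.sub_add_cancel hm, Nat.mod_self]
    · rw [List.getElem_cons_succ] at h1
      subst h1
      refine ⟨List.getElem_mem _, ?_⟩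
      rw [hnx, ← h2]
      congr 1
      rw [Nat.mod_eq_of_lt hjm]
  · rintro ⟨h1, h2⟩
    obtain ⟨i, hi, rfl⟩ := List.mem_iff_getElem.1 h1
    rw [hnx i hi] at h2
    subst h2
    rw [List.mem_iff_getElem]
    by_cases hc : i + 1 < β.length
    · refine ⟨i + 1, by rw [List.length_zip, List.length_cons]; omega, ?_⟩
      rw [List.getElem_zip, List.getElem_cons_succ]
      refine Prod.ext rfl ?_
      dsimp only
      congr 1
      rw [Nat.mod_eq_of_lt hc]
    · have hc2 : i + 1 = β.length := by omega
      refine ⟨0, by rw [List.length_zip, List.length_cons]; omega, ?_⟩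
      rw [List.getElem_zip, List.getElem_cons_zero]
      refine Prod.ext ?_ ?_
      · dsimp only
        rw [← hK]
        congr 1
        omega
      · dsimp only
        congr 1
        rw [hc2, Nat.mod_self]

/-- the walk along a function -/
private def wlk {α : Type*} (f : α → α) (κ : α) (N : ℕ) : List α :=
  (List.range N).map fun i => f^[i + 1] κ

private lemma wlk_succ {α : Type*} (f : α → α) (κ : α) (N : ℕ) :
    wlk f κ (N + 1) = f κ :: wlk f (f κ) N := by
  unfold wlk
  rw [List.range_succ_eq_map, List.map_cons, List.map_map]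
  rfl

private lemma wlk_add {α : Type*} (f : α → α) (κ : α) (a b : ℕ) :
    wlk f κ (a + b) = wlk f κ a ++ wlk f (f^[a] κ) b := by
  unfold wlk
  rw [List.range_add, List.map_append, List.map_map]
  congr 1
  refine List.map_congr_left fun i _ => ?_
  change f^[a + i + 1] κ = f^[i + 1] (f^[a] κ)
  have h : a + i + 1 = i + 1 + a := by omega
  rw [← Function.iterate_add_apply, h]

private lemma wlk_get {α : Type*} (f : α → α) (κ : α) (N i : ℕ) (h : i < (wlk f κ N).length) :
    (wlk f κ N)[i] = f^[i + 1] κ := by
  simp [wlk]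

private lemma along_wlk {G : Graph} (v : G.V → H.V) (D : CycData H) (q : G.V) (N : ℕ) :
    ∀ (κ : H.V) (p : G.V), κ ∈ D.Cv → v p = κ → (Along v p (wlk D.nx κ N) q ↔ Steps v D N p q) := by
  induction N with
  | zero => exact fun κ p _ _ => Iff.rfl
  | succ N ih =>
    intro κ p hκ hp
    rw [wlk_succ]
    change (∃ q' ∈ FollowersOver v p (D.nx κ), Along v q' (wlk D.nx (D.nx κ) N) q) ↔
      ∃ z, LStep v D p z ∧ Steps v D N z q
    refine exists_congr fun z => ?_
    constructor
    · rintro ⟨h1, h2⟩
      refine ⟨⟨by rw [hp]; exact hκ, by rw [hp]; exact h1⟩, ?_⟩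
      exact (ih (D.nx κ) z (D.maps κ hκ) h1.2).1 h2
    · rintro ⟨⟨h1, h2⟩, h3⟩
      rw [hp] at h2
      exact ⟨h2, (ih (D.nx κ) z (D.maps κ hκ) h2.2).2 h3⟩

theorem exists_cycData (K : H.V) (β : List H.V) (hlast : β.getLast? = some K) (hnd : β.Nodup)
    (hfol : ∀ ab ∈ (K :: β).zip β, ab.2 ∈ H.Followers ab.1) :
    ∃ D : CycData H, K ∈ D.Cv ∧ 0 < β.length ∧ D.nx^[β.length] K = K ∧
      (∀ N, D.nx^[N] K = K → β.length ∣ N) ∧
      (∀ κ κ', (κ, κ') ∈ (K :: β).zip β ↔ κ ∈ D.Cv ∧ κ' = D.nx κ) ∧
      ∀ (G : Graph) (v : G.V → H.V) (p q : G.V) (n : ℕ), v p = K →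
        (Along v p (rep β n) q ↔ Steps v D (n * β.length) p q) := by
  have hm : 0 < β.length := by
    rcases β with _ | ⟨b, β⟩
    · simp at hlast
    · simp
  have hK : β[β.length - 1]'(by omega) = K := by
    rw [List.getLast?_eq_getElem?, List.getElem?_eq_some_iff] at hlast
    exact hlast.2
  have hit : ∀ (n i : ℕ) (hi : i < β.length),
      (β.formPerm : H.V → H.V)^[n] β[i] = β[(i + n) % β.length]'(Nat.mod_lt _ hm) := by
    intro n i hi
    rw [Equiv.Perm.iterate_eq_pow]
    exact List.formPerm_pow_apply_getElem β hnd n i hi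
  have hzip := mem_zip_iff K β hlast hnd
  let D : CycData H :=
    { Cv := {κ | κ ∈ β}
      nx := fun κ => β.formPerm κ
      maps := fun κ hκ => List.formPerm_apply_mem_of_mem hκ
      inj := fun a _ b _ h => β.formPerm.injective h
      orb := by
        intro κ hκ κ' hκ'
        obtain ⟨i, hi, rfl⟩ := List.mem_iff_getElem.1 hκ
        obtain ⟨j, hj, rfl⟩ := List.mem_iff_getElem.1 hκ'
        refine ⟨β.length - i + j, ?_⟩
        rw [hit _ i hi]
        congr 1
        rw [← Nat.add_assoc, Nat.add_sub_cancel' hi.le, Nat.add_mod_left, Nat.mod_eq_of_lt hj]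
      out := by
        intro κ hκ
        exact hfol (κ, β.formPerm κ) ((hzip κ _).2 ⟨hκ, rfl⟩) }
  have hKm : K ∈ D.Cv := by
    change K ∈ β
    rw [← hK]
    exact List.getElem_mem _
  have hper : D.nx^[β.length] K = K := by
    change (β.formPerm : H.V → H.V)^[β.length] K = K
    conv_lhs => rw [← hK]
    rw [hit, ← hK]
    congr 1
    rw [Nat.add_mod_right, Nat.mod_eq_of_lt (by omega)]
  refine ⟨D, hKm, hm, hper, ?_, hzip, ?_⟩
  · intro N hN
    change (β.formPerm : H.V → H.V)^[N] K = K at hN
    rw [← hK, hit, hnd.getElem_inj_iff] at hN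
    have h1 : β.length - 1 + N ≡ β.length - 1 + 0 [MOD β.length] := by
      change (β.length - 1 + N) % β.length = (β.length - 1 + 0) % β.length
      rw [hN, Nat.add_zero, Nat.mod_eq_of_lt (by omega)]
    exact (Nat.modEq_zero_iff_dvd).1 (Nat.ModEq.add_left_cancel' _ h1)
  · intro G v p q n hp
    have h1 : wlk D.nx K β.length = β := by
      refine List.ext_getElem (by simp [wlk]) fun i h1 h2 => ?_
      rw [wlk_get]
      change (β.formPerm : H.V → H.V)^[i + 1] K = β[i]
      conv_lhs => rw [← hK]
      rw [hit]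
      congr 1
      have h3 : β.length - 1 + (i + 1) = β.length + i := by omega
      rw [h3, Nat.add_mod_left, Nat.mod_eq_of_lt h2]
    have h2 : ∀ n, rep β n = wlk D.nx K (n * β.length) := by
      intro n
      induction n with
      | zero => simp [rep, wlk]
      | succ n ih =>
        have h3 : rep β (n + 1) = β ++ rep β n := by
          unfold rep
          rw [List.replicate_succ, List.flatten_cons]
        have h4 : (n + 1) * β.length = β.length + n * β.length := by ring
        rw [h3, h4, wlk_add, hper, h1, ih]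
    rw [h2]
    exact along_wlk v D q _ K p hKm hp

end Pool.Agent.H97.Cyc
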