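import Pool.Agent.H97.Cyc.Fin
import Pool.Agent.H97.Cyc.Hered

/-!
# Bunchy synchronizing factors and cycles with at most eight classes
-/

set_option autoImplicit false

namespace Pool.Agent.H97.Cyc

open Pool.Agent.H75.Bunchy Pool.Agent.H97.Bun
open scoped Classical

variable {G Q H : Graph}

/-- the step for a good cycle -/
theorem cycGood_step (Φ : RightResolver G H) (hG : G.StronglyConnected) {p₀ : G.V} {g g' : H.E}
    (hsg : H.src g = Φ.v p₀) (hsg' : H.src g' = H.src g) (htg' : H.tgt g' = H.tgt g)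
    (hne : Φ.act p₀ g ≠ Φ.act p₀ g') (h : CycGood Φ.v (H.src g) (H.tgt g)) :
    ∃ Φ' : RightResolver G H, Φ'.v = Φ.v ∧ ¬ NoStable H.src H.tgt Φ'.v Φ'.act := by
  obtain ⟨K, β, hlast, hnd, hfol, ⟨Z, n, hZ, hr⟩, hIJ⟩ := h
  obtain ⟨D, hK, hlen, hℓ, hmin, hzip, hal⟩ := exists_cycData K β hlast hnd hfol
  have hr' : ∀ q, Φ.v q = K → ∃ z ∈ Z, Steps Φ.v D (n * β.length) q z := by
    intro q hq
    obtain ⟨z, hz, hz'⟩ := hr q hq
    exact ⟨z, hz, (hal G Φ.v q z n hq).1 hz'⟩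
  rcases hIJ with hIJ | ⟨hKI, hap⟩
  · refine step_off Φ hG hsg hsg' htg' hne hK hlen hℓ hZ hr' (fun hg => hIJ ?_)
    rw [hzip]
    exact hg
  · refine step_on Φ hG hsg hsg' htg' hne hK hlen hℓ hmin hZ hr' hKI.symm (fun hrec => ?_)
    have hp₀ : Φ.v p₀ = K := by rw [← hsg, hKI]
    have h2 : 2 ≤ (FollowersOver Φ.v p₀ (H.tgt g)).ncard := by
      rw [← Set.ncard_pair hne]
      refine Set.ncard_le_ncard ?_ (Set.toFinite _)
      rintro x (rfl | rfl)
      · exact (Φ.mem_followersOver _ _ _).2 ⟨g, hsg, rfl, rfl⟩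
      · exact (Φ.mem_followersOver _ _ _).2 ⟨g', by rw [hsg', hsg], htg', rfl⟩
    have hR : Rcr Φ.v β p₀ := by
      intro m t hmt
      have h3 := (hal G Φ.v p₀ t m hp₀).1 hmt
      obtain ⟨m', hm'⟩ := hrec m t h3
      have h4 : Φ.v t = K := by
        have h5 := (steps_typ (v := Φ.v) (D := D) (by rw [hp₀]; exact hK) h3).1
        rw [h5, hp₀]
        have h6 : ∀ m : ℕ, D.nx^[m * β.length] K = K := by
          intro m
          induction m with
          | zero => simp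
          | succ m ih => rw [Nat.succ_mul, Function.iterate_add_apply, hℓ, ih]
        exact h6 m
      exact ⟨m', (hal G Φ.v t p₀ m' h4).2 hm'⟩
    obtain ⟨m, h3, h4⟩ := hap p₀ hp₀ h2 hR
    exact ⟨m, (hal G Φ.v p₀ p₀ m hp₀).1 h3, (hal G Φ.v p₀ p₀ (m + 1) hp₀).1 h4⟩

/-- **Main theorem.** -/
theorem main9 (G B : Graph) (hG : G.StronglyConnected) (hB : IsBunchy B) (Φ : RightResolver G B)
    (hgood : ∀ I J, 2 ≤ B.mult I J → Good8 Φ.v I J ∨ CycGood Φ.v I J) :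
    ∃ H : Graph, IsBunchy H ∧ ∃ Ψ : RightResolver G H, Ψ.Synchronizing := by
  obtain ⟨Q, Θ, Ψ, hΨ, _, hbij⟩ := relative_of B
    (fun G v => ∀ I J, 2 ≤ B.mult I J → Good8 v I J ∨ CycGood v I J)
    (fun G Q Φ Ψ θ hv h I J hIJ => by
      rcases h I J hIJ with h | h
      · exact Or.inl (h.image Ψ θ Φ hv I J)
      · exact Or.inr (h.image Ψ θ Φ.v hv I J))
    (fun G Φ hG h p₀ g g' hsg hsg' htg' hne => by
      have hmult : 2 ≤ B.mult (B.src g) (B.tgt g) := by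
        have h12 : g ≠ g' := fun h => hne (by rw [h])
        rw [← Set.ncard_pair h12]
        refine Set.ncard_le_ncard ?_ (Set.toFinite _)
        rintro x (rfl | rfl)
        · exact ⟨rfl, rfl⟩
        · exact ⟨hsg', htg'⟩
      rcases h _ _ hmult with h | h
      · exact good8_step1 Φ hG p₀ g g' hsg hsg' htg' hne h
      · exact cycGood_step Φ hG hsg hsg' htg' hne h)
    _ G rfl hG Φ hgood
  obtain ⟨M, hM, Λ, hΛ⟩ := hB
  refine ⟨Q, ⟨M, hM, RightResolver.comp Λ Θ, fun I => ?_⟩, Ψ, hΨ⟩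
  exact (hΛ (Θ.v I)).comp (hbij I)

end Pool.Agent.H97.Cyc
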