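import Pool.Agent.H97.Cyc.Defs

/-!
# The averaging operator over the letters of a set

Part of `MP_644d19_co` (road colouring inside cycles).

* `op_flip`: `e1`, `e2` are both in `L` or both not; at `p ∈ δ` substitute `e ↦ swap e1 e2 e`
  (`Equiv.sum_comp`, `s_swap`); the cardinality does not involve the automaton.
* `exists_LW`: from a type that has a letter in `L` there is a word of every length (`hcont`).
* `op_upper`: the average of numbers `≤ c`, one of them `≤ c - δ`, at most `card E` of them.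
* `opn_le`: induction on `M` (`pow_succ'`: `(op ^ (M+1)) φ = op ((op ^ M) φ)`). `M = 0`: `w₀ = []`.
  Step: `w₀ = e₀ :: w₀'`. For each letter `e ∈ L` at `p` the state `a p e` has type `t e`, has a letter
  in `L` (`hcont`); words `w` of length `M` from `t e` give the words `e :: w` of length `M + 1`.
  Induction hypothesis with `δ = 0` (and any word, `exists_LW`) for `e ≠ e₀`, with `δ` and `w₀'`
  for `e₀`; then `op_upper` with `δ' = (1 / card E) ^ M * δ`.
* `opn_congr`: `(op ^ M) φ p = r` if `φ (run a p w) = r` for all words: `opn_le` for `φ`, `r` and for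
  `-φ`, `-r` with `δ = 0`.
* `opn_bound`: `|op φ p| ≤ C` if `|φ| ≤ C` everywhere (an average, or `0`), then induction.
* `bal_op`: for `p` of type `j` and `v` valid from `j` with `fin = κ` the state `run a p v` has type
  `κ` (`ha.run`), so `op φ (run a p v) = (∑ e, if e ∈ L ∧ s e = κ then φ (run a p (v ++ [e])) else 0) / n`
  with `n > 0` the number of these letters; the mean is additive (`mean_add`, `mean_smul`,
  induction over the finite sum, or exchange the two sums in the definition of `mean`), each term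
  has the mean `m` by hypothesis (word `v ++ [e]`, `Hyb` for `[]`).
* `bal_opn`: induction on `M` with `bal_op`.
-/

set_option autoImplicit false

namespace Pool.Agent.H97.Cyc

open Pool.Agent.H75.Bunchy Pool.Agent.H26.Bunchy Pool.Agent.H97.Bun
open scoped Classical

variable {V K E ι : Type*} [Fintype V] [Fintype E] {s t : E → K} {σ : V → K} {a : V → E → V}
  {e1 e2 : E} {μ : V → ℝ} {L : Set E} {M : ℕ}

private lemma op_swapMem {e1 e2 : E} {L : Set E} (hL : e1 ∈ L ↔ e2 ∈ L) (e : E) :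
    Equiv.swap e1 e2 e ∈ L ↔ e ∈ L := by
  by_cases h1 : e = e1
  · subst h1
    rw [Equiv.swap_apply_left]
    exact hL.symm
  · by_cases h2 : e = e2
    · subst h2
      rw [Equiv.swap_apply_right]
      exact hL
    · rw [Equiv.swap_apply_of_ne_of_ne h1 h2]

lemma op_flip (hs : s e1 = s e2) (hL : e1 ∈ L ↔ e2 ∈ L) (δ : Set V) :
    op s σ (flip e1 e2 δ a) L = op s σ a L := by
  refine LinearMap.ext fun φ => ?_
  funext p
  rw [op_apply, op_apply]
  congr 1
  by_cases hp : p ∈ δ
  · rw [← Equiv.sum_comp (Equiv.swap e1 e2)]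
    refine Finset.sum_congr rfl fun e _ => ?_
    have h1 : flip e1 e2 δ a p (Equiv.swap e1 e2 e) = a p e := by
      rw [flip_of_mem hp, Equiv.swap_apply_self]
    rw [h1]
    have h2 : (Equiv.swap e1 e2 e ∈ L ∧ s (Equiv.swap e1 e2 e) = σ p) ↔ (e ∈ L ∧ s e = σ p) := by
      rw [op_swapMem hL, s_swap hs]
    by_cases h3 : e ∈ L ∧ s e = σ p
    · rw [if_pos h3, if_pos (h2.2 h3)]
    · rw [if_neg h3, if_neg fun h => h3 (h2.1 h)]
  · refine Finset.sum_congr rfl fun e _ => ?_
    rw [flip_of_notMem hp]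

omit [Fintype V] [Fintype E] in
lemma exists_LW (hcont : ∀ e ∈ L, ∃ f ∈ L, s f = t e) (M : ℕ) (κ : K) (hκ : ∃ e ∈ L, s e = κ) :
    ∃ w, LW s t L M κ w := by
  induction M generalizing κ with
  | zero => exact ⟨[], trivial, rfl, fun e he => absurd he List.not_mem_nil⟩
  | succ M ih =>
    obtain ⟨e, he, hk⟩ := hκ
    obtain ⟨w, h1, h2, h3⟩ := ih (t e) (hcont e he)
    refine ⟨e :: w, ⟨hk, h1⟩, by simp [h2], ?_⟩
    intro f hf
    rcases List.mem_cons.1 hf with rfl | hf
    · exact he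
    · exact h3 f hf

private lemma op_sumEq (φ : V → ℝ) (p : V) :
    (∑ e, if e ∈ L ∧ s e = σ p then φ (a p e) else 0) =
      ∑ e ∈ Finset.univ.filter (fun e => e ∈ L ∧ s e = σ p), φ (a p e) := by
  rw [Finset.sum_filter]

lemma op_upper {φ : V → ℝ} {p : V} {c δ : ℝ} (hδ : 0 ≤ δ)
    (h : ∀ e ∈ L, s e = σ p → φ (a p e) ≤ c) {e₀ : E} (he₀ : e₀ ∈ L) (hs₀ : s e₀ = σ p)
    (h₀ : φ (a p e₀) ≤ c - δ) : op s σ a L φ p ≤ c - 1 / (Fintype.card E : ℝ) * δ := by
  rw [op_apply, op_sumEq]
  obtain ⟨F, hF⟩ : ∃ F : Finset E, F = Finset.univ.filter (fun e => e ∈ L ∧ s e = σ p) := ⟨_, rfl⟩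
  rw [← hF]
  have hmem : e₀ ∈ F := by
    rw [hF]
    simp [he₀, hs₀]
  have hn : 0 < (F.card : ℝ) := by
    exact_mod_cast Finset.card_pos.2 ⟨e₀, hmem⟩
  have hle : (F.card : ℝ) ≤ (Fintype.card E : ℝ) := by
    exact_mod_cast Finset.card_le_univ F
  have hS : ∑ e ∈ F, φ (a p e) ≤ F.card * c - δ := by
    rw [← Finset.add_sum_erase F _ hmem]
    have h2 : ∑ e ∈ F.erase e₀, φ (a p e) ≤ ((F.erase e₀).card : ℝ) * c := by
      have := Finset.sum_le_card_nsmul (F.erase e₀) (fun e => φ (a p e)) c ?_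
      · simpa using this
      · intro e he
        have h3 := Finset.mem_of_mem_erase he
        rw [hF] at h3
        have h4 := (Finset.mem_filter.1 h3).2
        exact h e h4.1 h4.2
    have h5 : ((F.erase e₀).card : ℝ) = F.card - 1 := by
      rw [Finset.card_erase_of_mem hmem, Nat.cast_sub (Finset.card_pos.2 ⟨e₀, hmem⟩)]
      simp
    rw [h5] at h2
    linarith
  have h6 : (∑ e ∈ F, φ (a p e)) / F.card ≤ (F.card * c - δ) / F.card :=
    div_le_div_of_nonneg_right hS hn.le
  have h7 : (F.card * c - δ) / F.card = c - 1 / F.card * δ := by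
    field_simp
  have h8 : 1 / (Fintype.card E : ℝ) * δ ≤ 1 / (F.card : ℝ) * δ :=
    mul_le_mul_of_nonneg_right (one_div_le_one_div_of_le hn hle) hδ
  linarith

theorem opn_le (ha : Typed s t σ a) (hcont : ∀ e ∈ L, ∃ f ∈ L, s f = t e) (M : ℕ) {p : V}
    (hp : ∃ e ∈ L, s e = σ p) {φ : V → ℝ} {c δ : ℝ} (hδ : 0 ≤ δ)
    (hφ : ∀ w, LW s t L M (σ p) w → φ (run a p w) ≤ c) {w₀ : List E}
    (hw₀ : LW s t L M (σ p) w₀) (h₀ : φ (run a p w₀) ≤ c - δ) :
    (op s σ a L ^ M) φ p ≤ c - (1 / (Fintype.card E : ℝ)) ^ M * δ := by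
  induction M generalizing p δ w₀ with
  | zero =>
    obtain ⟨-, h2, -⟩ := hw₀
    have h3 : w₀ = [] := List.eq_nil_of_length_eq_zero h2
    subst h3
    simpa using h₀
  | succ M ih =>
    obtain ⟨h1, h2, h3⟩ := hw₀
    cases w₀ with
    | nil => simp at h2
    | cons e₀ w₀' =>
      obtain ⟨k1, k2⟩ := h1
      have hσ : ∀ e, s e = σ p → σ (a p e) = t e := fun e he => ha p e he
      have hw : ∀ e ∈ L, s e = σ p → ∀ w, LW s t L M (σ (a p e)) w → φ (run a (a p e) w) ≤ c := by
        intro e he hse w hw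
        rw [hσ e hse] at hw
        obtain ⟨q1, q2, q3⟩ := hw
        refine hφ (e :: w) ⟨⟨hse, q1⟩, by simp [q2], ?_⟩
        intro f hf
        rcases List.mem_cons.1 hf with rfl | hf
        · exact he
        · exact q3 f hf
      have hpe : ∀ e ∈ L, s e = σ p → ∃ f ∈ L, s f = σ (a p e) := by
        intro e he hse
        rw [hσ e hse]
        exact hcont e he
      have he₀ : e₀ ∈ L := h3 e₀ List.mem_cons_self
      have hall : ∀ e ∈ L, s e = σ p → ((op s σ a L ^ M) φ) (a p e) ≤ c := by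
        intro e he hse
        obtain ⟨w, hwL⟩ := exists_LW hcont M (σ (a p e)) (hpe e he hse)
        have := ih (hpe e he hse) le_rfl (hw e he hse) hwL (by simpa using hw e he hse w hwL)
        simpa using this
      have hw₀' : LW s t L M (σ (a p e₀)) w₀' := by
        rw [hσ e₀ k1]
        refine ⟨k2, by simpa using h2, fun f hf => h3 f (List.mem_cons_of_mem _ hf)⟩
      have hzero : ((op s σ a L ^ M) φ) (a p e₀) ≤ c - (1 / (Fintype.card E : ℝ)) ^ M * δ :=
        ih (hpe e₀ he₀ k1) hδ (hw e₀ he₀ k1) hw₀' h₀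
      have hδ' : 0 ≤ (1 / (Fintype.card E : ℝ)) ^ M * δ := by positivity
      have := op_upper (s := s) (σ := σ) (a := a) (L := L) hδ' hall he₀ k1 hzero
      rw [pow_succ', Module.End.mul_apply]
      refine this.trans (le_of_eq ?_)
      rw [pow_succ']
      ring

lemma opn_congr (ha : Typed s t σ a) (hcont : ∀ e ∈ L, ∃ f ∈ L, s f = t e) (M : ℕ) {p : V}
    (hp : ∃ e ∈ L, s e = σ p) {φ : V → ℝ} {r : ℝ}
    (hφ : ∀ w, LW s t L M (σ p) w → φ (run a p w) = r) : (op s σ a L ^ M) φ p = r := by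
  obtain ⟨w, hw⟩ := exists_LW hcont M (σ p) hp
  have h1 := opn_le ha hcont M hp (φ := φ) (c := r) (δ := 0) le_rfl
    (fun w hw => (hφ w hw).le) hw (by simpa using (hφ w hw).le)
  have h2 := opn_le ha hcont M hp (φ := -φ) (c := -r) (δ := 0) le_rfl
    (fun w hw => by rw [Pi.neg_apply, hφ w hw]) hw (by rw [Pi.neg_apply, hφ w hw]; simp)
  rw [map_neg, Pi.neg_apply] at h2
  simp only [mul_zero, sub_zero] at h1 h2
  linarith

private lemma op_bound {φ : V → ℝ} {C : ℝ} (hC : 0 ≤ C) (hφ : ∀ p, |φ p| ≤ C) (p : V) :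
    |op s σ a L φ p| ≤ C := by
  rw [op_apply, op_sumEq]
  obtain ⟨F, hF⟩ : ∃ F : Finset E, F = Finset.univ.filter (fun e => e ∈ L ∧ s e = σ p) := ⟨_, rfl⟩
  rw [← hF, abs_div]
  have h1 : |∑ e ∈ F, φ (a p e)| ≤ F.card * C := by
    refine (Finset.abs_sum_le_sum_abs _ _).trans ?_
    have := Finset.sum_le_card_nsmul F (fun e => |φ (a p e)|) C fun e _ => hφ _
    simpa using this
  rcases Nat.eq_zero_or_pos F.card with h0 | h0
  · rw [h0]
    simpa using hC
  · have hn : 0 < (F.card : ℝ) := by exact_mod_cast h0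
    rw [abs_of_pos hn, div_le_iff₀ hn]
    linarith

lemma opn_bound (M : ℕ) {φ : V → ℝ} {C : ℝ} (hC : 0 ≤ C) (hφ : ∀ p, |φ p| ≤ C) (p : V) :
    |(op s σ a L ^ M) φ p| ≤ C := by
  induction M generalizing p with
  | zero => simpa using hφ p
  | succ M ih =>
    rw [pow_succ', Module.End.mul_apply]
    exact op_bound hC ih p

end Pool.Agent.H97.Cyc
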