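import Pool.Agent.H97.Cyc.High
import Pool.Agent.H75.Bunchy.Quot

/-!
# A unique highest tree gives a stable pair

Part of `MP_644d19_co` (road colouring inside cycles). A typed automaton `(s, t, σ, a)`, strongly
connected, with a letter `ω κ` for every type such that `a p (ω (σ p)) = α p`; the map of types
`κ ↦ t (ω κ)` is injective. `α` is as in `exists_highest`.

`wd ω t κ n` is the word of length `n` from `κ` with letters `ω`; it is valid
(every type that occurs has a state) and `run a p (wd ω t (σ p) n) = α^[n] p`.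

`exists_stable`: suppose there is no nontrivial stable pair. Let `y` with `α^[L] y ∉ cyc α`,
`C` a minimal image containing `y` (`exists_FC`), `κ = σ y`, all states of `C` have type `κ`
(`IsFC.type`). For `z ∈ C`, `z ≠ y`: `α^[L] z ∈ cyc α`, since otherwise
`α^[L+1] z = α^[L+1] y`, but the word `wd κ (L+1)` is injective on `C` (`IsFC.deadSet`,
`DeadSet.injOn`). Let `C₁` be the image of `C` under `wd κ L`: a minimal image (`IsFC.image`),
`C₁ = insert y₁ Z`, `y₁ = α^[L] y ∉ cyc α`, `Z = α^[L] '' (C \ {y}) ⊆ cyc α`. Let `m > 0` be a common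
multiple of the periods: `α^[m] z = z` for all `z ∈ cyc α` (e.g. `(Nat.card V)!`, or the product of
`Function.minimalPeriod`s). `y₂ = α^[m] y₁ ∈ cyc α` (`α y₁ = α^[L+1] y ∈ cyc α`, `m ≥ 1`). The type of
`y₂` is the type `κ₁` of `y₁`: let `g κ = t (ω κ)`; `σ (α^[n] p) = g^[n] (σ p)`; `z = α y₁` is
periodic, so `g^[m] (g κ₁) = g κ₁`, so `g (g^[m] κ₁) = g κ₁` (`Function.iterate_succ_apply'`,
`Function.Commute`), so `g^[m] κ₁ = κ₁` by injectivity (`hinj`; both types have states). The image of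
`C₁` under `wd κ₁ m` is a minimal image: `insert y₂ Z`. `y₁ ∉ Z`, `y₂ ∉ Z` (the word is injective on
`C₁`, `y₁ ∉ Z`, and `Z` is fixed pointwise). `stable_of_swap` (with `IsFC.deadSet` for both):
`(y₁, y₂)` is stable, and `y₁ ≠ y₂`.
-/

set_option autoImplicit false

/-!
# A unique highest tree gives a stable pair

Part of `MP_644d19_co` (road colouring inside cycles). A typed automaton `(s, t, σ, a)`, strongly
connected, with a letter `ω κ` for every type such that `a p (ω (σ p)) = α p`; the map of types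
`κ ↦ t (ω κ)` is injective. `α` is as in `exists_highest`.

`wd ω t κ n` is the word of length `n` from `κ` with letters `ω`; it is valid
(every type that occurs has a state) and `run a p (wd ω t (σ p) n) = α^[n] p`.

`exists_stable`: suppose there is no nontrivial stable pair. Let `y` with `α^[L] y ∉ cyc α`,
`C` a minimal image containing `y` (`exists_FC`), `κ = σ y`, all states of `C` have type `κ`
(`IsFC.type`). For `z ∈ C`, `z ≠ y`: `α^[L] z ∈ cyc α`, since otherwise
`α^[L+1] z = α^[L+1] y`, but the word `wd κ (L+1)` is injective on `C` (`IsFC.deadSet`,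
`DeadSet.injOn`). Let `C₁` be the image of `C` under `wd κ L`: a minimal image (`IsFC.image`),
`C₁ = insert y₁ Z`, `y₁ = α^[L] y ∉ cyc α`, `Z = α^[L] '' (C \ {y}) ⊆ cyc α`. Let `m > 0` be a common
multiple of the periods: `α^[m] z = z` for all `z ∈ cyc α` (e.g. `(Nat.card V)!`, or the product of
`Function.minimalPeriod`s). `y₂ = α^[m] y₁ ∈ cyc α` (`α y₁ = α^[L+1] y ∈ cyc α`, `m ≥ 1`). The type of
`y₂` is the type `κ₁` of `y₁`: let `g κ = t (ω κ)`; `σ (α^[n] p) = g^[n] (σ p)`; `z = α y₁` is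
periodic, so `g^[m] (g κ₁) = g κ₁`, so `g (g^[m] κ₁) = g κ₁` (`Function.iterate_succ_apply'`,
`Function.Commute`), so `g^[m] κ₁ = κ₁` by injectivity (`hinj`; both types have states). The image of
`C₁` under `wd κ₁ m` is a minimal image: `insert y₂ Z`. `y₁ ∉ Z`, `y₂ ∉ Z` (the word is injective on
`C₁`, `y₁ ∉ Z`, and `Z` is fixed pointwise). `stable_of_swap` (with `IsFC.deadSet` for both):
`(y₁, y₂)` is stable, and `y₁ ≠ y₂`.
-/

namespace Pool.Agent.H97.Cyc

open Pool.Agent.H75.Bunchy
open scoped Classical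

section
variable {K E : Type*}

/-- the word of length `n` from the type `κ` with the letters `ω` -/
def wd (ω : K → E) (t : E → K) : K → ℕ → List E
  | _, 0 => []
  | κ, n + 1 => ω κ :: wd ω t (t (ω κ)) n

end

variable {V K E : Type*} {s t : E → K} {σ : V → K} {a : V → E → V} {ω : K → E} {α : V → V}

lemma wd_spec (ha : Typed s t σ a) (hω : ∀ p, s (ω (σ p)) = σ p)
    (hα : ∀ p, a p (ω (σ p)) = α p) (n : ℕ) (p : V) :
    Valid s t (σ p) (wd ω t (σ p) n) ∧ run a p (wd ω t (σ p) n) = α^[n] p := by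
  induction n generalizing p with
  | zero => exact ⟨trivial, rfl⟩
  | succ n ih =>
    have h1 : t (ω (σ p)) = σ (α p) := by
      rw [← hα p]
      exact (ha p (ω (σ p)) (hω p)).symm
    have h2 := ih (α p)
    have h3 : wd ω t (σ p) (n + 1) = ω (σ p) :: wd ω t (σ (α p)) n := by
      rw [wd, h1]
    rw [h3]
    refine ⟨⟨hω p, ?_⟩, ?_⟩
    · rw [h1]
      exact h2.1
    · rw [run_cons, hα p, h2.2, Function.iterate_succ_apply]

theorem exists_stable [Finite V] (ha : Typed s t σ a) (hcn : Conn s σ a)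
    (hω : ∀ p, s (ω (σ p)) = σ p) (hα : ∀ p, a p (ω (σ p)) = α p)
    (hinj : ∀ p q, t (ω (σ p)) = t (ω (σ q)) → σ p = σ q) {L : ℕ}
    (h1 : ∀ y, α^[L + 1] y ∈ cyc α) (h2 : ∃ y, α^[L] y ∉ cyc α)
    (h3 : ∀ y z, α^[L] y ∉ cyc α → α^[L] z ∉ cyc α → α^[L + 1] y = α^[L + 1] z) :
    ¬ NoStable s t σ a := by
  intro hno
  have hsp := wd_spec (t := t) ha hω hα
  obtain ⟨y, hy⟩ := h2
  obtain ⟨C, hC, hyC⟩ := exists_FC ha hcn y
  have hk : ∀ z ∈ C, σ z = σ y := fun z hz => hC.type ha hz hyC
  have hrun : ∀ n, ∀ z, σ z = σ y → run a z (wd ω t (σ y) n) = α^[n] z := by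
    intro n z hz
    rw [← hz]
    exact (hsp n z).2
  have hinjC : Set.InjOn (fun z => α^[L + 1] z) C := by
    intro u hu v hv huv
    refine (hC.deadSet ha).injOn hk (hsp (L + 1) y).1 hu hv ?_
    change run a u _ = run a v _
    rw [hrun _ _ (hk u hu), hrun _ _ (hk v hv)]
    exact huv
  have hcycC : ∀ z ∈ C, z ≠ y → α^[L] z ∈ cyc α := by
    intro z hz hne
    by_contra hcon
    exact hne (hinjC hz hyC (h3 z y hcon hy))
  -- the set `Z`
  obtain ⟨Z, hZdef⟩ : ∃ Z : Set V, Z = (fun z => α^[L] z) '' (C \ {y}) := ⟨_, rfl⟩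
  have hZcyc : ∀ z ∈ Z, z ∈ cyc α := by
    rw [hZdef]
    rintro _ ⟨z, hz, rfl⟩
    exact hcycC z hz.1 hz.2
  have hC1 : IsFC s t σ a (insert (α^[L] y) Z) := by
    have h4 := hC.image ha hyC (hsp L y).1
    have h5 : (fun p => run a p (wd ω t (σ y) L)) '' C = insert (α^[L] y) Z := by
      have h6 : (fun p => run a p (wd ω t (σ y) L)) '' C = (fun z => α^[L] z) '' C :=
        Set.image_congr fun z hz => hrun L z (hk z hz)
      rw [h6, hZdef, ← Set.image_insert_eq, Set.insert_sdiff_singleton, Set.insert_eq_of_mem hyC]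
    rw [h5] at h4
    exact h4
  -- a common period
  obtain ⟨m, hm, hper⟩ : ∃ m > 0, ∀ z ∈ cyc α, α^[m] z = z := by
    have _ : Fintype V := Fintype.ofFinite V
    refine ⟨∏ z : V, (if z ∈ cyc α then Function.minimalPeriod α z else 1), ?_, ?_⟩
    · refine Finset.prod_pos fun z _ => ?_
      split_ifs with hz
      · exact Function.minimalPeriod_pos_of_mem_periodicPts hz
      · exact one_pos
    · intro z hz
      refine (Function.isPeriodicPt_minimalPeriod α z).trans_dvd ?_
      have h4 := Finset.dvd_prod_of_mem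
        (fun z : V => if z ∈ cyc α then Function.minimalPeriod α z else 1) (Finset.mem_univ z)
      simp only [if_pos hz] at h4
      exact h4
  obtain ⟨y₁, hy₁⟩ : ∃ y₁, y₁ = α^[L] y := ⟨_, rfl⟩
  rw [← hy₁] at hy hC1
  have hαy : α y₁ ∈ cyc α := by
    rw [hy₁, ← Function.iterate_succ_apply' α L y]
    exact h1 y
  have hy₂c : α^[m] y₁ ∈ cyc α := by
    obtain ⟨k, rfl⟩ : ∃ k, m = k + 1 := ⟨m - 1, by omega⟩
    rw [Function.iterate_succ_apply]
    exact cyc_iter hαy k
  -- types
  have hg : ∀ n p, σ (α^[n] p) = (fun κ => t (ω κ))^[n] (σ p) := by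
    intro n
    induction n with
    | zero => intro p; rfl
    | succ n ih =>
      intro p
      rw [Function.iterate_succ_apply, Function.iterate_succ_apply, ih (α p)]
      congr 1
      rw [← hα p]
      exact ha p (ω (σ p)) (hω p)
  have hty : σ (α^[m] y₁) = σ y₁ := by
    apply hinj
    have h4 : σ (α (α^[m] y₁)) = σ (α y₁) := by
      rw [← Function.iterate_succ_apply' α m y₁, Function.iterate_succ_apply, hper _ hαy]
    have h5 := hg 1 (α^[m] y₁)
    have h6 := hg 1 y₁
    simp only [Function.iterate_one] at h5 h6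
    rw [← h5, ← h6, h4]
  have hk1 : ∀ z ∈ insert y₁ Z, σ z = σ y₁ := fun z hz => hC1.type ha hz (Set.mem_insert _ _)
  have hrun1 : ∀ z, σ z = σ y₁ → run a z (wd ω t (σ y₁) m) = α^[m] z := by
    intro z hz
    rw [← hz]
    exact (hsp m z).2
  have hC2 : IsFC s t σ a (insert (α^[m] y₁) Z) := by
    have h4 := hC1.image ha (Set.mem_insert _ _) (hsp m y₁).1
    have h5 : (fun p => run a p (wd ω t (σ y₁) m)) '' (insert y₁ Z) = insert (α^[m] y₁) Z := by
      have h6 : (fun p => run a p (wd ω t (σ y₁) m)) '' (insert y₁ Z) =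
          (fun z => α^[m] z) '' (insert y₁ Z) :=
        Set.image_congr fun z hz => hrun1 z (hk1 z hz)
      rw [h6, Set.image_insert_eq]
      congr 1
      have h7 : (fun z => α^[m] z) '' Z = id '' Z :=
        Set.image_congr fun z hz => hper z (hZcyc z hz)
      rw [h7, Set.image_id]
    rw [h5] at h4
    exact h4
  have hn1 : y₁ ∉ Z := fun h => hy (hZcyc _ h)
  have hn2 : α^[m] y₁ ∉ Z := by
    intro h
    have h4 : α^[m] y₁ ∈ insert y₁ Z := Set.mem_insert_of_mem _ h
    have h5 := (hC1.deadSet ha).injOn hk1 (hsp m y₁).1 (Set.mem_insert y₁ Z) h4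
      (by
        change run a y₁ _ = run a (α^[m] y₁) _
        rw [hrun1 _ rfl, hrun1 _ hty, hper _ hy₂c])
    exact hy (h5 ▸ hy₂c)
  have hst := stable_of_swap ha hcn hn1 hn2 hty.symm (hC1.deadSet ha) (hC2.deadSet ha)
    (by obtain ⟨_, _, _, _, h⟩ := hC1; exact h)
  have h6 := hno _ _ hst
  exact hy (by rw [h6]; exact hy₂c)

end Pool.Agent.H97.Cyc
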