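import Pool.Agent.H97.Cyc.Stab
import Pool.Agent.H97.Bun.Main8

/-!
# The relative road colouring theorem over a cycle with multiple edges

Part of `MP_644d19_co` (road colouring inside cycles). `C` is a graph in which every vertex has an
outgoing edge and all edges from `κ` lead to `nx κ`, with `nx` injective.

`cyc_step`: a right resolver `Φ : G → C`, `G` strongly connected, with a vertex `p₀` with two
distinct followers, can be recoloured so that there is a nontrivial stable pair. Every vertex of `G` has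
a follower (`Φ.exists_edge` and `hout`). Let `F = G.Followers`.
* If two vertices `p ≠ q` have `F p = {r} = F q`: `Φ.v r = nx (Φ.v p) = nx (Φ.v q)`, so
  `Φ.v p = Φ.v q`, and `(p, q)` is stable for `Φ` itself: for every letter `e` at `Φ.v p`
  `Φ.act p e = r = Φ.act q e` (`Φ.exists_edge`, `Φ.act_eq`); for `v = []` take `u = [e]`, for
  `v = e :: v'` take `u = []`.
* Otherwise `exists_highest` gives `α`, `L`. Choose for every `κ` an edge `ω κ` from `κ` (`hout`).
  For every `p` there is a letter `g` at `Φ.v p` with `Φ.act p g = α p` (`α p ∈ F p`), and a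
  permutation of parallel letters with `ω (Φ.v p) ↦ g` (`exists_perm1`; both lead from `Φ.v p` to
  `nx (Φ.v p)`). `Φ.exists_recolor` gives `Φ'` with `Φ'.act p (ω (Φ.v p)) = α p`. Apply
  `exists_stable` (`Φ'.act_typed`, `Φ'.conn hG`; `C.tgt (ω κ) = nx κ`).

`cyc_relative`: `relative_of C (fun _ _ => True)` (from `Main8.lean`) with `cyc_step`.
-/

set_option autoImplicit false

namespace Pool.Agent.H97.Cyc

open Pool.Agent.H75.Bunchy Pool.Agent.H97.Bun
open scoped Classical

variable {G C : Graph}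

theorem cyc_step (nx : C.V → C.V) (hnx : Function.Injective nx)
    (htgt : ∀ e, C.tgt e = nx (C.src e)) (hout : ∀ κ, ∃ e, C.src e = κ)
    (Φ : RightResolver G C) (hG : G.StronglyConnected) {p₀ : G.V} {g g' : C.E}
    (hsg : C.src g = Φ.v p₀) (hsg' : C.src g' = C.src g) (hne : Φ.act p₀ g ≠ Φ.act p₀ g') :
    ∃ Φ' : RightResolver G C, Φ'.v = Φ.v ∧ ¬ NoStable C.src C.tgt Φ'.v Φ'.act := by
  have hfol : ∀ p q, q ∈ G.Followers p → Φ.v q = nx (Φ.v p) := by
    rintro _ _ ⟨f, rfl, rfl⟩
    rw [← Φ.tgt_comm, htgt, Φ.src_comm]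
  have hactF : ∀ p e, C.src e = Φ.v p → Φ.act p e ∈ G.Followers p := by
    intro p e he
    obtain ⟨f, rfl, rfl⟩ := Φ.exists_edge p he
    exact ⟨f, rfl, (Φ.act_eq f).symm⟩
  have hF : ∀ p, (G.Followers p).Nonempty := by
    intro p
    obtain ⟨e, he⟩ := hout (Φ.v p)
    exact ⟨_, hactF p e he⟩
  by_cases hb : ∃ p q r, p ≠ q ∧ G.Followers p = {r} ∧ G.Followers q = {r}
  · obtain ⟨p, q, r, hpq, hp, hq⟩ := hb
    refine ⟨Φ, rfl, fun hno => hpq (hno p q ?_)⟩
    have hpr : Φ.v r = nx (Φ.v p) := hfol p r (by rw [hp]; rfl)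
    have hqr : Φ.v r = nx (Φ.v q) := hfol q r (by rw [hq]; rfl)
    have hv : Φ.v p = Φ.v q := hnx (by rw [← hpr, ← hqr])
    have hap : ∀ e, C.src e = Φ.v p → Φ.act p e = r := by
      intro e he
      have := hactF p e he
      rw [hp] at this
      exact this
    have haq : ∀ e, C.src e = Φ.v p → Φ.act q e = r := by
      intro e he
      have := hactF q e (by rw [← hv]; exact he)
      rw [hq] at this
      exact this
    refine ⟨hv, fun v hval => ?_⟩
    cases v with
    | nil =>
      obtain ⟨e, he⟩ := hout (Φ.v p)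
      refine ⟨[e], ⟨he, trivial⟩, ?_⟩
      change run Φ.act p [e] = run Φ.act q [e]
      rw [run_cons, run_cons, hap e he, haq e he]
    | cons e v' =>
      refine ⟨[], trivial, ?_⟩
      rw [List.append_nil, run_cons, run_cons, hap e hval.1, haq e hval.1]
  · push Not at hb
    have hbunch : ∀ p q r, G.Followers p = {r} → G.Followers q = {r} → p = q := by
      intro p q r hp hq
      by_contra hne'
      exact hb p q r hne' hp hq
    have hr1 : Φ.act p₀ g ∈ G.Followers p₀ := hactF p₀ g hsg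
    have hr2 : Φ.act p₀ g' ∈ G.Followers p₀ := hactF p₀ g' (by rw [hsg', hsg])
    obtain ⟨α, L, hα, h1, h2, h3⟩ := exists_highest (F := G.Followers) hF hG hbunch hr1 hr2 hne
    choose ω hω using hout
    have hfollow : ∀ p q, q ∈ G.Followers p → ∃ e, C.src e = Φ.v p ∧ Φ.act p e = q := by
      rintro _ _ ⟨f, rfl, rfl⟩
      exact ⟨Φ.e f, Φ.src_comm f, Φ.act_eq f⟩
    obtain ⟨Φ', hv, hΦ'⟩ := Φ.exists_recolor
      (fun p π => Φ.act p (π (ω (Φ.v p))) = α p) (by
        intro p
        obtain ⟨e, he, hae⟩ := hfollow p _ (hα p)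
        obtain ⟨π, hπ, _, hπe⟩ := exists_perm1 C (e := ω (Φ.v p)) (f := e)
          (by rw [hω, he]) (by rw [htgt, htgt, hω, he])
        exact ⟨π, hπ, by rw [hπe, hae]⟩)
    refine ⟨Φ', hv, ?_⟩
    refine exists_stable (ω := ω) (α := α) Φ'.act_typed (Φ'.conn hG) (fun p => hω _) ?_ ?_
      h1 h2 h3
    · intro p
      obtain ⟨π, _, hQ, hπ⟩ := hΦ' p
      rw [hπ, hv]
      exact hQ
    · intro p q h
      rw [htgt, htgt, hω, hω] at h
      exact hnx h

theorem cyc_relative (nx : C.V → C.V) (hnx : Function.Injective nx)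
    (htgt : ∀ e, C.tgt e = nx (C.src e)) (hout : ∀ κ, ∃ e, C.src e = κ)
    (Φ : RightResolver G C) (hG : G.StronglyConnected) :
    ∃ (Q : Graph) (Θ : RightResolver Q C) (Ψ : RightResolver G Q), Ψ.Synchronizing ∧
      (∀ p, Θ.v (Ψ.v p) = Φ.v p) ∧
      ∀ c : Q.V, Set.BijOn Θ.v (Q.Followers c) (C.Followers (Θ.v c)) := by
  refine relative_of C (fun _ _ => True) (fun _ _ _ _ _ _ _ => trivial) ?_ _ G rfl hG Φ trivial
  intro G Φ hG _ p₀ g g' hsg hsg' _ hne
  exact cyc_step nx hnx htgt hout Φ hG hsg hsg' hne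

end Pool.Agent.H97.Cyc
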