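import Pool.Agent.H97.Bun.Main8

/-!
# Terminal components over a cycle

Part of `MP_644d19_co` (road colouring inside cycles). `D : CycData H` is a cycle of the graph `H`: a
set `Cv` of vertices, a successor function `nx` on it with a single orbit, such that every
`κ ∈ Cv` has an edge to `nx κ`. `D.L` is the set of the edges from some `κ ∈ Cv` to `nx κ`.
`LStep v D p q`: `v p ∈ Cv` and `q` is a follower of `p` over `nx (v p)`. `Term v D S`: `S` is a terminal
component of `G` over the cycle.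

`C_D = D.graph`: vertices `Cv`, edges `L`. `subG`: the part of `G` on `S`: vertices `S`, edges the
edges `f` of `G` with source in `S` and target over the next vertex of the cycle.
`sub`: the right resolver `subG → D.graph` induced by `Φ` (`mk'`): `v p = ⟨Φ.v p, _⟩`,
`e f = ⟨Φ.e f, _⟩` (`Φ.src_comm`, `Φ.tgt_comm`). Surjective on vertices: `S` is nonempty, closed under
`LStep`, every `κ ∈ Cv` is `nx^[n] (v p)` (`orb`), and every vertex over `κ` has a follower over `nx κ`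
(`D.out`, `Φ.exists_edge`). Bijective on edges at each vertex: from `Φ.bij`.
`sub_conn`: strongly connected, from `Term`.

`exists_col`: `cyc_relative` for `sub` with `nx` restricted to `Cv` gives `Q`, `Θ`, `Ψ`; the right
resolver `χ = comp Θ Ψ : subG → D.graph` has `χ.v = sub.v`. In `Q` every vertex has exactly one
follower (`BijOn` with the one-element set `D.graph.Followers κ = {nx κ}`). If `p →(N) q` and
`p →(N) p` by `N` steps `LStep` in `S`, then `Ψ.v q = Ψ.v p`: the image of a path of `G` is a path of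
`Q` (`Ψ.src_comm`, `Ψ.tgt_comm`), and paths of `Q` of the same length from the same vertex end at the
same vertex. By `Ψ.Synchronizing` at `J = Ψ.v p` there is a path `w` of `Q` from `J` whose lifts from
all `I` with `Ψ.v I = J` end at the same vertex `K`; `leads_map Θ Ψ` and `leads_iff` for `χ`: the word
`w.map Θ.e` is valid from `χ.v p` and `run χ.act q (w.map Θ.e) = K` for all `q` with `Ψ.v q = J`.
-/

set_option autoImplicit false

namespace Pool.Agent.H97.Cyc

open Pool.Agent.H75.Bunchy Pool.Agent.H97.Bun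
open scoped Classical

/-- a cycle of the graph `H` -/
structure CycData (H : Graph) where
  /-- the vertices of the cycle -/
  Cv : Set H.V
  /-- the successor of a vertex of the cycle -/
  nx : H.V → H.V
  maps : ∀ κ ∈ Cv, nx κ ∈ Cv
  inj : Set.InjOn nx Cv
  orb : ∀ κ ∈ Cv, ∀ κ' ∈ Cv, ∃ n, nx^[n] κ = κ'
  out : ∀ κ ∈ Cv, ∃ e, H.src e = κ ∧ H.tgt e = nx κ

variable {G H : Graph}

/-- the edges of the cycle -/
def CycData.L (D : CycData H) : Set H.E := {e | H.src e ∈ D.Cv ∧ H.tgt e = D.nx (H.src e)}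

/-- the cycle as a graph (with multiple edges) -/
def CycData.graph (D : CycData H) : Graph where
  V := {κ // κ ∈ D.Cv}
  E := {e // e ∈ D.L}
  src e := ⟨H.src e.1, e.2.1⟩
  tgt e := ⟨H.tgt e.1, by rw [e.2.2]; exact D.maps _ e.2.1⟩

/-- one step over the cycle -/
def LStep (v : G.V → H.V) (D : CycData H) (p q : G.V) : Prop :=
  v p ∈ D.Cv ∧ q ∈ FollowersOver v p (D.nx (v p))

/-- `n` steps over the cycle -/
def Steps (v : G.V → H.V) (D : CycData H) : ℕ → G.V → G.V → Prop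
  | 0, p, q => p = q
  | n + 1, p, q => ∃ z, LStep v D p z ∧ Steps v D n z q

/-- terminal component over the cycle -/
structure Term (v : G.V → H.V) (D : CycData H) (S : Set G.V) : Prop where
  ne : S.Nonempty
  typ : ∀ p ∈ S, v p ∈ D.Cv
  closed : ∀ p ∈ S, ∀ q, LStep v D p q → q ∈ S
  conn : ∀ p ∈ S, ∀ q ∈ S, Relation.ReflTransGen (LStep v D) p q

/-- the part of `G` on `S` -/
def subG (v : G.V → H.V) (D : CycData H) (S : Set G.V) (hS : Term v D S) : Graph where
  V := {p // p ∈ S}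
  E := {f : G.E // G.src f ∈ S ∧ v (G.tgt f) = D.nx (v (G.src f))}
  src f := ⟨G.src f.1, f.2.1⟩
  tgt f := ⟨G.tgt f.1, hS.closed _ f.2.1 _ ⟨hS.typ _ f.2.1, ⟨f.1, rfl, rfl⟩, f.2.2⟩⟩

/-- the induced right resolver -/
lemma exists_sub (Φ : RightResolver G H) (D : CycData H) (S : Set G.V) (hS : Term Φ.v D S) :
    ∃ ρ : RightResolver (subG Φ.v D S hS) D.graph, (∀ p, (ρ.v p).1 = Φ.v p.1) ∧
      ∀ f, (ρ.e f).1 = Φ.e f.1 := by
  have hL : ∀ f : (subG Φ.v D S hS).E, Φ.e f.1 ∈ D.L := by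
    intro f
    refine ⟨?_, ?_⟩
    · rw [Φ.src_comm]; exact hS.typ _ f.2.1
    · rw [Φ.tgt_comm, Φ.src_comm]; exact f.2.2
  have hstep : ∀ p ∈ S, ∃ q ∈ S, Φ.v q = D.nx (Φ.v p) := by
    intro p hp
    obtain ⟨g, hg1, hg2⟩ := D.out (Φ.v p) (hS.typ p hp)
    obtain ⟨f, hf1, hf2⟩ := Φ.exists_edge p hg1
    have hv : Φ.v (G.tgt f) = D.nx (Φ.v p) := by rw [← Φ.tgt_comm, hf2, hg2]
    exact ⟨G.tgt f, hS.closed p hp _ ⟨hS.typ p hp, ⟨f, hf1, rfl⟩, hv⟩, hv⟩
  have hiter : ∀ n : ℕ, ∀ p ∈ S, ∃ q ∈ S, Φ.v q = D.nx^[n] (Φ.v p) := by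
    intro n
    induction n with
    | zero => intro p hp; exact ⟨p, hp, rfl⟩
    | succ n ih =>
      intro p hp
      obtain ⟨q, hq, hqv⟩ := hstep p hp
      obtain ⟨z, hz, hzv⟩ := ih q hq
      exact ⟨z, hz, by rw [hzv, hqv, Function.iterate_succ_apply]⟩
  have hsurj : Function.Surjective
      (fun p : (subG Φ.v D S hS).V => (⟨Φ.v p.1, hS.typ p.1 p.2⟩ : D.graph.V)) := by
    rintro ⟨κ, hκ⟩
    obtain ⟨p, hp⟩ := hS.ne
    obtain ⟨n, hn⟩ := D.orb (Φ.v p) (hS.typ p hp) κ hκ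
    obtain ⟨q, hq, hqv⟩ := hiter n p hp
    exact ⟨⟨q, hq⟩, Subtype.ext (hqv.trans hn)⟩
  refine ⟨RightResolver.mk' (fun p => ⟨Φ.v p.1, hS.typ p.1 p.2⟩)
    (fun f => ⟨Φ.e f.1, hL f⟩) ?_ ?_ hsurj ?_, fun _ => rfl, fun _ => rfl⟩
  · intro f
    exact Subtype.ext (Φ.src_comm f.1)
  · intro f
    exact Subtype.ext (Φ.tgt_comm f.1)
  · rintro ⟨p, hp⟩
    refine ⟨?_, ?_, ?_⟩
    · intro f hf
      have hf' : G.src f.1 = p := congrArg Subtype.val hf
      refine Subtype.ext ?_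
      show H.src (Φ.e f.1) = Φ.v p
      rw [Φ.src_comm, hf']
    · intro f hf f' hf' hff
      have h1 : G.src f.1 = p := congrArg Subtype.val hf
      have h2 : G.src f'.1 = p := congrArg Subtype.val hf'
      have h3 : Φ.e f.1 = Φ.e f'.1 := congrArg Subtype.val hff
      exact Subtype.ext (Φ.edge_unique (h1.trans h2.symm) h3)
    · rintro ⟨g, hgL⟩ hg
      have hg' : H.src g = Φ.v p := congrArg Subtype.val hg
      obtain ⟨f, hf1, hf2⟩ := Φ.exists_edge p hg'
      have hv : Φ.v (G.tgt f) = D.nx (Φ.v (G.src f)) := by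
        rw [← Φ.tgt_comm, hf2, hgL.2, hg', hf1]
      exact ⟨⟨f, by rw [hf1]; exact hp, hv⟩, Subtype.ext hf1, Subtype.ext hf2⟩

lemma sub_conn (v : G.V → H.V) (D : CycData H) (S : Set G.V) (hS : Term v D S) :
    (subG v D S hS).StronglyConnected := by
  rintro ⟨p, hp⟩ ⟨q, hq⟩
  have h : ∀ z, Relation.ReflTransGen (LStep v D) p z → ∃ hz : z ∈ S,
      Relation.ReflTransGen (fun P Q => Q ∈ (subG v D S hS).Followers P)
        (⟨p, hp⟩ : (subG v D S hS).V) ⟨z, hz⟩ := by
    intro z hz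
    induction hz with
    | refl => exact ⟨hp, Relation.ReflTransGen.refl⟩
    | @tail b c _ hbc ih =>
      obtain ⟨hb, hbr⟩ := ih
      have hc : c ∈ S := hS.closed b hb c hbc
      refine ⟨hc, hbr.tail ?_⟩
      obtain ⟨_, ⟨f, hf1, hf2⟩, hf3⟩ := hbc
      refine ⟨⟨f, by rw [hf1]; exact hb, by rw [hf2, hf1]; exact hf3⟩, ?_, ?_⟩
      · exact Subtype.ext hf1
      · exact Subtype.ext hf2
  obtain ⟨_, h'⟩ := h q (hS.conn p hp q hq)
  exact h'

end Pool.Agent.H97.Cyc
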