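import Pool.Agent.H97.Cyc.Sub
import Pool.Agent.H97.Cyc.Step

/-!
# Terminal components over a cycle

Part of `MP_644d19_co` (road colouring inside cycles). `D : CycData H` is a cycle of the graph `H`: a
set `Cv` of vertices, a successor function `nx` on it with a single orbit, such that every
`κ ∈ Cv` has an edge to `nx κ`. `D.L` is the set of the edges from some `κ ∈ Cv` to `nx κ`.
`LStep v D p q`: `v p ∈ Cv` and `q` is a follower of `p` over `nx (v p)`. `Term v D S`: `S` is a terminal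
component of `G` over the cycle.

`C_D = D.graph`: vertices `Cv`, edges `L`. `subG`: the part of `G` on `S`: vertices `S`, edges the
edges `f` of `G` with source in `S` and target over the next vertex of the cycle.
`sub`: the right resolver `subG → D.graph` induced by `Φ` (`mk'`): `v p = ⟨Φ.v p, _⟩`,
`e f = ⟨Φ.e f, _⟩` (`Φ.src_comm`, `Φ.tgt_comm`). Surjective on vertices: `S` is nonempty, closed under
`LStep`, every `κ ∈ Cv` is `nx^[n] (v p)` (`orb`), and every vertex over `κ` has a follower over `nx κ`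
(`D.out`, `Φ.exists_edge`). Bijective on edges at each vertex: from `Φ.bij`.
`sub_conn`: strongly connected, from `Term`.

`exists_col`: `cyc_relative` for `sub` with `nx` restricted to `Cv` gives `Q`, `Θ`, `Ψ`; the right
resolver `χ = comp Θ Ψ : subG → D.graph` has `χ.v = sub.v`. In `Q` every vertex has exactly one
follower (`BijOn` with the one-element set `D.graph.Followers κ = {nx κ}`). If `p →(N) q` and
`p →(N) p` by `N` steps `LStep` in `S`, then `Ψ.v q = Ψ.v p`: the image of a path of `G` is a path of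
`Q` (`Ψ.src_comm`, `Ψ.tgt_comm`), and paths of `Q` of the same length from the same vertex end at the
same vertex. By `Ψ.Synchronizing` at `J = Ψ.v p` there is a path `w` of `Q` from `J` whose lifts from
all `I` with `Ψ.v I = J` end at the same vertex `K`; `leads_map Θ Ψ` and `leads_iff` for `χ`: the word
`w.map Θ.e` is valid from `χ.v p` and `run χ.act q (w.map Θ.e) = K` for all `q` with `Ψ.v q = J`.
-/

set_option autoImplicit false

namespace Pool.Agent.H97.Cyc

open Pool.Agent.H75.Bunchy Pool.Agent.H97.Bun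
open scoped Classical

variable {G H : Graph}

private lemma sb_follow (Φ : RightResolver G H) (D : CycData H) (S : Set G.V)
    (hS : Term Φ.v D S) {Q : Graph} (Ψ : RightResolver (subG Φ.v D S hS) Q)
    (p : (subG Φ.v D S hS).V) (z : G.V) (h : LStep Φ.v D p.1 z) :
    ∃ zz : (subG Φ.v D S hS).V, zz.1 = z ∧ Ψ.v zz ∈ Q.Followers (Ψ.v p) := by
  have hz : z ∈ S := hS.closed p.1 p.2 z h
  obtain ⟨_, ⟨f, hf1, hf2⟩, hvz⟩ := h
  let f' : (subG Φ.v D S hS).E := ⟨f, by rw [hf1]; exact p.2, by rw [hf1, hf2]; exact hvz⟩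
  refine ⟨⟨z, hz⟩, rfl, Ψ.e f', ?_, ?_⟩
  · rw [Ψ.src_comm]
    congr 1
    exact Subtype.ext hf1
  · rw [Ψ.tgt_comm]
    congr 1
    exact Subtype.ext hf2

private lemma sb_steps (Φ : RightResolver G H) (D : CycData H) (S : Set G.V)
    (hS : Term Φ.v D S) {Q : Graph} (Ψ : RightResolver (subG Φ.v D S hS) Q)
    (huniq : ∀ c d d' : Q.V, d ∈ Q.Followers c → d' ∈ Q.Followers c → d = d') :
    ∀ (N : ℕ) (p p' q q' : (subG Φ.v D S hS).V), Ψ.v p = Ψ.v p' →
      Steps Φ.v D N p.1 q.1 → Steps Φ.v D N p'.1 q'.1 → Ψ.v q = Ψ.v q' := by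
  intro N
  induction N with
  | zero =>
    intro p p' q q' h h1 h2
    have e1 : p = q := Subtype.ext h1
    have e2 : p' = q' := Subtype.ext h2
    rw [← e1, ← e2, h]
  | succ N ih =>
    rintro p p' q q' h ⟨z, hz, h1⟩ ⟨z', hz', h2⟩
    obtain ⟨zz, hzz, hfz⟩ := sb_follow Φ D S hS Ψ p z hz
    obtain ⟨zz', hzz', hfz'⟩ := sb_follow Φ D S hS Ψ p' z' hz'
    rw [← hzz] at h1
    rw [← hzz'] at h2
    rw [← h] at hfz'
    exact ih zz zz' q q' (huniq _ _ _ hfz hfz') h1 h2

/-- a colouring of the terminal component in which the vertices of each cyclic class are merged -/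
theorem exists_col (Φ : RightResolver G H) (D : CycData H) (S : Set G.V) (hS : Term Φ.v D S) :
    ∃ χ : RightResolver (subG Φ.v D S hS) D.graph, (∀ p, (χ.v p).1 = Φ.v p.1) ∧
      ∀ p : (subG Φ.v D S hS).V, ∃ w : List D.graph.E,
        Valid D.graph.src D.graph.tgt (χ.v p) w ∧
        ∀ q : (subG Φ.v D S hS).V, ∀ N, Steps Φ.v D N p.1 p.1 → Steps Φ.v D N p.1 q.1 →
          run χ.act q w = run χ.act p w := by
  obtain ⟨ρ, hρ, -⟩ := exists_sub Φ D S hS
  let nx' : D.graph.V → D.graph.V := fun κ => ⟨D.nx κ.1, D.maps κ.1 κ.2⟩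
  have hinj : Function.Injective nx' := by
    intro κ κ' h
    exact Subtype.ext (D.inj κ.2 κ'.2 (congrArg Subtype.val h))
  have htgt : ∀ e : D.graph.E, D.graph.tgt e = nx' (D.graph.src e) := fun e => Subtype.ext e.2.2
  have hout : ∀ κ : D.graph.V, ∃ e : D.graph.E, D.graph.src e = κ := by
    intro κ
    obtain ⟨e, h1, h2⟩ := D.out κ.1 κ.2
    exact ⟨⟨e, by rw [h1]; exact κ.2, by rw [h1]; exact h2⟩, Subtype.ext h1⟩
  obtain ⟨Q, Θ, Ψ, hΨ, hcomm, hbij⟩ := cyc_relative nx' hinj htgt hout ρ (sub_conn Φ.v D S hS)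
  have huniq : ∀ c d d' : Q.V, d ∈ Q.Followers c → d' ∈ Q.Followers c → d = d' := by
    intro c d d' hd hd'
    have hf : ∀ x ∈ Q.Followers c, Θ.v x = nx' (Θ.v c) := by
      intro x hx
      obtain ⟨e, he1, he2⟩ := (hbij c).mapsTo hx
      rw [← he2, htgt, he1]
    exact (hbij c).injOn hd hd' (by rw [hf d hd, hf d' hd'])
  refine ⟨RightResolver.comp Θ Ψ, fun p => ?_, fun p => ?_⟩
  · rw [RightResolver.comp_v, hcomm, hρ]
  · obtain ⟨w₀, hw₀, h1⟩ := hΨ (Ψ.v p)
    obtain ⟨k, hk⟩ := Set.ncard_eq_one.1 h1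
    have hend : ∀ q : (subG Φ.v D S hS).V, Ψ.v q = Ψ.v p →
        run (RightResolver.comp Θ Ψ).act q (w₀.map Θ.e) = k := by
      intro q hq
      obtain ⟨K, hK⟩ := Ψ.exists_leads q w₀ (by rw [hq]; exact hw₀)
      have h2 : K ∈ {K | ∃ I, Ψ.v I = Ψ.v p ∧ Ψ.Leads I w₀ K} := ⟨q, hq, hK⟩
      rw [hk] at h2
      have h3 := RightResolver.leads_map Θ Ψ hK
      rw [RightResolver.leads_iff] at h3
      rw [h3.2]
      exact h2
    refine ⟨w₀.map Θ.e, ?_, ?_⟩
    · have h4 := RightResolver.isPath_map Θ hw₀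
      rw [isPath_iff] at h4
      exact h4
    · intro q N hpp hpq
      have h5 : Ψ.v q = Ψ.v p := sb_steps Φ D S hS Ψ huniq N p p q p rfl hpq hpp
      rw [hend q h5, hend p rfl]

end Pool.Agent.H97.Cyc
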