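import Pool.Agent.H97.Cyc.HalfC
import Pool.Agent.H97.Cyc.ClsF

/-!
# Two adjacent automata without stable pair, classes: the total case

Part of `MP_644d19_co` (road colouring inside cycles). `a' = flip e1 e2 {x} a`.

`Cls.flip'`: the data of the classes for `a` are also data for `a'`: `start`, `cont`, `step`, `meet` do
not involve the automaton. For `closed`, `absorb`, `trans`: for every word `w` in `LW` there is a
word `w'` in `LW` with `run a' p w = run a p w'` (`run_flip_hyb` in `Bun/COf.lean`; `Hyb.valid`; the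
letters of a word `w'` with `Hyb w w'` are letters of `w` or exchanged ones, in `L` by `hL`, and
`w'` has the same length), and conversely `run a p w = run a' p w'`
(`a = flip e1 e2 {x} a'`: `flip_flip`, `symmDiff_self`, `flip_empty`).

`cyc_total`: both automata are typed and strongly connected, `μ` is stationary for both
(`stat_flip`), both ranks are at least 2 (`two_le_rank`; for `a'` at `x`: `flip_left`,
`flip_right`). `op` is the same for both (`op_flip`). Let `A = Asp a`, `A' = Asp a'`.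
`halfC` with `ι₀ = univ`: `card ι + 2 ≤ 2 finrank A`; as `finrank A ≤ card ι`, `card ι ≥ 2`. So
`ι₀'` (at most one class missing) is not empty, `card ι ≤ ι₀'.ncard + 1`, and `halfC` for `a'` gives
`card ι + 1 ≤ 2 finrank A'`. `A ⊓ A' ≤ span {1}`: let `α` be in both, with `P`, `m` and `P'`, `m'`.
`P - P'` is harmonic (same `op`) and vanishes on the classes, so `P = P'` at the states with type in
`T` (`harm_zero`); so `P` is balanced for `a'` too at every `κ ∈ T` (`bal_congr`: the end states for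
`u = []` are the states of type `κ`), and by `const_nil` (in `Bun/CNil.lean`) `P z = m` for all `z` of
type `κ`; so `α i = m` for all `i` (`meet`). So `finrank (A ⊓ A') ≤ 1`, and
`finrank A + finrank A' = finrank (A ⊔ A') + finrank (A ⊓ A') ≤ card ι + 1`
(`Submodule.finrank_sup_add_finrank_inf_eq`), while twice the left side is at least
`2 card ι + 3`.
-/

set_option autoImplicit false

namespace Pool.Agent.H97.Cyc

open Pool.Agent.H75.Bunchy Pool.Agent.H26.Bunchy Pool.Agent.H97.Bun
open scoped Classical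

variable {V K E ι : Type*} {s t : E → K} {σ : V → K} {a : V → E → V}
  {e1 e2 : E} {pr : E → ℝ} {μ : V → ℝ} {L : Set E} {M : ℕ} {T : Set K} {c : V → Option ι}

variable [Fintype V] [Fintype E]

theorem cyc_total [Fintype ι] [Nonempty ι] (hs : s e1 = s e2) (ht : t e1 = t e2)
    (ha : Typed s t σ a) (hcn : Conn s σ a) (h : Stat s σ a pr μ) (hpr : pr e1 = pr e2)
    (hsu : ∀ e, ∃ p, s e = σ p) {x : V} (hx : s e1 = σ x) (hne : a x e1 ≠ a x e2)
    (hTot : Total s σ a (a x e1) (a x e2)) (hL : e1 ∈ L ↔ e2 ∈ L) (hC : Cls s t σ a L M T c)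
    (hT : T.Nonempty) (h8 : Fintype.card ι ≤ 8) {U U' : V → V} (hU : Syn s t σ a T c Set.univ U)
    {ι₀ : Set ι} (hU' : Syn s t σ (flip e1 e2 {x} a) T c ι₀ U')
    (hι₀ : ∀ i j, i ∉ ι₀ → j ∉ ι₀ → i = j) (hno : NoStable s t σ a) :
    ¬ NoStable s t σ (flip e1 e2 {x} a) := by
  intro hno'
  have ha' : Typed s t σ (flip e1 e2 {x} a) := ha.flip hs ht {x}
  have hcn' : Conn s σ (flip e1 e2 {x} a) := hcn.flip hs {x}
  have h' : Stat s σ (flip e1 e2 {x} a) pr μ := stat_flip h hs hpr {x}
  have hr : 2 ≤ rank s t σ a := two_le_rank ha hcn hno hs.symm ht.symm hx hne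
  have hr' : 2 ≤ rank s t σ (flip e1 e2 {x} a) := by
    refine two_le_rank ha' hcn' hno' hs.symm ht.symm hx ?_
    rw [flip_left (Set.mem_singleton x), flip_right (Set.mem_singleton x)]
    exact hne.symm
  have hC' : Cls s t σ (flip e1 e2 {x} a) L M T c := cls_flip hs ht hL {x} hC
  have hcu : (Set.univ : Set ι).ncard = Fintype.card ι := by
    rw [Set.ncard_univ, Nat.card_eq_fintype_card]
  have hA := halfC hs ht ha hcn h hsu hno hr hC hT (ι₀ := Set.univ) Set.univ_nonempty
    (by rw [hcu]; exact h8) hU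
  rw [hcu] at hA
  have hAle : Module.finrank ℝ (Asp s t σ a μ e1 e2 L M T c) ≤ Fintype.card ι := by
    have := Submodule.finrank_le (Asp s t σ a μ e1 e2 L M T c)
    rwa [Module.finrank_fintype_fun_eq_card] at this
  have hc2 : 2 ≤ Fintype.card ι := by omega
  have hcompl : ι₀ᶜ.ncard ≤ 1 := by
    rw [Set.ncard_le_one_iff]
    intro i j hi hj
    exact hι₀ i j hi hj
  have hcc : ι₀.ncard + ι₀ᶜ.ncard = Fintype.card ι := by
    rw [Set.ncard_add_ncard_compl, Nat.card_eq_fintype_card]
  have hne0 : ι₀.Nonempty := by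
    rw [← Set.ncard_pos]
    omega
  have hA' := halfC hs ht ha' hcn' h' hsu hno' hr' hC' hT hne0 (by omega) hU'
  have hsum := Submodule.finrank_sup_add_finrank_inf_eq
    (Asp s t σ a μ e1 e2 L M T c) (Asp s t σ (flip e1 e2 {x} a) μ e1 e2 L M T c)
  have hsup : Module.finrank ℝ ↥(Asp s t σ a μ e1 e2 L M T c ⊔
      Asp s t σ (flip e1 e2 {x} a) μ e1 e2 L M T c) ≤ Fintype.card ι := by
    have := Submodule.finrank_le (Asp s t σ a μ e1 e2 L M T c ⊔
      Asp s t σ (flip e1 e2 {x} a) μ e1 e2 L M T c)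
    rwa [Module.finrank_fintype_fun_eq_card] at this
  have hinf : Module.finrank ℝ ↥(Asp s t σ a μ e1 e2 L M T c ⊓
      Asp s t σ (flip e1 e2 {x} a) μ e1 e2 L M T c) ≤ 1 := by
    have hle : (Asp s t σ a μ e1 e2 L M T c ⊓ Asp s t σ (flip e1 e2 {x} a) μ e1 e2 L M T c) ≤
        Submodule.span ℝ {(fun _ : ι => (1 : ℝ))} := by
      rintro α ⟨⟨P, m, ⟨hP1, hP2⟩, hP3⟩, ⟨P', m', ⟨hQ1, hQ2⟩, hQ3⟩⟩
      rw [Submodule.mem_span_singleton]
      refine ⟨m, ?_⟩
      rw [op_flip hs hL] at hQ1
      have heq : ∀ p, σ p ∈ T → P p = P' p := by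
        intro p hp
        have h0 := harm_zero ha hC (P := P - P')
          (fun q hq => by rw [map_sub, Pi.sub_apply, Pi.sub_apply, hP1 q hq, hQ1 q hq])
          (fun q i hq hi => by rw [Pi.sub_apply, hP3 q i hq hi, hQ3 q i hq hi, sub_self]) hp
        rw [Pi.sub_apply] at h0
        linarith
      obtain ⟨κ, hκ⟩ := hT
      have hb : Bal s t σ (flip e1 e2 {x} a) μ e1 e2 κ [] P m' := by
        refine bal_congr ha' (fun z hz => ?_) (hQ2 κ hκ)
        obtain ⟨p, u', hp, hu, rfl⟩ := hz
        rw [hu.nil_left, run_nil]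
        exact (heq p (by rw [hp]; exact hκ)).symm
      have hcst := const_nil h.mu_pos hs ht ha hx hTot (hP2 κ hκ) hb
      funext i
      obtain ⟨p, hp, hi⟩ := hC.meet κ hκ i
      have h1 := hP3 p i (by rw [hp]; exact hκ) hi
      have h2 := hcst p hp
      rw [Pi.smul_apply, smul_eq_mul, mul_one, ← h1, h2]
    refine (Submodule.finrank_mono hle).trans ?_
    refine (finrank_span_le_card (R := ℝ) {(fun _ : ι => (1 : ℝ))}).trans ?_
    simp
  omega

end Pool.Agent.H97.Cyc
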