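import Pool.Agent.H97.Cyc.Fun

/-!
# Changing a function at one point

Part of `MP_644d19_co` (road colouring inside cycles). `α' = Function.update α a p`, so `α' a = p`
and `α' z = α z` for `z ≠ a`.

`upd_iter`: induction on `n` (`Function.iterate_succ_apply'`): `α'^[i] y = α^[i] y ≠ a`.
`upd_iter'`: the same with the roles exchanged.
`upd_cyc`, `upd_lev`: if the `α`-orbit of `y` avoids `a`, it is also the `α'`-orbit; the orbits of
its points avoid `a` too, so each of its points is periodic for `α` iff for `α'`.
`not_reach`: if `a` is not periodic for `α'`, then the `α`-orbit of `p` avoids `a`: otherwise take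
the least `i` with `α^[i] p = a`; `α'^[i] p = a` (`upd_iter`), so `α'^[i+1] a = a`.
`upd_reach`: let `a ∉ cyc α'` and let the `α`-orbit of `y` contain `a`, first at time `n`. Then
`α'^[n] y = a` (`upd_iter`), and no `α'^[i] y` with `i ≤ n` is periodic (else `a` would be,
`cyc_iter`), so `n < lev α' y` or `n ≤ lev α' y`, and `lev_iter` gives
`lev α' a = lev α' y - n`, `root α' a = root α' y`.
`cyc_lt`: if `a` is periodic for `α'` but not for `α`: a point `y ∈ cyc α` has an orbit in `cyc α`,
so avoiding `a`, so `y ∈ cyc α'` (`upd_cyc`); `a ∈ cyc α'` is new: `Set.ncard_lt_ncard`.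
`cyc_eq`: if `a` is periodic for neither of them, `cyc α' = cyc α` (the same argument in both
directions, `α = Function.update α' a (α a)`).
-/

set_option autoImplicit false

namespace Pool.Agent.H97.Cyc

open scoped Classical

variable {V : Type*} {α : V → V} {a p : V}

lemma upd_iter {y : V} {n : ℕ} (h : ∀ i < n, α^[i] y ≠ a) :
    (Function.update α a p)^[n] y = α^[n] y := by
  induction n with
  | zero => rfl
  | succ n ih =>
    rw [Function.iterate_succ_apply', Function.iterate_succ_apply',
      ih fun i hi => h i (by omega)]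
    exact Function.update_of_ne (h n (by omega)) _ _

lemma upd_iter' {y : V} {n : ℕ} (h : ∀ i < n, (Function.update α a p)^[i] y ≠ a) :
    (Function.update α a p)^[n] y = α^[n] y := by
  induction n with
  | zero => rfl
  | succ n ih =>
    rw [Function.iterate_succ_apply', Function.iterate_succ_apply',
      Function.update_of_ne (h n (by omega)), ih fun i hi => h i (by omega)]

lemma upd_cyc {y : V} (h : ∀ i, α^[i] y ≠ a) : y ∈ cyc (Function.update α a p) ↔ y ∈ cyc α := by
  rw [mem_cyc_iff, mem_cyc_iff]
  refine exists_congr fun n => ?_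
  rw [upd_iter fun i _ => h i]

lemma not_reach (ha : a ∉ cyc (Function.update α a p)) (i : ℕ) : α^[i] p ≠ a := by
  intro hi
  have hex : ∃ i, α^[i] p = a := ⟨i, hi⟩
  obtain ⟨n, hn, hlt⟩ : ∃ n, α^[n] p = a ∧ ∀ i < n, α^[i] p ≠ a :=
    ⟨Nat.find hex, Nat.find_spec hex, fun i hi => Nat.find_min hex hi⟩
  refine ha (mem_cyc_iff.2 ⟨n + 1, Nat.succ_pos n, ?_⟩)
  rw [Function.iterate_succ_apply, Function.update_self, upd_iter hlt, hn]

variable [Finite V]

lemma upd_lev {y : V} (h : ∀ i, α^[i] y ≠ a) : lev (Function.update α a p) y = lev α y ∧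
    root (Function.update α a p) y = root α y := by
  have h1 : ∀ n, (Function.update α a p)^[n] y = α^[n] y := fun n => upd_iter fun i _ => h i
  have h2 : lev (Function.update α a p) y = lev α y := by
    unfold lev
    congr 1
    ext n
    simp only [Set.mem_setOf_eq]
    rw [h1 n]
    refine upd_cyc fun i => ?_
    rw [← Function.iterate_add_apply]
    exact h _
  refine ⟨h2, ?_⟩
  unfold root
  rw [h2, h1]

lemma upd_reach (ha : a ∉ cyc (Function.update α a p)) {y : V} {n : ℕ} (hy : α^[n] y = a) :
    lev (Function.update α a p) a ≤ lev (Function.update α a p) y ∧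
      root (Function.update α a p) y = root (Function.update α a p) a := by
  have hex : ∃ i, α^[i] y = a := ⟨n, hy⟩
  obtain ⟨m, hm, hlt⟩ : ∃ m, α^[m] y = a ∧ ∀ i < m, α^[i] y ≠ a :=
    ⟨Nat.find hex, Nat.find_spec hex, fun i hi => Nat.find_min hex hi⟩
  have h1 : (Function.update α a p)^[m] y = a := by rw [upd_iter hlt, hm]
  have h2 : m ≤ lev (Function.update α a p) y := by
    by_contra hcon
    have h5 := iter_mem (α := Function.update α a p) (y := y) (n := m) (by omega)
    rw [h1] at h5
    exact ha h5
  obtain ⟨h3, h4⟩ := lev_iter h2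
  rw [h1] at h3 h4
  exact ⟨by omega, h4.symm⟩

lemma cyc_lt (ha : a ∉ cyc α) (ha' : a ∈ cyc (Function.update α a p)) :
    (cyc α).ncard < (cyc (Function.update α a p)).ncard := by
  refine Set.ncard_lt_ncard ?_ (Set.toFinite _)
  refine (Set.ssubset_iff_of_subset ?_).2 ⟨a, ha', ha⟩
  intro y hy
  refine (upd_cyc fun i hi => ha ?_).2 hy
  have h1 := cyc_iter hy i
  rw [hi] at h1
  exact h1

omit [Finite V] in
lemma cyc_eq (ha : a ∉ cyc α) (ha' : a ∉ cyc (Function.update α a p)) :
    cyc (Function.update α a p) = cyc α := by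
  ext y
  constructor
  · intro hy
    have h1 : ∀ i, (Function.update α a p)^[i] y ≠ a := fun i hi => by
      have h3 := cyc_iter hy i
      rw [hi] at h3
      exact ha' h3
    obtain ⟨n, hn, h2⟩ := mem_cyc_iff.1 hy
    refine mem_cyc_iff.2 ⟨n, hn, ?_⟩
    rw [← upd_iter' (a := a) (p := p) fun i _ => h1 i]
    exact h2
  · intro hy
    refine (upd_cyc fun i hi => ha ?_).2 hy
    have h1 := cyc_iter hy i
    rw [hi] at h1
    exact h1

end Pool.Agent.H97.Cyc
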